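import Pool.Agent.H621.CY.Jnt

set_option autoImplicit false
set_option linter.unusedSectionVars false

/-!
# The exceptional elliptic curves
-/

open Module TensorProduct Matrix Polynomial

noncomputable section

namespace Pool.Agent.H621.CY

open Pool.Agent.Y102 Pool.Agent.W516.DR Pool.Agent.H204R3.GP Pool.Agent.W516.KC
  Pool.Agent.H204R3.SP Pool.Agent.TH119.MX Pool.Agent.R917 Pool.Agent.R917.DT
  Pool.Agent.R917.EC Pool.Agent.H621.BC Pool.Agent.R917.OM Pool.Agent.Y102.AbVar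

open Pool.Agent.H621.RM (NS NS_rm lev' LP PtA Lif hb lift_NA nn_ideal nn_RC)

variable {r K : ℕ} {lev : Fin r → Fin K} {C C' : Matrix (Fin r) (Fin r) ℂ}

/-- The elliptic curve is exceptional. -/
def Bad (C C' : Matrix (Fin r) (Fin r) ℂ) (lev : Fin r → Fin K) (E : AbVar 1) : Prop :=
  ∃ 𝔮 : Submodule ℂ (T3 r 1), PtQ E C C' lev 𝔮 ∧ ∀ Y ∈ RM.nn E (𝔮.map ex3), Y = 0

theorem NoHom.symm1 {A B : AbVar 1} (h : NoHom A B) : NoHom B A := by
  rintro f ⟨F, hF⟩
  by_contra hf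
  -- `F` is injective
  have hF0 : F ≠ 0 := by
    rintro rfl
    apply hf
    refine LinearMap.ext fun w => ?_
    apply A.per_inj
    rw [← hF, LinearMap.zero_apply, LinearMap.zero_apply, map_zero]
  have hFi : Function.Injective F := by
    rw [← LinearMap.ker_eq_bot]
    by_contra hk
    obtain ⟨v, hv, hv0⟩ := Submodule.exists_mem_ne_zero_of_ne_bot hk
    apply hF0
    refine LinearMap.ext fun u => ?_
    have h0 : v 0 ≠ 0 := fun h0 => hv0 (by
      funext i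
      rw [Subsingleton.elim i 0, h0]
      rfl)
    have h1 : u = (u 0 / v 0) • v := by
      funext i
      rw [Subsingleton.elim i 0, Pi.smul_apply, smul_eq_mul, div_mul_cancel₀ _ h0]
    rw [h1, map_smul, LinearMap.mem_ker.1 hv, smul_zero, LinearMap.zero_apply]
  have hfi : Function.Injective f := by
    intro x y hxy
    apply B.per_inj
    apply hFi
    rw [hF, hF, hxy]
  let Fe := LinearEquiv.ofInjectiveEndo F hFi
  let fe := LinearEquiv.ofInjectiveEndo (f : Module.End ℚ (Fin (2 * 1) → ℚ)) hfi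
  have h1 := h fe.symm.toLinearMap ⟨Fe.symm.toLinearMap, fun w => by
    change Fe.symm (A.per w) = B.per (fe.symm w)
    rw [LinearEquiv.symm_apply_eq]
    change _ = F (B.per (fe.symm w))
    rw [hF]
    congr 1
    exact (fe.apply_symm_apply w).symm⟩
  have h2 : ∀ w : Fin (2 * 1) → ℚ, fe.symm w = 0 := fun w =>
    congrArg (fun T : (Fin (2 * 1) → ℚ) →ₗ[ℚ] (Fin (2 * 1) → ℚ) => T w) h1
  apply hf
  refine LinearMap.ext fun w => ?_
  have h3 := h2 (fe w)
  rw [LinearEquiv.symm_apply_apply] at h3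
  rw [h3, map_zero, map_zero]

/-- **The exceptional elliptic curves**: there are at most `∑ l, ⌊r_l / 2⌋` isogeny classes. -/
theorem exists_max (hC : BT lev C) (hC' : BT lev C') : ∃ (m : ℕ) (X : Fin m → AbVar 1),
    m ≤ ∑ l : Fin K, Fintype.card {i // lev i = l} / 2 ∧
      ∀ E : AbVar 1, (∀ k, NoHom (X k) E) → ¬ Bad C C' lev E := by
  classical
  let S : ℕ → Prop := fun m => ∃ X : Fin m → AbVar 1, (∀ k, Bad C C' lev (X k)) ∧
    ∀ i j, i ≠ j → NoHom (X i) (X j)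
  have hS : ∀ m, S m → m ≤ ∑ l : Fin K, Fintype.card {i // lev i = l} / 2 := by
    rintro m ⟨X, h1, h2⟩
    choose 𝔮 h3 h4 using h1
    obtain ⟨W⟩ := exists_Pw X
    exact bound W hC hC' h2 h3 h4
  have h0 : S 0 := ⟨fun k => k.elim0, fun k => k.elim0, fun k => k.elim0⟩
  obtain ⟨m, hm, hmax⟩ : ∃ m, S m ∧ ¬ S (m + 1) := by
    by_contra hcon
    push Not at hcon
    have h1 : ∀ m, S m := fun m => by
      induction m with
      | zero => exact h0
      | succ m ih => exact hcon m ih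
    have h2 := hS _ (h1 (∑ l : Fin K, Fintype.card {i // lev i = l} / 2 + 1))
    omega
  have hmS := hS m hm
  obtain ⟨X, h1, h2⟩ := hm
  refine ⟨m, X, hmS, fun E hE hbad => hmax ?_⟩
  refine ⟨Fin.snoc (α := fun _ => AbVar 1) X E, fun k => ?_, fun i j => ?_⟩
  · refine Fin.lastCases ?_ (fun k => ?_) k
    · rw [Fin.snoc_last]
      exact hbad
    · rw [Fin.snoc_castSucc]
      exact h1 k
  · refine Fin.lastCases ?_ (fun i => ?_) i
    · refine Fin.lastCases ?_ (fun j => ?_) j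
      · intro h
        exact absurd rfl h
      · intro _
        rw [Fin.snoc_last, Fin.snoc_castSucc]
        exact (hE j).symm1
    · refine Fin.lastCases ?_ (fun j => ?_) j
      · intro _
        rw [Fin.snoc_last, Fin.snoc_castSucc]
        exact hE i
      · intro h
        rw [Fin.snoc_castSucc, Fin.snoc_castSucc]
        exact h2 i j fun h' => h (by rw [h'])

/-! ### Products of elliptic curves which are not exceptional -/

section good

variable {n : ℕ} {E : Fin n → AbVar 1} (W : Pw E)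
  (halg : ∀ i j, ¬ NoHom (E i) (E j) → ∃ φ : (E i).H1 →ₗ[ℚ] (E j).H1, IsHom (E i) (E j) φ ∧ φ ≠ 0)

theorem Pw.no1 {i j : Fin n} (hno : NoHom (E i) (E j))
    (T : Module.End ℚ W.B.H1) (hT : ∃ F : (Fin n → ℂ) →ₗ[ℂ] (Fin n → ℂ), ∀ w,
      F (W.B.per w) = W.B.per (T w)) : W.P j * T * W.P i = 0 := by
  obtain ⟨F, hF⟩ := hT
  obtain ⟨G, hG⟩ := (W.hf i).1
  obtain ⟨H, hH⟩ := (W.hp j).1
  have h1 := hno (W.p j ∘ₗ T ∘ₗ W.f i) ⟨H ∘ₗ F ∘ₗ G, fun w => by
    rw [LinearMap.comp_apply, LinearMap.comp_apply, hG, hF, hH]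
    rfl⟩
  refine LinearMap.ext fun w => ?_
  have h2 := congrArg (fun T : (E i).H1 →ₗ[ℚ] (E j).H1 => T (W.p i w)) h1
  change W.f j (W.p j (T (W.f i (W.p i w)))) = 0
  change W.p j (T (W.f i (W.p i w))) = 0 at h2
  rw [h2, map_zero]

include halg in
theorem Pw.iso (i j : Fin n) : (∃ T ∈ W.B.EA, W.P j * T * W.P i ≠ 0) ∨
    ∀ T : Module.End ℚ W.B.H1, (∃ F : (Fin n → ℂ) →ₗ[ℂ] (Fin n → ℂ), ∀ w,
      F (W.B.per w) = W.B.per (T w)) → W.P j * T * W.P i = 0 := by
  by_cases h : NoHom (E i) (E j)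
  · exact Or.inr (W.no1 h)
  · obtain ⟨φ, hφ, hφ0⟩ := halg i j h
    refine Or.inl ⟨W.f j ∘ₗ φ ∘ₗ W.p i, ?_, fun h0 => hφ0 ?_⟩
    · rw [AbVar.mem_EA]
      exact (isHom_comp (W.hf j) (isHom_comp hφ (W.hp i))).2
    · refine LinearMap.ext fun w => ?_
      have h1 := congrArg (fun T : Module.End ℚ W.B.H1 => W.p j (T (W.f i w))) h0
      change W.p j (W.f j (W.p j (W.f j (φ (W.p i (W.f i (W.p i (W.f i w)))))))) = W.p j 0 at h1
      rw [(W.fac j).pf, (W.fac j).pf, (W.fac i).pf, (W.fac i).pf, map_zero] at h1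
      exact h1

include halg in
theorem Pw.det' : Det W.B := by
  obtain ⟨S, R, hpr⟩ := exists_CP W.P_mem W.P_idem W.P_rk fun i j _ => W.iso halg i j
  obtain ⟨C⟩ := S.exists_Reps W.P
  obtain ⟨S', -⟩ := exists_CMS' C R (pr_sum hpr W.P_sum)
  exact det_of_CMS S'

include halg in
/-- **The ideal** is the whole Lie algebra of the Hodge group. -/
theorem Pw.nn_top (hgood : ∀ k, ¬ Bad C C' lev (E k)) {𝔭 : Submodule ℂ (T3 r n)}
    (hP : PtQ W.B C C' lev 𝔭) : ∀ Y ∈ W.B.NA, Y ∈ RM.nn W.B (𝔭.map ex3) := by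
  obtain ⟨S, R, hpr⟩ := exists_CP W.P_mem W.P_idem W.P_rk fun i j _ => W.iso halg i j
  have hpta := hP.pta
  have hdet := W.det' halg
  refine ideal_top' R hpr W.P_sum (fun Y hY => hY.1) (fun X hX Y hY => ?_) (nn_RC hpta) fun k => ?_
  · exact nn_ideal hpta ⟨hX, lift_NA hdet hpta hX⟩ hY
  · by_contra hcon
    push Not at hcon
    refine hgood k ⟨𝔭.map (pj r (W.f k) (W.p k)), hP.fac (W.fac k), fun Y hY => ?_⟩
    obtain ⟨Z, hZ, rfl⟩ := nn_fac (W.fac k) hP.lq hY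
    refine LinearMap.ext fun w => ?_
    have h1 := congrArg (fun T : Module.End ℚ W.B.H1 => W.p k (T (W.f k w))) (hcon Z hZ)
    change W.p k (Z (W.f k (W.p k (W.f k w)))) = W.p k 0 at h1
    rw [(W.fac k).pf, map_zero] at h1
    exact h1

include halg in
theorem Pw.NS_mem (hgood : ∀ k, ¬ Bad C C' lev (E k)) {𝔭 : Submodule ℂ (T3 r n)}
    (hP : PtQ W.B C C' lev 𝔭) {α : Matrix (Fin (2 * n)) (Fin (2 * n)) ℂ} (hα : α ∈ NS W.B) :
    ((0, α) : T3 r n) ∈ 𝔭 := by
  rw [← mem_map_zero]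
  refine RM.of_span (A := W.B) ?_
  unfold RM.NS at hα
  refine Submodule.span_mono ?_ hα
  rintro _ ⟨Y, hY, rfl⟩
  exact ⟨Y, W.nn_top halg hgood hP Y hY, rfl⟩

include halg in
/-- **Factors of products of elliptic curves which are not exceptional.** -/
theorem Pw.fac_mem (hC : BT lev C) (hC' : BT lev C') (hgood : ∀ k, ¬ Bad C C' lev (E k)) {g : ℕ}
    {A : AbVar g} {f : A.H1 →ₗ[ℚ] W.B.H1} {p : W.B.H1 →ₗ[ℚ] A.H1} (hF : Fac A W.B f p)
    {𝔭 : Submodule ℂ (T3 r g)} (hP : PtQ A C C' lev 𝔭) :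
    ((0, hm A Complex.I) : T3 r g) ∈ 𝔭 := by
  have h1 : PtQ W.B C C' lev (jn (m := 1) (d := fun _ => g) (E := fun _ => A) W.B lev
      (fun _ => f) (fun _ => p) fun _ => 𝔭) := jn_ptq (fun _ => hF) hC hC' fun _ => hP
  have h2 := (W.NS_mem halg hgood h1 hm_NS).2.2 0
  rw [pj_apply] at h2
  change ((0, rq (a := 2 * g) (b := 2 * n) f * hm W.B Complex.I *
    rq (a := 2 * n) (b := 2 * g) p) : T3 r g) ∈ 𝔭 at h2
  rw [hm_fac hF] at h2
  exact h2

end good

end Pool.Agent.H621.CY
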