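import Pool.Agent.H621.CY.Top

set_option autoImplicit false
set_option linter.unusedSectionVars false
set_option linter.unusedSimpArgs false

/-!
# The central skew-symmetric endomorphisms of a product of elliptic curves
-/

open Module Function TensorProduct Matrix

noncomputable section

namespace Pool.Agent.H621.CY

open Pool.Agent.Y102 Pool.Agent.W516.DR Pool.Agent.H204R3.GP Pool.Agent.W516.KC
  Pool.Agent.H204R3.SP Pool.Agent.TH119.MX Pool.Agent.R917.OM Pool.Agent.Y102.AbVar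
  Pool.Agent.R917.DT

open Pool.Agent.R917.GL (CP EC HC CC CC_of_cx CC_of_Cm eq_zero_of_cmpE cmpE_mul_bc
  bc_zero_iff mem_cx_EA)
open Pool.Agent.R917.EC.EP (Cm)

variable {g : ℕ} {A : AbVar g}

/-- Skew-symmetric endomorphisms which commute with the endomorphisms have trace zero on all
elliptic curves. -/
theorem tz_skew {C : Type} (S : Pool.Agent.R917.EC.PL A C) {X : Module.End ℚ A.H1} (hC : Cm X)
    (hs : IsSkew A.om X) (c : C) : Pool.Agent.R917.EC.tz (S.xi X c) := by
  have he : ∀ i : Fin 2, (Pi.single i 1 : Fin 2 → ℚ) ≠ 0 := by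
    intro i h
    have h1 := congrFun h i
    rw [Pi.single_eq_same] at h1
    exact one_ne_zero h1
  have hom0 : ∀ x : A.H1, A.om x x = 0 := fun x => by
    have h5 := A.om_anti x x
    linarith
  -- the form is not zero on the plane
  have h01 : A.om (S.b c (Pi.single 0 1)) (S.b c (Pi.single 1 1)) ≠ 0 := by
    intro h0
    obtain ⟨y, hy, hyx⟩ := Pool.Agent.R917.EC.exists_om (x := S.b c (Pi.single 0 1))
      (fun h => he 0 (S.b_inj h)) (U := LinearMap.ker (S.pr c - 1)) (by
        rw [LinearMap.mem_ker, LinearMap.sub_apply, Pool.Agent.R917.EC.PL.pr_apply, S.pb]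
        exact sub_self _) (fun f u hu => by
        rw [LinearMap.mem_ker, LinearMap.sub_apply, sub_eq_zero] at hu ⊢
        have e2 := A.NA_comm (A.MA_le_NA (A.J_mem f)) (S.mem c)
        have e4 := congrArg (fun T : Module.End ℚ A.H1 => T u) e2
        simp only [Module.End.mul_apply] at e4
        change (S.b c ∘ₗ S.p c) _ = _
        rw [← e4]
        exact congrArg _ hu)
    rw [LinearMap.mem_ker, LinearMap.sub_apply, sub_eq_zero,
      Pool.Agent.R917.EC.PL.pr_apply] at hy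
    change S.b c (S.p c y) = y at hy
    apply hyx
    have h2 : S.p c y = S.p c y 0 • Pi.single 0 1 + S.p c y 1 • Pi.single 1 1 := by
      funext i
      fin_cases i <;> simp
    rw [← hy, h2, map_add, map_smul, map_smul, map_add, map_smul, map_smul, LinearMap.add_apply,
      LinearMap.smul_apply, LinearMap.smul_apply, hom0, A.om_anti, h0]
    simp
  have h1 := hs (S.b c (Pi.single 0 1)) (S.b c (Pi.single 1 1))
  rw [S.apply_b hC, S.apply_b hC] at h1
  have h2 : ∀ v : Fin 2 → ℚ, v = v 0 • Pi.single 0 1 + v 1 • Pi.single 1 1 := by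
    intro v
    funext i
    fin_cases i <;> simp
  rw [h2 (S.xi X c *ᵥ Pi.single 0 1), h2 (S.xi X c *ᵥ Pi.single 1 1)] at h1
  simp only [map_add, map_smul, LinearMap.add_apply, LinearMap.smul_apply, hom0, smul_eq_mul,
    mul_zero, add_zero, zero_add, Matrix.mulVec_single_one] at h1
  have h3 : (S.xi X c 0 0 + S.xi X c 1 1) *
      A.om (S.b c (Pi.single 0 1)) (S.b c (Pi.single 1 1)) = 0 := by
    have h4 := h1
    simp only [Matrix.col_apply] at h4
    linear_combination h4
  have h5 := (mul_eq_zero.1 h3).resolve_right h01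
  unfold Pool.Agent.R917.EC.tz
  linarith

theorem trace_skew {P X : Module.End ℚ A.H1} (h1 : P ∈ A.EA) (h2 : P * P = P)
    (h4 : finrank ℚ (LinearMap.range P) = 2) (hC : Cm X) (hs : IsSkew A.om X) :
    LinearMap.trace ℚ A.H1 (X * P) = 0 := by
  obtain ⟨S, hS⟩ := Pool.Agent.R917.EC.exists_PL h1 h2 h4
  have h3 := tz_skew S hC hs ()
  rw [← hS, ← Pool.Agent.R917.EC.trace_toMatrix, Matrix.trace_fin_two]
  change S.xi X () 0 0 + S.xi X () 1 1 = 0
  unfold Pool.Agent.R917.EC.tz at h3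
  rw [h3, add_neg_cancel]

variable {K : Type} [Fintype K] {P : K → Module.End ℚ A.H1}

theorem ZA_cm {X : Module.End ℚ A.H1} (hX : X ∈ A.ZA) : Cm X := hX.2.2

/-- the planes without complex multiplication -/
theorem ZA_xi_N {S : CP A K} (hpr : ∀ k, S.pr k = (P k).baseChange ℂ) (hmem : ∀ k, P k ∈ A.EA)
    (hid : ∀ k, P k * P k = P k) (hrk : ∀ k, finrank ℚ (LinearMap.range (P k)) = 2)
    {X : Module.End ℚ A.H1} (hX : X ∈ A.ZA) {c : K} (hc : c ∈ S.N) :
    S.xi (X.baseChange ℂ) c = 0 := by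
  obtain ⟨z, hz⟩ := S.sc c hc X hX.1
  have h1 : S.xi (X.baseChange ℂ) c = z • (1 : Pool.Agent.R917.GL.M2) := by
    refine Pool.Agent.R917.GL.mat_ext fun v => ?_
    rw [S.xi_mulVec, hz, Matrix.smul_mulVec, Matrix.one_mulVec]
  have h2 : Pool.Agent.R917.GL.tz (S.xi (X.baseChange ℂ) c) := by
    apply Pool.Agent.R917.GL.tz_of_trace
    change Matrix.trace (LinearMap.toMatrix' (S.p c ∘ₗ (X.baseChange ℂ : EC A) ∘ₗ S.b c)) = 0
    rw [Pool.Agent.R917.EC.trace_toMatrix]
    change LinearMap.trace ℂ (ℂ ⊗[ℚ] A.H1) ((X.baseChange ℂ : EC A) * S.pr c) = 0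
    rw [hpr, ← bc_mul, LinearMap.trace_baseChange,
      trace_skew (hmem c) (hid c) (hrk c) (ZA_cm hX) (hX.2.1), map_zero]
  exact Pool.Agent.R917.GL.tz_of_scalar h2 h1

/-- Central elements of the Lie algebra of the Hodge group. -/
theorem mem_ZA_of_NA {Z : Module.End ℚ A.H1} (hZ : Z ∈ A.NA) (hc : ∀ X ∈ A.NA, Z * X = X * Z) :
    Z ∈ A.ZA := by
  refine ⟨fun X hX => (hc X (A.LA_le_NA hX)).symm, A.NA_skew hZ, fun Q hQ => A.NA_comm hZ hQ⟩

/-- **The central skew-symmetric endomorphisms** are in the Lie algebra of the Hodge group. -/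
theorem ZA_le_NA {S : CP A K} (C : S.Reps P) (R : S.Rt P)
    (hpr : ∀ k, S.pr k = (P k).baseChange ℂ) (hsum : ∑ k, P k = 1) (hmem : ∀ k, P k ∈ A.EA)
    (hid : ∀ k, P k * P k = P k) (hrk : ∀ k, finrank ℚ (LinearMap.range (P k)) = 2) :
    ∀ X ∈ A.ZA, X ∈ A.NA := by
  classical
  have hsum' := pr_sum hpr hsum
  obtain ⟨S', hS'⟩ := exists_CMS' C R hsum'
  have := Fintype.ofFinite {k // k ∈ C.Cm}
  have T : ∀ c, S'.CMd c := fun c => (S'.exists_CMd (S'.tr c) (S'.ne c) (S'.memD c)).some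
  have hZ := cms_Z S' T
  choose Z hZN hZc a ha1 ha0 ha using hZ
  intro X hX
  have hco : ∀ c, ∃ b : ℚ, S'.xi X c = b • (T c).D := fun c =>
    Pool.Agent.R917.EC.comm_of_sp (T c).tr (tz_skew S'.toPL (ZA_cm hX) hX.2.1 c) (T c).ne
      (S'.lb_of_up (ZA_cm hX) (T c).mem)
  choose b hb using hco
  have hZA : ∀ c, Z c ∈ A.ZA := fun c => mem_ZA_of_NA (hZN c) (hZc c)
  let X' : Module.End ℚ A.H1 := X - ∑ c, b c • Z c
  have hX' : X' ∈ A.ZA := A.ZA.sub_mem hX
    (Submodule.sum_mem _ fun c _ => A.ZA.smul_mem _ (hZA c))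
  have hxi : ∀ e, S'.xi X' e = 0 := by
    intro e
    change S'.xi (X - ∑ c, b c • Z c) e = 0
    rw [map_sub, map_sum, Pi.sub_apply, Finset.sum_apply, Finset.sum_eq_single e]
    · rw [map_smul, Pi.smul_apply, ha, ha1, one_smul, hb, sub_self]
    · intro c _ hce
      rw [map_smul, Pi.smul_apply, ha, ha0 c e (Ne.symm hce), zero_smul, smul_zero]
    · intro h
      exact absurd (Finset.mem_univ _) h
  have h0 : X' = 0 := by
    apply bc_zero_iff
    refine CP.inj C R hsum' (CC_of_Cm (ZA_cm hX')) (fun c hc => ?_) fun c hc => ?_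
    · exact ZA_xi_N hpr hmem hid hrk hX' (C.n1 c hc)
    · apply S.xi_eq_of_mul_pr
      rw [hpr, ← bc_mul]
      have h1 : X' * P c = 0 := by
        rw [← hS' ⟨c, hc⟩]
        refine LinearMap.ext fun w => ?_
        rw [Module.End.mul_apply, Pool.Agent.R917.EC.PL.pr_apply, S'.apply_b (ZA_cm hX'), hxi,
          Matrix.zero_mulVec, map_zero, LinearMap.zero_apply]
      rw [h1, LinearMap.baseChange_zero]
  have h1 : X = ∑ c, b c • Z c := sub_eq_zero.1 h0
  rw [h1]
  exact Submodule.sum_mem _ fun c _ => A.NA.smul_mem _ (hZN c)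

/-- Skew-symmetric endomorphisms which commute with the endomorphisms are in the Lie algebra of the
Hodge group. -/
theorem NA_of_skew {e : Basis (Fin g) ℂ (Fin g → ℂ)} (he : Adapted A.EA e)
    (h : ∀ X ∈ A.ZA, X ∈ A.NA) {Z : Module.End ℚ A.H1} (hZ : IsSkew A.om Z)
    (hZc : ∀ Q ∈ A.EA, Z * Q = Q * Z) : Z ∈ A.NA := by
  obtain ⟨ε, hε, h0⟩ := A.exists_idem he
  have h1 := A.LA_le_NA (A.idem_mem he hε h0 hZ hZc)
  have h2 := h _ (hε.comp Z hZ hZc)
  have h3 := A.NA.add_mem h1 h2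
  have h4 : ε * Z + (1 - ε) * Z = Z := by rw [sub_mul, one_mul]; abel
  rwa [h4] at h3

/-- **Forms killed by the Lie algebra of the Hodge group** are combinations of products of bilinear
forms. -/
theorem lef_of {P : Fin g → Module.End ℚ A.H1} {S : CP A (Fin g)} (C : S.Reps P) (R : S.Rt P)
    (hpr : ∀ k, S.pr k = (P k).baseChange ℂ) (hsum : ∑ k, P k = 1) (hmem : ∀ k, P k ∈ A.EA)
    (hid : ∀ k, P k * P k = P k) (hrk : ∀ k, finrank ℚ (LinearMap.range (P k)) = 2)
    (horth : ∀ i j, i ≠ j → P i * P j = 0) (hsym : ∀ i u v, A.om (P i u) v = A.om u (P i v))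
    {m : ℕ} (φ : MultilinearMap ℚ (fun _ : Fin m × Fin 2 => A.H1) ℚ)
    (hφ : ∀ Z ∈ A.NA, Kills Z φ) : φ ∈ Submodule.span ℚ (LefProd A A.EA m) := by
  have hne : ∀ k, P k ≠ 0 := by
    intro k h0
    have h1 := hrk k
    rw [h0, LinearMap.range_zero, finrank_bot] at h1
    exact absurd h1 (by norm_num)
  have hli : LinearIndependent ℚ P := by
    rw [Fintype.linearIndependent_iff]
    intro a ha k
    have h1 := congrArg (fun T : Module.End ℚ A.H1 => T * P k) ha
    simp only [Finset.sum_mul, smul_mul_assoc, zero_mul] at h1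
    rw [Finset.sum_eq_single k, hid] at h1
    · exact (smul_eq_zero.1 h1).resolve_right (hne k)
    · intro j _ hj
      rw [horth j k hj, smul_zero]
    · intro h
      exact absurd (Finset.mem_univ _) h
  have hcomm : ∀ i j, P i * P j = P j * P i := by
    intro i j
    by_cases hij : i = j
    · rw [hij]
    · rw [horth i j hij, horth j i (Ne.symm hij)]
  obtain ⟨e, he, -⟩ := exists_adapted A.endAlg P hmem hcomm hsym hli
  obtain ⟨e', he', -, hn⟩ := exists_normalized A.endAlg he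
  refine lefschetz A.endAlg he' hn φ fun Z hZ hZc => hφ Z ?_
  exact NA_of_skew he (ZA_le_NA C R hpr hsum hmem hid hrk) hZ hZc

end Pool.Agent.H621.CY
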