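import Pool.Agent.H621.CY.Ops
import Pool.Agent.W516.DRMain

set_option autoImplicit false
set_option linter.unusedSectionVars false

/-!
# The Lie algebra of triples of a class on a product
-/

open Module TensorProduct Matrix Polynomial

noncomputable section

namespace Pool.Agent.H621.CY

open Pool.Agent.Y102 Pool.Agent.W516.DR Pool.Agent.H204R3.GP Pool.Agent.W516.KC
  Pool.Agent.H204R3.SP Pool.Agent.TH119.MX Pool.Agent.R917 Pool.Agent.R917.DT
  Pool.Agent.R917.EC Pool.Agent.H621.BC Pool.Agent.R917.OM Pool.Agent.Y102.AbVar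

open Pool.Agent.H621.RM (NS NS_br NS_mapF NS_rm)

variable {κ : Type} [Fintype κ] [DecidableEq κ] {a r K h : ℕ} {R : Type} [Fintype R]
  [DecidableEq R] {ς : Type} [Fintype ς] [DecidableEq ς]

/-- the values on the basis -/
def vl (Φ : MultilinearMap ℚ (fun _ : κ => (Fin a → ℚ)) (R → ℚ)) (I : κ → Fin a)
    (i : R) : ℚ := Φ (fun l => Pi.single (I l) 1) i

/-- the complexification -/
def cxM (Φ : MultilinearMap ℚ (fun _ : κ => (Fin a → ℚ)) (R → ℚ)) : MM κ a R :=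
  ∑ I : κ → Fin a, ((MultilinearMap.mkPiAlgebra ℂ κ ℂ).compLinearMap
    fun l => (LinearMap.proj (I l) : (Fin a → ℂ) →ₗ[ℂ] ℂ)).smulRight
      (fun i => ((vl Φ I i : ℚ) : ℂ))

theorem cxM_basis (Φ : MultilinearMap ℚ (fun _ : κ => (Fin a → ℚ)) (R → ℚ)) (J : κ → Fin a)
    (i : R) : cxM Φ (fun l => Pi.single (J l) 1) i = ((vl Φ J i : ℚ) : ℂ) := by
  unfold cxM
  rw [_root_.sum_apply, Finset.sum_apply, Finset.sum_eq_single J]
  · rw [MultilinearMap.smulRight_apply, MultilinearMap.compLinearMap_apply,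
      MultilinearMap.mkPiAlgebra_apply, Pi.smul_apply, smul_eq_mul, Finset.prod_eq_one, one_mul]
    intro l _
    rw [LinearMap.proj_apply, Pi.single_eq_same]
  · intro I _ hI
    obtain ⟨l, hl⟩ := Function.ne_iff.1 hI
    rw [MultilinearMap.smulRight_apply, MultilinearMap.compLinearMap_apply,
      MultilinearMap.mkPiAlgebra_apply, Pi.smul_apply, smul_eq_mul,
      Finset.prod_eq_zero (Finset.mem_univ l), zero_mul]
    rw [LinearMap.proj_apply, Pi.single_eq_of_ne hl]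
  · intro hh
    exact absurd (Finset.mem_univ _) hh

theorem update_single (J : κ → Fin a) (l : κ) (m : Fin a) :
    Function.update (fun l => (Pi.single (J l) 1 : Fin a → ℂ)) l (Pi.single m 1) =
      fun l' => Pi.single (Function.update J l m l') 1 := by
  funext l'
  by_cases hl : l' = l
  · subst hl
    rw [Function.update_self, Function.update_self]
  · rw [Function.update_of_ne hl, Function.update_of_ne hl]

theorem slot_basis (Φ : MultilinearMap ℚ (fun _ : κ => (Fin a → ℚ)) (R → ℚ))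
    (y : Matrix (Fin a) (Fin a) ℂ) (l : κ) (J : κ → Fin a) (i : R) :
    slotM (R → ℂ) (tv y) l (cxM Φ) (fun l => Pi.single (J l) 1) i =
      ∑ m, y (J l) m * ((vl Φ (Function.update J l m) i : ℚ) : ℂ) := by
  rw [slotM_apply, tv_apply, Matrix.single_one_vecMul]
  have h1 : y.row (J l) = ∑ m, y (J l) m • (Pi.single m 1 : Fin a → ℂ) := by
    funext j
    rw [Finset.sum_apply, Finset.sum_eq_single j]
    · rw [Pi.smul_apply, Pi.single_eq_same, smul_eq_mul, mul_one]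
      rfl
    · intro m _ hm
      rw [Pi.smul_apply, Pi.single_eq_of_ne (Ne.symm hm), smul_zero]
    · intro hh
      exact absurd (Finset.mem_univ _) hh
  rw [h1, MultilinearMap.map_update_sum, Finset.sum_apply]
  refine Finset.sum_congr rfl fun m _ => ?_
  rw [MultilinearMap.map_update_smul, Pi.smul_apply, smul_eq_mul, update_single, cxM_basis]

/-- The condition on a triple. -/
def Cn (k : ℤ) (Φ : MultilinearMap ℚ (fun _ : κ => (Fin a → ℚ)) (R → ℚ))
    (x : Matrix R R ℂ) (t : ℂ) (y : Matrix (Fin a) (Fin a) ℂ) : Prop :=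
  ∀ (I : κ → Fin a) (i : R),
    ∑ j, ((vl Φ I j : ℚ) : ℂ) * x j i + ((k : ℂ) * t) * ((vl Φ I i : ℚ) : ℂ) =
      ∑ l, ∑ m, y (I l) m * ((vl Φ (Function.update I l m) i : ℚ) : ℂ)

theorem rho_basis (k : ℤ) (Φ : MultilinearMap ℚ (fun _ : κ => (Fin a → ℚ)) (R → ℚ))
    (x : Matrix R R ℂ) (t : ℂ) (y : Matrix (Fin a) (Fin a) ℂ) (I : κ → Fin a) (i : R) :
    rho k x t y (cxM Φ) (fun l => Pi.single (I l) 1) i =
      ∑ j, ((vl Φ I j : ℚ) : ℂ) * x j i + ((k : ℂ) * t) * ((vl Φ I i : ℚ) : ℂ) -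
        ∑ l, ∑ m, y (I l) m * ((vl Φ (Function.update I l m) i : ℚ) : ℂ) := by
  have h1 : rho k x t y (cxM Φ) (fun l => Pi.single (I l) 1) i =
      (cxM Φ (fun l => Pi.single (I l) 1) ᵥ* x) i + ((k : ℂ) * t) *
        cxM Φ (fun l => Pi.single (I l) 1) i -
          ∑ l, slotM (R → ℂ) (tv y) l (cxM Φ) (fun l => Pi.single (I l) 1) i := by
    have e1 : (∑ l, slotM (R → ℂ) (tv y) l : Module.End ℂ (MM κ a R)) (cxM Φ)
        (fun l => Pi.single (I l) 1) i =
          ∑ l, slotM (R → ℂ) (tv y) l (cxM Φ) (fun l => Pi.single (I l) 1) i := by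
      rw [LinearMap.sum_apply, _root_.sum_apply, Finset.sum_apply]
    rw [← e1, ← tv_apply]
    rfl
  rw [h1, cxM_basis]
  simp only [slot_basis]
  congr 2
  change ∑ j, cxM Φ (fun l => Pi.single (I l) 1) j * x j i = _
  exact Finset.sum_congr rfl fun j _ => by rw [cxM_basis]

theorem Cn_iff (k : ℤ) (Φ : MultilinearMap ℚ (fun _ : κ => (Fin a → ℚ)) (R → ℚ))
    (x : Matrix R R ℂ) (t : ℂ) (y : Matrix (Fin a) (Fin a) ℂ) :
    Cn k Φ x t y ↔ rho k x t y (cxM Φ) = 0 := by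
  constructor
  · intro hz
    refine Module.Basis.ext_multilinear (fun _ => Pi.basisFun ℂ (Fin a)) fun I => ?_
    funext i
    have h1 := rho_basis k Φ x t y I i
    rw [hz I i, sub_self] at h1
    simp only [Pi.basisFun_apply]
    exact h1
  · intro hz I i
    have h1 := rho_basis k Φ x t y I i
    rw [hz] at h1
    exact (sub_eq_zero.1 h1.symm)

theorem Cn.add {k : ℤ} {Φ : MultilinearMap ℚ (fun _ : κ => (Fin a → ℚ)) (R → ℚ)}
    {x x' : Matrix R R ℂ} {t t' : ℂ} {y y' : Matrix (Fin a) (Fin a) ℂ} (h1 : Cn k Φ x t y)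
    (h2 : Cn k Φ x' t' y') : Cn k Φ (x + x') (t + t') (y + y') := by
  intro I i
  simp only [Matrix.add_apply, mul_add, add_mul, Finset.sum_add_distrib]
  rw [← h1 I i, ← h2 I i]
  ring

theorem Cn.smul {k : ℤ} {Φ : MultilinearMap ℚ (fun _ : κ => (Fin a → ℚ)) (R → ℚ)}
    {x : Matrix R R ℂ} {t : ℂ} {y : Matrix (Fin a) (Fin a) ℂ} (c : ℂ) (h1 : Cn k Φ x t y) :
    Cn k Φ (c • x) (c • t) (c • y) := by
  intro I i
  have e1 : ∑ j, ((vl Φ I j : ℚ) : ℂ) * (c • x) j i +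
      ((k : ℂ) * (c • t)) * ((vl Φ I i : ℚ) : ℂ) =
        c * (∑ j, ((vl Φ I j : ℚ) : ℂ) * x j i +
          ((k : ℂ) * t) * ((vl Φ I i : ℚ) : ℂ)) := by
    rw [mul_add, Finset.mul_sum]
    refine congrArg₂ (· + ·) (Finset.sum_congr rfl fun j _ => ?_) ?_
    · rw [Matrix.smul_apply, smul_eq_mul]
      ring
    · rw [smul_eq_mul]
      ring
  rw [e1, h1 I i, Finset.mul_sum]
  refine Finset.sum_congr rfl fun l _ => ?_
  rw [Finset.mul_sum]
  refine Finset.sum_congr rfl fun m _ => ?_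
  rw [Matrix.smul_apply, smul_eq_mul]
  ring

theorem Cn_map {k : ℤ} {Φ : MultilinearMap ℚ (fun _ : κ => (Fin a → ℚ)) (R → ℚ)}
    {x : Matrix R R ℂ} {t : ℂ} {y : Matrix (Fin a) (Fin a) ℂ} (hz : Cn k Φ x t y)
    (f : ℂ →ₗ[QQ] ℂ) : Cn k Φ (x.map f) (f t) (y.map f) := by
  intro I i
  have h1 := congrArg f (hz I i)
  have h2 : ∀ (q : ℚ) (x : ℂ), f (x * (q : ℂ)) = f x * (q : ℂ) := fun q x => by
    rw [mul_comm, f_rat, mul_comm]
  have h3 : ∀ x : ℂ, f ((k : ℂ) * x) = (k : ℂ) * f x := fun x => by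
    have h4 := f_rat f (k : ℚ) x
    push_cast at h4
    exact h4
  simp only [map_add, map_sum, f_rat, h2, h3] at h1
  exact h1

/-- **The Lie algebra of triples of a multilinear map.** -/
def PF (A : AbVar h) (lev : Fin r → Fin K) (k : ℤ)
    (Φ : MultilinearMap ℚ (fun _ : κ => A.H1) ((ς → Fin r) → ℚ)) : Submodule ℂ (T3 r h) where
  carrier := {z | BT lev z.1.1 ∧ Cut A z ∧ Cn k Φ (ks ς z.1.1) z.1.2 z.2}
  zero_mem' := by
    refine ⟨fun i j _ => rfl, ?_, ?_⟩
    · unfold Cut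
      change (0 : Matrix (Fin (2 * h)) (Fin (2 * h)) ℂ) - ((0 : ℂ) / 2) • 1 ∈ NS A
      rw [zero_div, zero_smul, sub_zero]
      exact Submodule.zero_mem _
    · change Cn k Φ (ks ς (0 : Matrix (Fin r) (Fin r) ℂ)) 0 0
      rw [ks_zero]
      intro I i
      simp
  add_mem' := by
    rintro z w ⟨h1, h2, h3⟩ ⟨h4, h5, h6⟩
    refine ⟨fun i j hij => ?_, ?_, ?_⟩
    · change z.1.1 i j + w.1.1 i j = 0
      rw [h1 i j hij, h4 i j hij, add_zero]
    · have h7 := Submodule.add_mem _ h2 h5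
      unfold Cut
      convert h7 using 1
      change z.2 + w.2 - ((z.1.2 + w.1.2) / 2) • (1 : Matrix (Fin (2 * h)) (Fin (2 * h)) ℂ) = _
      rw [add_div]
      module
    · change Cn k Φ (ks ς (z.1.1 + w.1.1)) (z.1.2 + w.1.2) (z.2 + w.2)
      rw [ks_add]
      exact h3.add h6
  smul_mem' := by
    rintro a z ⟨h1, h2, h3⟩
    refine ⟨fun i j hij => ?_, ?_, ?_⟩
    · change a * z.1.1 i j = 0
      rw [h1 i j hij, mul_zero]
    · have h5 := Submodule.smul_mem _ a h2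
      unfold Cut
      convert h5 using 1
      change a • z.2 - ((a • z.1.2) / 2) • (1 : Matrix (Fin (2 * h)) (Fin (2 * h)) ℂ) = _
      rw [smul_eq_mul, mul_div_assoc]
      module
    · change Cn k Φ (ks ς (a • z.1.1)) (a • z.1.2) (a • z.2)
      rw [ks_smul]
      exact h3.smul a

variable {A : AbVar h} {lev : Fin r → Fin K} {k : ℤ}
  {Φ : MultilinearMap ℚ (fun _ : κ => A.H1) ((ς → Fin r) → ℚ)}

theorem PF_lq : LQ A lev (PF A lev k Φ) where
  bt := fun z hz => hz.1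
  br := by
    rintro z ⟨h1, h2, h3⟩ w ⟨h4, h5, h6⟩
    refine ⟨fun i j hij => ?_, Cut.br h2 h5, ?_⟩
    · change (z.1.1 * w.1.1 - w.1.1 * z.1.1) i j = 0
      rw [Matrix.sub_apply, (BT.mul h1 h4) i j hij, (BT.mul h4 h1) i j hij, sub_zero]
    · have e2 : (z * w - w * z).1.2 = 0 := by
        change z.1.2 * w.1.2 - w.1.2 * z.1.2 = 0
        ring
      rw [e2]
      change Cn k Φ (ks ς (z.1.1 * w.1.1 - w.1.1 * z.1.1)) 0 (z.2 * w.2 - w.2 * z.2)
      rw [Cn_iff] at h3 h6 ⊢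
      rw [ks_br, rho_br (t := z.1.2) (t' := w.1.2), LinearMap.sub_apply, Module.End.mul_apply,
        Module.End.mul_apply, h3, h6, map_zero, map_zero, sub_zero]
  comp := by
    rintro z ⟨h1, h2, h3⟩ f
    refine ⟨fun i j hij => ?_, Cut.map h2 f, ?_⟩
    · change f (z.1.1 i j) = 0
      rw [h1 i j hij, map_zero]
    · have h4 := Cn_map h3 f
      rw [ks_map] at h4
      exact h4
  rq := by
    rintro z ⟨h1, h2, h3⟩ s N h0 σ Q hQ
    refine ⟨?_, Cut.aeval h2 h0 σ hQ, ?_⟩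
    · rw [aeval_T3]
      exact Pool.Agent.H621.RK.BT_aeval h1 Q
    · rw [Cn_iff] at h3 ⊢
      exact rho_rep h0 σ hQ h3
  cut := fun z hz => hz.2.1

end Pool.Agent.H621.CY
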