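import Pool.Agent.H621.CY.Cyc

set_option autoImplicit false
set_option linter.unusedSectionVars false

/-!
# The derivations
-/

open Module TensorProduct Matrix Polynomial

noncomputable section

namespace Pool.Agent.H621.CY

open Pool.Agent.Y102 Pool.Agent.W516.DR Pool.Agent.H204R3.GP Pool.Agent.W516.KC
  Pool.Agent.H204R3.SP Pool.Agent.TH119.MX Pool.Agent.R917 Pool.Agent.R917.DT
  Pool.Agent.R917.EC Pool.Agent.H621.BC Pool.Agent.R917.OM Pool.Agent.Y102.AbVar

open Pool.Agent.H621.RM (NS NS_br NS_mapF NS_rm)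

variable {κ : Type} [Fintype κ] [DecidableEq κ] {a r K h : ℕ} {R : Type} [Fintype R]
  [DecidableEq R] {ς : Type} [Fintype ς] [DecidableEq ς]

/-- The class of the multilinear map is defined over the algebraic numbers, after a Tate twist. -/
def GrC (C : Matrix R R ℂ) (A : AbVar h) (k : ℤ)
    (Φ : MultilinearMap ℚ (fun _ : κ => A.H1) (R → ℚ)) : Prop :=
  ∃ e : (κ → Fin h ⊕ Fin h) → R → QBar, ∀ (w : κ → A.H1) (i : R),
    tau ^ k * ∑ j, ((Φ w j : ℚ) : ℂ) * C j i =
      ∑ J, algebraMap QBar ℂ (e J i) * ∏ l, A.dR (J l) (w l)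

section gen

variable {A : AbVar h} {k : ℤ}
  {Φ : MultilinearMap ℚ (fun _ : κ => A.H1) (R → ℚ)} {C C' : Matrix R R ℂ}

theorem dR_der {P' : Matrix (Fin (2 * h)) (Fin (2 * h)) ℂ} (h2 : P' * PM A = 1)
    (D : Derivation QBar ℂ ℂ) (j : Fin (2 * h)) (J : Fin h ⊕ Fin h) :
    D (A.dR J (Pi.single j 1)) = ∑ m, ((PM A).map D * P') j m * A.dR J (Pi.single m 1) := by
  have h1 : (PM A).map D * P' * PM A = (PM A).map D := by
    rw [Matrix.mul_assoc, h2, Matrix.mul_one]
  have h3 := congrFun (congrFun h1 j) (eqv h J)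
  rw [Matrix.mul_apply, Matrix.map_apply, PM_apply] at h3
  rw [← h3]
  exact Finset.sum_congr rfl fun m _ => by rw [PM_apply]

theorem update_single' (J : κ → Fin a) (l : κ) (m : Fin a) :
    Function.update (fun l => (Pi.single (J l) 1 : Fin a → ℚ)) l (Pi.single m 1) =
      fun l' => Pi.single (Function.update J l m l') 1 := by
  funext l'
  by_cases hl : l' = l
  · subst hl
    rw [Function.update_self, Function.update_self]
  · rw [Function.update_of_ne hl, Function.update_of_ne hl]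

/-- the vector of the values -/
def vv (Φ : MultilinearMap ℚ (fun _ : κ => (Fin a → ℚ)) (R → ℚ)) (I : κ → Fin a) :
    R → ℂ := fun j => ((vl Φ I j : ℚ) : ℂ)

theorem vv_der (hΦ : GrC C A k Φ) {P' : Matrix (Fin (2 * h)) (Fin (2 * h)) ℂ}
    (h2 : P' * PM A = 1) (D : Derivation QBar ℂ ℂ) (I : κ → Fin (2 * h)) :
    ((k : ℂ) * (D tau / tau)) • (vv Φ I ᵥ* C) + vv Φ I ᵥ* C.map D =
      ∑ l, ∑ m, ((PM A).map D * P') (I l) m • (vv Φ (Function.update I l m) ᵥ* C) := by
  obtain ⟨e, he⟩ := hΦ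
  have ht : (tau : ℂ) ≠ 0 := AbVar.tau_ne
  have htk : (tau : ℂ) ^ k ≠ 0 := zpow_ne_zero k ht
  have hF : ∀ (I : κ → Fin (2 * h)) (i : R), tau ^ k * (vv Φ I ᵥ* C) i =
      ∑ J, algebraMap QBar ℂ (e J i) * ∏ l, A.dR (J l) (Pi.single (I l) 1) := fun I i =>
    he (fun l => Pi.single (I l) 1) i
  funext i
  apply mul_left_cancel₀ htk
  -- the derivative of the left side
  have h3 := congrArg D (hF I i)
  have h4 : D (tau ^ k * (vv Φ I ᵥ* C) i) = tau ^ k *
      ((((k : ℂ) * (D tau / tau)) • (vv Φ I ᵥ* C) + vv Φ I ᵥ* C.map D) i) := by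
    have h5 : D ((vv Φ I ᵥ* C) i) = (vv Φ I ᵥ* C.map D) i := by
      change D (∑ j, vv Φ I j * C j i) = ∑ j, vv Φ I j * D (C j i)
      rw [map_sum]
      refine Finset.sum_congr rfl fun j _ => ?_
      have h6 : vv Φ I j = algebraMap QBar ℂ (algebraMap ℚ QBar (vl Φ I j)) := by
        rw [← IsScalarTower.algebraMap_apply]
        rfl
      rw [h6, Derivation.leibniz, Derivation.map_algebraMap, smul_zero, add_zero, smul_eq_mul]
    rw [Derivation.leibniz, Derivation.leibniz_zpow, h5, Pi.add_apply, Pi.smul_apply]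
    simp only [smul_eq_mul, zsmul_eq_mul]
    have h6 : (tau : ℂ) ^ (k - 1) = tau ^ k / tau := by rw [zpow_sub₀ ht, zpow_one]
    rw [h6]
    field_simp
    ring
  -- the derivative of the right side
  have h5 : D (∑ J, algebraMap QBar ℂ (e J i) * ∏ l, A.dR (J l) (Pi.single (I l) 1)) =
      ∑ l, ∑ m, ((PM A).map D * P') (I l) m *
        (tau ^ k * (vv Φ (Function.update I l m) ᵥ* C) i) := by
    have h6 : ∀ J : κ → Fin h ⊕ Fin h, D (algebraMap QBar ℂ (e J i) *
        ∏ l, A.dR (J l) (Pi.single (I l) 1)) = ∑ l, ∑ m, ((PM A).map D * P') (I l) m *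
          (algebraMap QBar ℂ (e J i) *
            ∏ l', A.dR (J l') (Pi.single (Function.update I l m l') 1)) := by
      intro J
      rw [Derivation.leibniz, Derivation.map_algebraMap, smul_zero, add_zero, smul_eq_mul,
        der_prod, Finset.mul_sum]
      refine Finset.sum_congr rfl fun l _ => ?_
      rw [dR_der h2, Finset.sum_mul, Finset.mul_sum]
      refine Finset.sum_congr rfl fun m _ => ?_
      rw [← Finset.mul_prod_erase Finset.univ (fun l' => A.dR (J l')
        (Pi.single (Function.update I l m l') 1)) (Finset.mem_univ l), Function.update_self]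
      have h7 : ∏ x ∈ Finset.univ.erase l, A.dR (J x) (Pi.single (Function.update I l m x) 1) =
          ∏ x ∈ Finset.univ.erase l, A.dR (J x) (Pi.single (I x) 1) :=
        Finset.prod_congr rfl fun x hx => by
          rw [Function.update_of_ne (Finset.ne_of_mem_erase hx)]
      rw [h7]
      ring
    rw [map_sum, Finset.sum_congr rfl fun J _ => h6 J, Finset.sum_comm]
    refine Finset.sum_congr rfl fun l _ => ?_
    rw [Finset.sum_comm]
    refine Finset.sum_congr rfl fun m _ => ?_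
    rw [hF, Finset.mul_sum]
  rw [← h4, h3, h5, Finset.sum_apply, Finset.mul_sum]
  refine Finset.sum_congr rfl fun l _ => ?_
  rw [Finset.sum_apply, Finset.mul_sum]
  refine Finset.sum_congr rfl fun m _ => ?_
  rw [Pi.smul_apply, smul_eq_mul]
  ring

/-- **The logarithmic derivatives.** -/
theorem Cn_der (hC : C * C' = 1) (hΦ : GrC C A k Φ) {P' : Matrix (Fin (2 * h)) (Fin (2 * h)) ℂ}
    (h2 : P' * PM A = 1) (D : Derivation QBar ℂ ℂ) :
    Cn k Φ (C.map D * C') (D tau / tau) ((PM A).map D * P') := by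
  intro I i
  have h3 := congrArg (fun v : R → ℂ => v ᵥ* C') (vv_der hΦ h2 D I)
  simp only [Matrix.add_vecMul, Matrix.smul_vecMul, Matrix.vecMul_vecMul, hC, Matrix.vecMul_one,
    Matrix.sum_vecMul] at h3
  have h4 := congrFun h3 i
  rw [Pi.add_apply, Pi.smul_apply, Finset.sum_apply, smul_eq_mul] at h4
  have h5 : (∑ l, ∑ m, ((PM A).map D * P') (I l) m * vv Φ (Function.update I l m) i) =
      ∑ l, (∑ m, ((PM A).map D * P') (I l) m • vv Φ (Function.update I l m)) i := by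
    refine Finset.sum_congr rfl fun l _ => ?_
    rw [Finset.sum_apply]
    rfl
  change (∑ j, vv Φ I j * (C.map D * C') j i) + ((k : ℂ) * (D tau / tau)) * vv Φ I i =
    ∑ l, ∑ m, ((PM A).map D * P') (I l) m * vv Φ (Function.update I l m) i
  rw [h5, ← h4, add_comm]
  rfl

end gen

theorem lamF_lamF {lam1 : ℂ →ₗ[ℚ] ℚ} (h1 : lam1 1 = 1) (lam : ℂ →ₗ[ℚ] ℚ) (x : ℂ) :
    lamF lam1 (lamF lam x) = lamF lam x := by
  rw [lamF_apply, lamF_apply, lam_rat h1]

theorem Cut_of_comp {A : AbVar h} {z : T3 r h} (hz : ∀ lam : ℂ →ₗ[ℚ] ℚ,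
    Cut A (((z.1.1.map (lamF lam), lamF lam z.1.2), z.2.map (lamF lam)) : T3 r h)) : Cut A z := by
  unfold Cut
  rw [RM.mem_NS_iff]
  intro lam
  obtain ⟨lam1, h1⟩ := exists_lam1
  obtain ⟨Y, hY, h2⟩ := RM.mem_NS_iff.1 (hz lam) lam1
  refine ⟨Y, hY, ?_⟩
  rw [h2]
  ext i j
  rw [Matrix.map_apply, Matrix.map_apply]
  change lamF lam1 (lamF lam (z.2 i j) - ((lamF lam z.1.2 / 2) •
    (1 : Matrix (Fin (2 * h)) (Fin (2 * h)) ℂ)) i j) = lamF lam (z.2 i j - ((z.1.2 / 2) •
      (1 : Matrix (Fin (2 * h)) (Fin (2 * h)) ℂ)) i j)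
  have h3 : lamF lam (z.2 i j) - ((lamF lam z.1.2 / 2) •
      (1 : Matrix (Fin (2 * h)) (Fin (2 * h)) ℂ)) i j = lamF lam (z.2 i j - ((z.1.2 / 2) •
        (1 : Matrix (Fin (2 * h)) (Fin (2 * h)) ℂ)) i j) := by
    rw [map_sub]
    congr 1
    rw [Matrix.smul_apply, Matrix.smul_apply, Matrix.one_apply]
    split_ifs
    · rw [smul_eq_mul, smul_eq_mul, mul_one, mul_one]
      have h4 := f_rat (lamF lam) (1 / 2) z.1.2
      have h5 : (((1 / 2 : ℚ) : ℚ) : ℂ) = 1 / 2 := by norm_num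
      rw [h5] at h4
      rw [div_eq_mul_one_div, mul_comm, ← h4]
      congr 1
      ring
    · rw [smul_zero, smul_zero, map_zero]
  rw [h3, lamF_lamF h1]

variable {A : AbVar h} {lev : Fin r → Fin K} {k : ℤ}
  {Φ : MultilinearMap ℚ (fun _ : κ => A.H1) ((ς → Fin r) → ℚ)} {C C' : Matrix (Fin r) (Fin r) ℂ}

theorem Cut_z0 {P' : Matrix (Fin (2 * h)) (Fin (2 * h)) ℂ} (h2 : P' * PM A = 1)
    (D : Derivation QBar ℂ ℂ) (x : Matrix (Fin r) (Fin r) ℂ) :
    Cut A (((x, D tau / tau), (PM A).map D * P') : T3 r h) := by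
  refine Cut_of_comp fun lam => ?_
  have h3 := Cut_der (B := A) D lam (x.map (lamF lam))
  convert h3 using 1
  refine Prod.ext rfl ?_
  change ((PM A).map D * P').map (lamF lam) = rm (Pool.Agent.W516.DR.cmpE lam (XX A.basis D))
  rw [← toC_cmpE A D h2 lam]
  rfl

theorem PF_z0 (hC : C * C' = 1) (hB : BT lev C) (hB' : BT lev C') (hΦ : GrC (kp ς C) A k Φ)
    {P' : Matrix (Fin (2 * h)) (Fin (2 * h)) ℂ} (h2 : P' * PM A = 1) (D : Derivation QBar ℂ ℂ) :
    (((C.map D * C', D tau / tau), (PM A).map D * P') : T3 r h) ∈ PF A lev k Φ := by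
  refine ⟨?_, Cut_z0 h2 D _, ?_⟩
  · have h1 : BT lev (C.map D) := fun i j hij => by
      rw [Matrix.map_apply, hB i j hij, map_zero]
    exact h1.mul hB'
  · have h3 := Cn_der (C' := kp ς C') (by rw [kp_mul, hC, kp_one]) hΦ h2 D
    rw [kp_der' D hC] at h3
    exact h3

theorem PF_ptq (hC : C * C' = 1) (hB : BT lev C) (hB' : BT lev C') (hΦ : GrC (kp ς C) A k Φ) :
    PtQ A C C' lev (PF A lev k Φ) where
  lq := PF_lq
  der := fun D lam => by
    obtain ⟨P', h1, h2⟩ := exists_inv A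
    have h3 := PF_lq.comp _ (PF_z0 hC hB hB' hΦ h2 D) (lamF lam)
    convert h3 using 1
    refine Prod.ext rfl ?_
    change rm (Pool.Agent.W516.DR.cmpE lam (XX A.basis D)) = ((PM A).map D * P').map (lamF lam)
    rw [← toC_cmpE A D h2 lam]
    rfl

end Pool.Agent.H621.CY
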