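import Pool.Agent.H621.CY.Jnt

set_option autoImplicit false
set_option linter.unusedSectionVars false

/-!
# Products of elliptic curves with the product polarization
-/

open Module

noncomputable section

namespace Pool.Agent.H621.CY

open Pool.Agent.Y102

variable {g h : ℕ} (A : AbVar g) (B : AbVar h)

theorem om_prd (u v : (prd A B).H1) : (prd A B).om u v =
    A.om (q1 A B u) (q1 A B v) + B.om (q2 A B u) (q2 A B v) := by
  have h1 := AbVar.rf_eq (A := prd A B) u v
  have h2 := rf_prod A B ((prd A B).per u) ((prd A B).per v)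
  have h3 : riemannForm (prd A B).lam (prd A B).η ((prd A B).per u) ((prd A B).per v) =
    riemannForm (lamP A B) (etaP A B) ((prd A B).per u) ((prd A B).per v) := rfl
  rw [h3, h2, per_prd, per_prd, p1_eT, p1_eT, p2_eT, p2_eT, AbVar.rf_eq, AbVar.rf_eq] at h1
  have h4 : (((prd A B).om u v : ℚ) : ℂ) = ((A.om (q1 A B u) (q1 A B v) +
    B.om (q2 A B u) (q2 A B v) : ℚ) : ℂ) := by
    rw [← h1]
    push_cast
    rfl
  exact_mod_cast h4

theorem exists_PwO {n : ℕ} : ∀ E : Fin n → AbVar 1, ∃ W : Pw E, ∀ i j, i ≠ j → ∀ u v,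
    W.B.om (W.f i u) (W.f j v) = 0 := by
  induction n with
  | zero =>
    intro E
    refine ⟨⟨zav, fun i => i.elim0, fun i => i.elim0, fun i => i.elim0, fun i => i.elim0,
      fun i => i.elim0, fun i => i.elim0, ?_⟩, fun i => i.elim0⟩
    refine LinearMap.ext fun w => ?_
    funext j
    exact Fin.elim0 j
  | succ n ih =>
    intro E
    obtain ⟨P, hP⟩ := ih fun i => E i.castSucc
    let L := E (Fin.last n)
    let f : Fin (n + 1) → ((Fin (2 * 1) → ℚ) →ₗ[ℚ] (Fin (2 * (n + 1)) → ℚ)) :=
      Fin.snoc (α := fun _ => (Fin (2 * 1) → ℚ) →ₗ[ℚ] (Fin (2 * (n + 1)) → ℚ))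
        (fun i => i1 P.B L ∘ₗ P.f i) (i2 P.B L)
    let p : Fin (n + 1) → ((Fin (2 * (n + 1)) → ℚ) →ₗ[ℚ] (Fin (2 * 1) → ℚ)) :=
      Fin.snoc (α := fun _ => (Fin (2 * (n + 1)) → ℚ) →ₗ[ℚ] (Fin (2 * 1) → ℚ))
        (fun i => P.p i ∘ₗ q1 P.B L) (q2 P.B L)
    have f1 : ∀ i : Fin n, f i.castSucc = i1 P.B L ∘ₗ P.f i := fun i => Fin.snoc_castSucc ..
    have f2 : f (Fin.last n) = i2 P.B L := Fin.snoc_last ..
    have pp1 : ∀ i : Fin n, p i.castSucc = P.p i ∘ₗ q1 P.B L := fun i => Fin.snoc_castSucc ..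
    have pp2 : p (Fin.last n) = q2 P.B L := Fin.snoc_last ..
    have e11 : ∀ w, q1 P.B L (i1 P.B L w) = w := fun w => DFunLike.congr_fun (q1_i1 P.B L) w
    have e12 : ∀ w, q1 P.B L (i2 P.B L w) = 0 := fun w => DFunLike.congr_fun (q1_i2 P.B L) w
    have e21 : ∀ w, q2 P.B L (i1 P.B L w) = 0 := fun w => DFunLike.congr_fun (q2_i1 P.B L) w
    have e22 : ∀ w, q2 P.B L (i2 P.B L w) = w := fun w => DFunLike.congr_fun (q2_i2 P.B L) w
    refine ⟨⟨prd P.B L, f, p, fun i => ?_, fun i => ?_, fun i => ?_, fun i j hij => ?_, ?_⟩,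
      fun i j hij u v => ?_⟩
    · refine Fin.lastCases ?_ (fun i => ?_) i
      · rw [f2]
        exact hom_i2 _ _
      · rw [f1]
        exact isHom_comp (hom_i1 _ _) (P.hf i)
    · refine Fin.lastCases ?_ (fun i => ?_) i
      · rw [pp2]
        exact hom_q2 _ _
      · rw [pp1]
        exact isHom_comp (P.hp i) (hom_q1 _ _)
    · refine Fin.lastCases ?_ (fun i => ?_) i
      · rw [pp2, f2]
        exact q2_i2 _ _
      · rw [pp1, f1]
        refine LinearMap.ext fun w => ?_
        change P.p i (q1 P.B L (i1 P.B L (P.f i w))) = w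
        rw [e11]
        exact DFunLike.congr_fun (P.pf i) w
    · revert hij
      refine Fin.lastCases ?_ (fun i => ?_) i <;> refine Fin.lastCases ?_ (fun j => ?_) j
      · intro h
        exact absurd rfl h
      · intro _
        rw [pp2, f1]
        refine LinearMap.ext fun w => ?_
        exact e21 _
      · intro _
        rw [pp1, f2]
        refine LinearMap.ext fun w => ?_
        change P.p i (q1 P.B L (i2 P.B L w)) = 0
        rw [e12, map_zero]
      · intro h
        rw [pp1, f1]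
        refine LinearMap.ext fun w => ?_
        change P.p i (q1 P.B L (i1 P.B L (P.f j w))) = 0
        rw [e11]
        exact DFunLike.congr_fun (P.pf0 i j fun h' => h (by rw [h'])) w
    · rw [Fin.sum_univ_castSucc, f2, pp2]
      have h1 : ∑ i : Fin n, f i.castSucc ∘ₗ p i.castSucc = i1 P.B L ∘ₗ q1 P.B L := by
        have h2 : ∀ i : Fin n, f i.castSucc ∘ₗ p i.castSucc =
            i1 P.B L ∘ₗ (P.f i ∘ₗ P.p i) ∘ₗ q1 P.B L := fun i => by rw [f1, pp1]; rfl
        simp only [h2]
        refine LinearMap.ext fun w => ?_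
        rw [LinearMap.sum_apply]
        change ∑ i, i1 P.B L ((P.f i ∘ₗ P.p i) (q1 P.B L w)) = i1 P.B L (q1 P.B L w)
        rw [← map_sum, ← LinearMap.sum_apply, P.sum]
        rfl
      rw [h1]
      exact iq_sum _ _
    · change (prd P.B L).om (f i u) (f j v) = 0
      rw [om_prd]
      revert hij
      refine Fin.lastCases ?_ (fun i => ?_) i <;> refine Fin.lastCases ?_ (fun j => ?_) j
      · intro h
        exact absurd rfl h
      · intro _
        rw [f2, f1]
        change P.B.om (q1 P.B L (i2 P.B L u)) _ + L.om _ (q2 P.B L (i1 P.B L (P.f j v))) = 0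
        rw [e12, e21, map_zero, map_zero, LinearMap.zero_apply, add_zero]
      · intro _
        rw [f2, f1]
        change P.B.om _ (q1 P.B L (i2 P.B L v)) + L.om (q2 P.B L (i1 P.B L (P.f i u))) _ = 0
        rw [e12, e21, map_zero, map_zero, LinearMap.zero_apply, add_zero]
      · intro h
        rw [f1, f1]
        change P.B.om (q1 P.B L (i1 P.B L (P.f i u))) (q1 P.B L (i1 P.B L (P.f j v))) +
          L.om (q2 P.B L (i1 P.B L (P.f i u))) _ = 0
        rw [e11, e11, e21, hP i j (fun h' => h (by rw [h'])), map_zero, LinearMap.zero_apply,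
          add_zero]

/-- The projectors are symmetric. -/
theorem Pw.P_sym {n : ℕ} {E : Fin n → AbVar 1} (W : Pw E)
    (ho : ∀ i j, i ≠ j → ∀ u v, W.B.om (W.f i u) (W.f j v) = 0) (k : Fin n) (u v : W.B.H1) :
    W.B.om (W.P k u) v = W.B.om u (W.P k v) := by
  have key : ∀ u v, W.B.om (W.P k u) v = W.B.om (W.P k u) (W.P k v) := by
    intro u v
    have h1 : v = ∑ j, W.P j v := by
      have h2 := congrArg (fun T : Module.End ℚ W.B.H1 => T v) W.P_sum
      rw [LinearMap.sum_apply] at h2
      exact h2.symm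
    conv_lhs => rw [h1]
    rw [map_sum, Finset.sum_eq_single k]
    · intro j _ hj
      exact ho k j (Ne.symm hj) _ _
    · intro h2
      exact absurd (Finset.mem_univ _) h2
  rw [key u v, W.B.om_anti u (W.P k v), key v u, W.B.om_anti (W.P k v) (W.P k u), neg_neg]

end Pool.Agent.H621.CY
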