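import Pool.Agent.H621.CY.Cyc2
import Pool.Agent.H621.CY.Cen
import Pool.Agent.H621.CY.Orth

set_option autoImplicit false
set_option linter.unusedSectionVars false

/-!
# The classes on products
-/

open Module TensorProduct Matrix Polynomial

noncomputable section

namespace Pool.Agent.H621.CY

open Pool.Agent.Y102 Pool.Agent.W516.DR Pool.Agent.H204R3.GP Pool.Agent.W516.KC
  Pool.Agent.H204R3.SP Pool.Agent.TH119.MX Pool.Agent.R917 Pool.Agent.R917.DT
  Pool.Agent.R917.EC Pool.Agent.H621.BC Pool.Agent.R917.OM Pool.Agent.Y102.AbVar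

open Pool.Agent.H621.RM (NS NS_br NS_mapF NS_rm)

variable {κ : Type} [Fintype κ] [DecidableEq κ] {a r K h : ℕ} {R : Type} [Fintype R]
  [DecidableEq R] {ς : Type} [Fintype ς] [DecidableEq ς]

/-- a coordinate -/
def co (Φ : MultilinearMap ℚ (fun _ : κ => (Fin a → ℚ)) (R → ℚ)) (i : R) :
    MultilinearMap ℚ (fun _ : κ => (Fin a → ℚ)) ℚ :=
  (LinearMap.proj i : (R → ℚ) →ₗ[ℚ] ℚ).compMultilinearMap Φ

theorem co_apply (Φ : MultilinearMap ℚ (fun _ : κ => (Fin a → ℚ)) (R → ℚ)) (i : R)
    (w : κ → (Fin a → ℚ)) : co Φ i w = Φ w i := rfl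

variable {A : AbVar h} {k : ℤ} {Φ : MultilinearMap ℚ (fun _ : κ => A.H1) (R → ℚ)}
  {C C' : Matrix R R ℂ}

theorem kills_co {Y : Module.End ℚ A.H1} (hY : Cn k Φ 0 0 (rm Y)) (i : R) :
    Kills Y (co Φ i) := by
  refine kills_of_basis (Pi.basisFun ℚ (Fin (2 * h))) _ _ fun I => ?_
  have h1 := hY I i
  change ∑ j, ((vl Φ I j : ℚ) : ℂ) * (0 : ℂ) + ((k : ℂ) * 0) * _ =
    ∑ l, ∑ m, rm Y (I l) m * ((vl Φ (Function.update I l m) i : ℚ) : ℂ) at h1
  simp only [mul_zero, zero_mul, Finset.sum_const_zero, add_zero] at h1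
  have h2 : ∀ l, co Φ i (Function.update (fun l => (Pi.single (I l) 1 : Fin (2 * h) → ℚ)) l
      (Y (Pi.single (I l) 1))) = ∑ m, Y (Pi.single (I l) 1) m * vl Φ (Function.update I l m) i := by
    intro l
    have h3 : Y (Pi.single (I l) 1) = ∑ m, Y (Pi.single (I l) 1) m •
        (Pi.single m 1 : Fin (2 * h) → ℚ) := by
      funext j
      rw [Finset.sum_apply, Finset.sum_eq_single j]
      · rw [Pi.smul_apply, Pi.single_eq_same, smul_eq_mul, mul_one]
      · intro m _ hm
        rw [Pi.smul_apply, Pi.single_eq_of_ne (Ne.symm hm), smul_zero]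
      · intro hh
        exact absurd (Finset.mem_univ _) hh
    conv_lhs => rw [h3]
    rw [MultilinearMap.map_update_sum]
    refine Finset.sum_congr rfl fun m _ => ?_
    rw [MultilinearMap.map_update_smul, smul_eq_mul, update_single']
    rfl
  simp only [Pi.basisFun_apply]
  rw [Finset.sum_congr rfl fun l _ => h2 l]
  have h4 : (((∑ l, ∑ m, Y (Pi.single (I l) 1) m * vl Φ (Function.update I l m) i : ℚ)) : ℂ) = 0 := by
    push_cast
    exact h1.symm
  exact_mod_cast h4

/-! ### An odd number of variables -/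

theorem odd_alg {V W : Type*} [AddCommGroup V] [Module ℂ V] [AddCommGroup W] [Module ℂ W]
    {T : Module.End ℂ V} (hT : T * T = -1) (J : Finset κ) : ∃ L : ℕ,
    aeval (∑ l ∈ J, slotM W T l) (Lagrange.nodal ((Finset.range (J.card + 1)).image
      fun j : ℕ => (((J.card : ℂ) - 2 * j) * Complex.I)) id ^ L) = 0 := by
  classical
  induction J using Finset.induction_on with
  | empty =>
    refine ⟨1, ?_⟩
    have e1 : ((Finset.range ((∅ : Finset κ).card + 1)).image
        fun j : ℕ => ((((∅ : Finset κ).card : ℂ) - 2 * j) * Complex.I)) = {0} := by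
      ext x
      simp
    have e2 : Lagrange.nodal ({0} : Finset ℂ) (id : ℂ → ℂ) = X := by
      unfold Lagrange.nodal
      rw [Finset.prod_singleton, id, C_0, sub_zero]
    rw [e1, e2, pow_one, aeval_X, Finset.sum_empty]
  | insert i J hi ih =>
    obtain ⟨L, hL⟩ := ih
    refine ⟨1 + L, ?_⟩
    rw [Finset.sum_insert hi]
    have h1 : aeval (slotM W T i) (Lagrange.nodal ({Complex.I, -Complex.I} : Finset ℂ) id ^ 1) = 0 := by
      have e3 : Lagrange.nodal ({Complex.I, -Complex.I} : Finset ℂ) (id : ℂ → ℂ) = X ^ 2 + 1 := by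
        unfold Lagrange.nodal
        have e4 : Complex.I ∉ ({-Complex.I} : Finset ℂ) := by
          rw [Finset.mem_singleton]
          intro h
          have h2 := congrArg Complex.im h
          norm_num at h2
        rw [Finset.prod_insert e4, Finset.prod_singleton, id, id, C_neg]
        have h5 : (C Complex.I : ℂ[X]) * C Complex.I = -1 := by
          rw [← C_mul, Complex.I_mul_I, C_neg, C_1]
        linear_combination -h5
      rw [pow_one, e3, map_add, map_pow, aeval_X, map_one, sq, slotM_mul, hT, slotM_neg, slotM_one,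
        neg_add_cancel]
    refine add_alg (Commute.sum_right _ _ _ fun j _ => slotM_comm rfl i j) h1 hL
      (fun x hx y hy => ?_) le_rfl
    obtain ⟨j, hj, rfl⟩ := Finset.mem_image.1 hy
    rw [Finset.mem_range] at hj
    rw [Finset.mem_image, Finset.card_insert_of_notMem hi]
    rw [Finset.mem_insert, Finset.mem_singleton] at hx
    rcases hx with rfl | rfl
    · refine ⟨j, by rw [Finset.mem_range]; omega, ?_⟩
      push_cast
      ring
    · refine ⟨j + 1, by rw [Finset.mem_range]; omega, ?_⟩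
      push_cast
      ring

theorem odd_zero {V W : Type*} [AddCommGroup V] [Module ℂ V] [AddCommGroup W] [Module ℂ W]
    {T : Module.End ℂ V} (hT : T * T = -1) (hodd : Odd (Fintype.card κ))
    {φ : MultilinearMap ℂ (fun _ : κ => V) W} (h0 : ∑ l, slotM W T l φ = 0) : φ = 0 := by
  obtain ⟨L, hL⟩ := odd_alg (W := W) hT (Finset.univ : Finset κ)
  set u : Finset ℂ := (Finset.range ((Finset.univ : Finset κ).card + 1)).image
      fun j : ℕ => ((((Finset.univ : Finset κ).card : ℂ) - 2 * j) * Complex.I) with hu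
  have h1 : (∑ l, slotM W T l : Module.End ℂ (MultilinearMap ℂ (fun _ : κ => V) W)) φ = 0 := by
    rw [LinearMap.sum_apply]
    exact h0
  have h2 : ∀ Q : ℂ[X], aeval (∑ l, slotM W T l : Module.End ℂ
      (MultilinearMap ℂ (fun _ : κ => V) W)) Q φ = Q.eval 0 • φ := by
    intro Q
    obtain ⟨Q', hQ'⟩ : X ∣ Q - C (Q.eval 0) := by
      rw [X_dvd_iff, coeff_sub, coeff_C_zero, coeff_zero_eq_eval_zero, sub_self]
    have h3 : Q = Q' * X + C (Q.eval 0) := by
      rw [mul_comm, ← hQ', sub_add_cancel]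
    conv_lhs => rw [h3]
    rw [map_add, map_mul, aeval_X, aeval_C, LinearMap.add_apply, Module.End.mul_apply, h1, map_zero,
      zero_add]
    rfl
  have h3 := congrArg (fun R : Module.End ℂ (MultilinearMap ℂ (fun _ : κ => V) W) => R φ) hL
  rw [h2, LinearMap.zero_apply] at h3
  refine (smul_eq_zero.1 h3).resolve_left ?_
  rw [eval_pow]
  refine pow_ne_zero _ ?_
  rw [Lagrange.eval_nodal, Finset.prod_ne_zero_iff]
  intro x hx h4
  rw [hu, Finset.mem_image] at hx
  obtain ⟨j, -, rfl⟩ := hx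
  rw [id, zero_sub, neg_eq_zero, mul_eq_zero] at h4
  have h5 := h4.resolve_right Complex.I_ne_zero
  rw [Finset.card_univ, sub_eq_zero] at h5
  have h6 : Fintype.card κ = 2 * j := by exact_mod_cast h5
  rw [h6] at hodd
  exact absurd hodd (by simp)

theorem odd_of_mem (hodd : Odd (Fintype.card κ)) (hJ : Cn k Φ 0 0 (hm A Complex.I)) : Φ = 0 := by
  have h1 := (Cn_iff _ _ _ _ _).1 hJ
  have h2 : tv (hm A Complex.I) * tv (hm A Complex.I) = -1 := by
    rw [← tv_mul, hm_sq]
    refine LinearMap.ext fun v => ?_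
    rw [tv_apply, Matrix.vecMul_neg, Matrix.vecMul_one]
    rfl
  have h3 : ∑ l, slotM (R → ℂ) (tv (hm A Complex.I)) l (cxM Φ) = 0 := by
    have h4 : rho k (0 : Matrix R R ℂ) 0 (hm A Complex.I) (cxM Φ) =
        post (tv (0 : Matrix R R ℂ)) (cxM Φ) + ((k : ℂ) * 0) • cxM Φ -
          ∑ l, slotM (R → ℂ) (tv (hm A Complex.I)) l (cxM Φ) := by
      unfold rho
      rw [LinearMap.sub_apply, LinearMap.sum_apply]
      rfl
    rw [h4, tv_zero, map_zero, mul_zero, zero_smul, LinearMap.zero_apply, add_zero] at h1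
    rw [← neg_eq_zero, ← h1]
    exact (zero_sub _).symm
  have h4 := odd_zero h2 hodd h3
  refine Module.Basis.ext_multilinear (fun _ => Pi.basisFun ℚ (Fin (2 * h))) fun I => ?_
  funext i
  have h5 := cxM_basis Φ I i
  rw [h4] at h5
  simp only [Pi.basisFun_apply]
  have h6 : ((vl Φ I i : ℚ) : ℂ) = 0 := h5.symm
  exact_mod_cast h6

/-! ### Products of elliptic curves -/

/-- The class of the vector is defined over the algebraic numbers, after a Tate twist. -/
def GrV (C : Matrix R R ℂ) (k : ℤ) (ξ : R → ℚ) : Prop :=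
  ∀ i, ∃ a : QBar, tau ^ k * ∑ j, ((ξ j : ℚ) : ℂ) * C j i = algebraMap QBar ℂ a

/-- Linearly independent forms over the rational numbers are linearly independent over the complex
numbers. -/
theorem li_cx {n : ℕ} {ψ : Fin n → MultilinearMap ℚ (fun _ : κ => (Fin a → ℚ)) ℚ}
    (hψ : LinearIndependent ℚ ψ) {B : Fin n → ℂ}
    (h : ∀ I : κ → Fin a, ∑ c, ((ψ c (fun l => Pi.single (I l) 1) : ℚ) : ℂ) * B c = 0) :
    ∀ c, B c = 0 := by
  intro c
  refine eq_zero_of_dual (k := ℚ) fun lam => ?_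
  have h1 : ∑ c, lam (B c) • ψ c = 0 := by
    refine Module.Basis.ext_multilinear (fun _ => Pi.basisFun ℚ (Fin a)) fun I => ?_
    simp only [Pi.basisFun_apply]
    have h2 := congrArg lam (h I)
    rw [map_sum, map_zero] at h2
    rw [_root_.sum_apply]
    change ∑ c, (lam (B c) • ψ c) (fun l => Pi.single (I l) 1) = 0
    rw [← h2]
    refine Finset.sum_congr rfl fun c _ => ?_
    have h3 : ((ψ c (fun l => Pi.single (I l) 1) : ℚ) : ℂ) * B c =
        (ψ c (fun l => Pi.single (I l) 1)) • B c := by rw [Rat.smul_def]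
    rw [h3, map_smul, smul_eq_mul, mul_comm]
    rfl
  exact Fintype.linearIndependent_iff.1 hψ _ h1 c

/-- The coefficients of a class with respect to independent forms killed by the Lie algebra of the
Hodge group. -/
theorem GrV_coef {m n : ℕ} {Φ : MultilinearMap ℚ (fun _ : Fin m × Fin 2 => A.H1) (R → ℚ)}
    (hCC : C * C' = 1) (hΦ : GrC C A k Φ)
    (hNS : ∀ α ∈ NS A, Cn k Φ 0 0 α)
    {ψ : Fin n → MultilinearMap ℚ (fun _ : Fin m × Fin 2 => A.H1) ℚ}
    (hψ : LinearIndependent ℚ ψ) {ξ : Fin n → R → ℚ}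
    (hdec : ∀ w i, Φ w i = ∑ c, ψ c w * ξ c i) (c : Fin n) : GrV C (k - m) (ξ c) := by
  have ht : (tau : ℂ) ≠ 0 := AbVar.tau_ne
  intro i
  obtain ⟨a, ha⟩ := mem_K (K := QBar) (x := tau ^ (k - m : ℤ) * ∑ j, ((ξ c j : ℚ) : ℂ) * C j i)
    fun D => by
    obtain ⟨P', h1, h2⟩ := exists_inv A
    have hz0 := Cn_der hCC hΦ h2 D
    have hcut := hNS _ (Cut_z0 (r := 0) h2 D 0)
    have h3 := hz0.add (hcut.smul (-1))
    have hC2 : C' * C = 1 := mul_eq_one_comm.1 hCC
    -- the coefficients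
    have h4 : ∀ c i, (∑ j, ((ξ c j : ℚ) : ℂ) * (C.map D * C') j i) +
        (((k - m : ℤ) : ℂ) * (D tau / tau)) * ((ξ c i : ℚ) : ℂ) = 0 := by
      intro c i
      refine li_cx hψ (B := fun c => (∑ j, ((ξ c j : ℚ) : ℂ) * (C.map D * C') j i) +
        (((k - m : ℤ) : ℂ) * (D tau / tau)) * ((ξ c i : ℚ) : ℂ)) (fun I => ?_) c
      have h5 := h3 I i
      have hy : (PM A).map D * P' + (-1 : ℂ) • ((PM A).map D * P' -
          ((D tau / tau) / 2) • (1 : Matrix (Fin (2 * h)) (Fin (2 * h)) ℂ)) =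
            ((D tau / tau) / 2) • (1 : Matrix (Fin (2 * h)) (Fin (2 * h)) ℂ) := by
        module
      change ∑ j, ((vl Φ I j : ℚ) : ℂ) * ((C.map D * C' + (-1 : ℂ) • (0 : Matrix R R ℂ)) j i) +
        ((k : ℂ) * (D tau / tau + (-1 : ℂ) • (0 : ℂ))) * ((vl Φ I i : ℚ) : ℂ) =
          ∑ l, ∑ m', ((PM A).map D * P' + (-1 : ℂ) • ((PM A).map D * P' -
          ((D tau / tau) / 2) • (1 : Matrix (Fin (2 * h)) (Fin (2 * h)) ℂ))) (I l) m' *
              ((vl Φ (Function.update I l m') i : ℚ) : ℂ) at h5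
      rw [hy, smul_zero, smul_zero, add_zero, add_zero] at h5
      have h6 : ∀ l : Fin m × Fin 2, ∑ m', (((D tau / tau) / 2) •
          (1 : Matrix (Fin (2 * h)) (Fin (2 * h)) ℂ)) (I l) m' *
            ((vl Φ (Function.update I l m') i : ℚ) : ℂ) =
              ((D tau / tau) / 2) * ((vl Φ I i : ℚ) : ℂ) := by
        intro l
        rw [Finset.sum_eq_single (I l)]
        · rw [Function.update_eq_self, Matrix.smul_apply,
            Matrix.one_apply_eq, smul_eq_mul, mul_one]
        · intro m' _ hm'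
          rw [Matrix.smul_apply, Matrix.one_apply_ne (Ne.symm hm'),
            smul_zero, zero_mul]
        · intro hh
          exact absurd (Finset.mem_univ _) hh
      rw [Finset.sum_congr rfl fun l _ => h6 l, Finset.sum_const, Finset.card_univ,
        Fintype.card_prod, Fintype.card_fin, Fintype.card_fin, nsmul_eq_mul] at h5
      have h7 : ∀ j, ((vl Φ I j : ℚ) : ℂ) =
          ∑ c, ((ψ c (fun l => Pi.single (I l) 1) : ℚ) : ℂ) * ((ξ c j : ℚ) : ℂ) := by
        intro j
        have h8 := hdec (fun l => Pi.single (I l) 1) j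
        change vl Φ I j = _ at h8
        rw [h8]
        push_cast
        rfl
      have h8 : ∑ c, ((ψ c (fun l => Pi.single (I l) 1) : ℚ) : ℂ) *
          ((∑ j, ((ξ c j : ℚ) : ℂ) * (C.map D * C') j i) +
            (((k - m : ℤ) : ℂ) * (D tau / tau)) * ((ξ c i : ℚ) : ℂ)) =
          ∑ j, ((vl Φ I j : ℚ) : ℂ) * (C.map D * C') j i +
            (((k - m : ℤ) : ℂ) * (D tau / tau)) * ((vl Φ I i : ℚ) : ℂ) := by
        simp only [mul_add, Finset.sum_add_distrib]
        congr 1
        · simp only [h7, Finset.sum_mul, Finset.mul_sum]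
          rw [Finset.sum_comm]
          exact Finset.sum_congr rfl fun j _ => Finset.sum_congr rfl fun c _ => by ring
        · rw [h7 i, Finset.mul_sum]
          exact Finset.sum_congr rfl fun c _ => by ring
      rw [h8]
      push_cast at h5 ⊢
      linear_combination h5
    -- the derivative
    have h5 : ∀ i, ∑ j, ((ξ c j : ℚ) : ℂ) * D (C j i) +
        (((k - m : ℤ) : ℂ) * (D tau / tau)) * ∑ j, ((ξ c j : ℚ) : ℂ) * C j i = 0 := by
      intro i
      have h6 : ∀ j, D (C j i) = ∑ i', (C.map D * C') j i' * C i' i := by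
        intro j
        rw [← Matrix.mul_apply, Matrix.mul_assoc, hC2, Matrix.mul_one, Matrix.map_apply]
      have h7 : ∑ i', ((∑ j, ((ξ c j : ℚ) : ℂ) * (C.map D * C') j i') +
          (((k - m : ℤ) : ℂ) * (D tau / tau)) * ((ξ c i' : ℚ) : ℂ)) * C i' i = 0 :=
        Finset.sum_eq_zero fun i' _ => by rw [h4, zero_mul]
      rw [← h7]
      simp only [add_mul, Finset.sum_add_distrib]
      congr 1
      · simp only [h6, Finset.mul_sum, Finset.sum_mul]
        rw [Finset.sum_comm]
        exact Finset.sum_congr rfl fun j _ => Finset.sum_congr rfl fun c _ => by ring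
      · rw [Finset.mul_sum]
        exact Finset.sum_congr rfl fun c _ => by ring
    have h6 : D (∑ j, ((ξ c j : ℚ) : ℂ) * C j i) = ∑ j, ((ξ c j : ℚ) : ℂ) * D (C j i) := by
      rw [map_sum]
      refine Finset.sum_congr rfl fun j _ => ?_
      have h7 : ((ξ c j : ℚ) : ℂ) = algebraMap QBar ℂ (algebraMap ℚ QBar (ξ c j)) := by
        rw [← IsScalarTower.algebraMap_apply]
        rfl
      rw [h7, Derivation.leibniz, Derivation.map_algebraMap, smul_zero, add_zero, smul_eq_mul]
    rw [Derivation.leibniz, Derivation.leibniz_zpow, h6]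
    simp only [smul_eq_mul, zsmul_eq_mul]
    have h7 : (tau : ℂ) ^ (k - m - 1 : ℤ) = tau ^ (k - m : ℤ) / tau := by
      rw [zpow_sub₀ ht (k - m : ℤ) 1, zpow_one]
    rw [h7]
    have h8 := h5 i
    have h9 : (tau : ℂ) ^ (k - m : ℤ) * ∑ j, ((ξ c j : ℚ) : ℂ) * D (C j i) +
        (∑ j, ((ξ c j : ℚ) : ℂ) * C j i) * ((((k - m : ℤ)) : ℂ) *
          (tau ^ (k - m : ℤ) / tau * D tau)) = tau ^ (k - m : ℤ) *
            (∑ j, ((ξ c j : ℚ) : ℂ) * D (C j i) +
              (((k - m : ℤ) : ℂ) * (D tau / tau)) * ∑ j, ((ξ c j : ℚ) : ℂ) * C j i) := by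
      field_simp
    rw [h9, h8, mul_zero]
  exact ⟨a, ha.symm⟩

end Pool.Agent.H621.CY
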