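import Pool.Agent.H621.CY.Cyc3

set_option autoImplicit false
set_option linter.unusedSectionVars false

/-!
# The classes on the product of any variety with a product of elliptic curves
-/

open Module TensorProduct Matrix Polynomial

noncomputable section

namespace Pool.Agent.H621.CY

open Pool.Agent.Y102 Pool.Agent.W516.DR Pool.Agent.H204R3.GP Pool.Agent.W516.KC
  Pool.Agent.H204R3.SP Pool.Agent.TH119.MX Pool.Agent.R917 Pool.Agent.R917.DT
  Pool.Agent.R917.EC Pool.Agent.H621.BC Pool.Agent.R917.OM Pool.Agent.Y102.AbVar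

open Pool.Agent.H621.RM (NS NS_br NS_mapF NS_rm)

variable {κ : Type} [Fintype κ] [DecidableEq κ] {a r K h : ℕ} {lev : Fin r → Fin K} {k : ℤ}
  {C C' : Matrix (Fin r) (Fin r) ℂ} {ς : Type} [Fintype ς] [DecidableEq ς]

section W

variable {n : ℕ} {E : Fin n → AbVar 1} (W : Pw E)
  (halg : ∀ i j, ¬ NoHom (E i) (E j) → ∃ φ : (E i).H1 →ₗ[ℚ] (E j).H1, IsHom (E i) (E j) φ ∧ φ ≠ 0)
  (ho : ∀ i j, i ≠ j → ∀ u v, W.B.om (W.f i u) (W.f j v) = 0)

include halg ho in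
/-- Forms killed by the Lie algebra of the Hodge group. -/
theorem Pw.lef {m : ℕ} (φ : MultilinearMap ℚ (fun _ : Fin m × Fin 2 => W.B.H1) ℚ)
    (hφ : ∀ Z ∈ W.B.NA, Kills Z φ) : φ ∈ Submodule.span ℚ (LefProd W.B W.B.EA m) := by
  obtain ⟨S, R, hpr⟩ := exists_CP W.P_mem W.P_idem W.P_rk fun i j _ => W.iso halg i j
  obtain ⟨C⟩ := S.exists_Reps W.P
  refine lef_of C R hpr W.P_sum W.P_mem W.P_idem W.P_rk (fun i j hij => ?_) (W.P_sym ho) φ hφ
  refine LinearMap.ext fun w => ?_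
  have h2 := W.pf0 i j hij
  have h3 := congrArg (fun T : (E j).H1 →ₗ[ℚ] (E i).H1 => T (W.p j w)) h2
  change W.f i (W.p i (W.f j (W.p j w))) = 0
  change W.p i (W.f j (W.p j w)) = 0 at h3
  rw [h3, map_zero]

include halg in
theorem Pw.mem_Cn (hCC : C * C' = 1) (hB : BT lev C) (hB' : BT lev C')
    (hgood : ∀ k, ¬ Bad C C' lev (E k)) {Φ : MultilinearMap ℚ (fun _ : κ => W.B.H1)
      ((ς → Fin r) → ℚ)} (hΦ : GrC (kp ς C) W.B k Φ)
    {α : Matrix (Fin (2 * n)) (Fin (2 * n)) ℂ} (hα : α ∈ NS W.B) : Cn k Φ 0 0 α := by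
  have hP : PtQ W.B C C' lev (PF W.B lev k Φ) := PF_ptq hCC hB hB' hΦ
  have h1 := (W.NS_mem halg hgood hP hα).2.2
  change Cn k Φ (ks ς (0 : Matrix (Fin r) (Fin r) ℂ)) 0 α at h1
  rw [ks_zero] at h1
  exact h1

include halg ho in
/-- **The classes on the product with `W.B`.** -/
theorem Pw.cyc (hCC : C * C' = 1) (hB : BT lev C) (hB' : BT lev C')
    (hgood : ∀ k, ¬ Bad C C' lev (E k)) {m : ℕ}
    {Φ : MultilinearMap ℚ (fun _ : Fin m × Fin 2 => W.B.H1) ((ς → Fin r) → ℚ)}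
    (hΦ : GrC (kp ς C) W.B k Φ) :
    ∃ (N : ℕ) (ψ : Fin N → MultilinearMap ℚ (fun _ : Fin m × Fin 2 => W.B.H1) ℚ)
      (ξ : Fin N → (ς → Fin r) → ℚ), (∀ c, ψ c ∈ LefProd W.B W.B.EA m) ∧
        (∀ c, GrV (kp ς C) (k - m) (ξ c)) ∧ ∀ w i, Φ w i = ∑ c, ψ c w * ξ c i := by
  classical
  have hNS : ∀ α ∈ NS W.B, Cn k Φ 0 0 α := fun α hα => W.mem_Cn halg hCC hB hB' hgood hΦ hα
  have hspan : ∀ i, co Φ i ∈ Submodule.span ℚ (LefProd W.B W.B.EA m) := fun i =>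
    W.lef halg ho _ fun Z hZ => kills_co (hNS _ (NS_rm hZ)) i
  obtain ⟨s, hs, hsp, hli⟩ := exists_linearIndependent ℚ (LefProd W.B W.B.EA m)
  have hfin : Finite s := hli.finite
  obtain ⟨N, ⟨e⟩⟩ := Finite.exists_equiv_fin s
  let ψ : Fin N → MultilinearMap ℚ (fun _ : Fin m × Fin 2 => W.B.H1) ℚ := fun c => (e.symm c).1
  have hψ : LinearIndependent ℚ ψ := hli.comp _ e.symm.injective
  have hrange : Set.range ψ = s := by
    ext x
    constructor
    · rintro ⟨c, rfl⟩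
      exact (e.symm c).2
    · intro hx
      exact ⟨e ⟨x, hx⟩, by simp [ψ]⟩
  have hco : ∀ i, ∃ x : Fin N → ℚ, ∑ c, x c • ψ c = co Φ i := by
    intro i
    rw [← Submodule.mem_span_range_iff_exists_fun, hrange, hsp]
    exact hspan i
  choose x hx using hco
  have hdec : ∀ w i, Φ w i = ∑ c, ψ c w * x i c := by
    intro w i
    have h1 := congrArg (fun φ : MultilinearMap ℚ (fun _ : Fin m × Fin 2 => W.B.H1) ℚ => φ w) (hx i)
    rw [_root_.sum_apply] at h1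
    rw [← co_apply, ← h1]
    exact Finset.sum_congr rfl fun c _ => by
      change x i c * ψ c w = _
      ring
  exact ⟨N, ψ, fun c i => x i c, fun c => hs (e.symm c).2,
    fun c => GrV_coef (C' := kp ς C') (by rw [kp_mul, hCC, kp_one]) hΦ hNS hψ
      (ξ := fun c i => x i c) hdec c, hdec⟩

include halg in
theorem Pw.cyc_odd (hCC : C * C' = 1) (hB : BT lev C) (hB' : BT lev C')
    (hgood : ∀ k, ¬ Bad C C' lev (E k)) (hodd : Odd (Fintype.card κ))
    {Φ : MultilinearMap ℚ (fun _ : κ => W.B.H1) ((ς → Fin r) → ℚ)}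
    (hΦ : GrC (kp ς C) W.B k Φ) : Φ = 0 :=
  odd_of_mem hodd (W.mem_Cn halg hCC hB hB' hgood hΦ hm_NS)

end W

/-! ### Factors -/

variable {g g' : ℕ} {A : AbVar g} {B : AbVar g'} {R : Type} [Fintype R] [DecidableEq R]
  {C : Matrix R R ℂ}

/-- The pull back of a class. -/
theorem GrC.comp {p : B.H1 →ₗ[ℚ] A.H1} (hp : Hm B A p)
    {Φ : MultilinearMap ℚ (fun _ : κ => A.H1) (R → ℚ)} (hΦ : GrC C A k Φ) :
    GrC C B k (Φ.compLinearMap fun _ => p) := by
  classical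
  obtain ⟨r', hr⟩ := hΦ
  obtain ⟨e, he⟩ := hp.algebraic
  refine ⟨fun J' i => ∑ J, r' J i * ∏ l, e (J l) (J' l), fun v i => ?_⟩
  have h1 : tau ^ k * ∑ j, (((Φ.compLinearMap fun _ => p) v j : ℚ) : ℂ) * C j i =
      ∑ J, algebraMap QBar ℂ (r' J i) * ∏ l, A.dR (J l) (p (v l)) := hr (fun l => p (v l)) i
  rw [h1]
  have h2 : ∀ J : κ → Fin g ⊕ Fin g, ∏ l, A.dR (J l) (p (v l)) =
      ∑ J' : κ → Fin g' ⊕ Fin g',
        (∏ l, algebraMap QBar ℂ (e (J l) (J' l))) * ∏ l, B.dR (J' l) (v l) := by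
    intro J
    rw [Finset.prod_congr rfl fun l _ => he (J l) (v l), Finset.prod_univ_sum,
      Fintype.piFinset_univ]
    exact Finset.sum_congr rfl fun J' _ => Finset.prod_mul_distrib
  have h3 : ∀ J : κ → Fin g ⊕ Fin g,
      algebraMap QBar ℂ (r' J i) * ∏ l, A.dR (J l) (p (v l)) =
      ∑ J' : κ → Fin g' ⊕ Fin g',
        algebraMap QBar ℂ (r' J i * ∏ l, e (J l) (J' l)) * ∏ l, B.dR (J' l) (v l) := by
    intro J
    rw [h2, Finset.mul_sum]
    refine Finset.sum_congr rfl fun J' _ => ?_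
    rw [map_mul, map_prod, mul_assoc]
  rw [Finset.sum_congr rfl fun J _ => h3 J, Finset.sum_comm]
  refine Finset.sum_congr rfl fun J' _ => ?_
  rw [map_sum, Finset.sum_mul]

/-- The restriction of a product of forms. -/
theorem prod_comp {f : A.H1 →ₗ[ℚ] B.H1} (hf : Hm A B f) {m : ℕ}
    {ψ : MultilinearMap ℚ (fun _ : Fin m × Fin 2 => B.H1) ℚ}
    (hψ : IsProductOfHodgeBilinear (B.per : B.H1 →+ (Fin g' → ℂ)) ψ) :
    IsProductOfHodgeBilinear (A.per : A.H1 →+ (Fin g → ℂ)) (ψ.compLinearMap fun _ => f) := by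
  obtain ⟨σ, β, h1, h2⟩ := hψ
  obtain ⟨F, hF⟩ := hf.tangent
  refine ⟨σ, fun l => (β l).compl₁₂ f f, fun l => ?_, fun v => ?_⟩
  · obtain ⟨G, h3, h4⟩ := h1 l
    refine ⟨G.compl₁₂ (F.restrictScalars ℝ) (F.restrictScalars ℝ), fun x y => ?_,
      fun z hz u v => ?_⟩
    · change G (F (A.per x)) (F (A.per y)) = _
      rw [hF, hF]
      exact h3 (f x) (f y)
    · change G (F (z • u)) (F (z • v)) = G (F u) (F v)
      rw [F.map_smul z u, F.map_smul z v]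
      exact h4 z hz _ _
  · exact h2 fun l => f (v l)

end Pool.Agent.H621.CY
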