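import Pool.Agent.H621.CY.Bad
import Pool.Agent.H621.RK.Cpl
import Pool.Agent.H621.BC.Grp

set_option autoImplicit false
set_option linter.unusedSectionVars false

/-!
# Algebraic groups which contain the periods
-/

open Module TensorProduct Matrix Polynomial

noncomputable section

namespace Pool.Agent.H621.CY

open Pool.Agent.Y102 Pool.Agent.W516.DR Pool.Agent.H204R3.GP Pool.Agent.W516.KC
  Pool.Agent.H204R3.SP Pool.Agent.TH119.MX Pool.Agent.R917 Pool.Agent.R917.DT
  Pool.Agent.R917.EC Pool.Agent.H621.BC Pool.Agent.R917.OM Pool.Agent.Y102.AbVar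

open Pool.Agent.H621.RK (R2 PP PP_br PP_comp PP_mapF PP_aeval PP_der bd bd_apply aeval_prod)
open Pool.Agent.H621.RM (NS NS_br NS_mapF NS_rm exA exA_inj exA_map exA_BT lev' LP PtA Lif hb)

variable {r K h : ℕ}

/-- the pair of a triple -/
def pr3 : T3 r h →ₐ[ℂ] R2 r (Fin (2 * h)) where
  toFun z := (z.1.1, z.2)
  map_one' := rfl
  map_mul' _ _ := rfl
  map_zero' := rfl
  map_add' _ _ := rfl
  commutes' _ := rfl

theorem pr3_apply (z : T3 r h) : pr3 z = (z.1.1, z.2) := rfl

/-- The Lie algebra of triples of a group. -/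
def PG (A : AbVar h) (lev : Fin r → Fin K)
    (H : Set (Matrix (Fin r ⊕ Fin (2 * h)) (Fin r ⊕ Fin (2 * h)) ℂ)) : Submodule ℂ (T3 r h) where
  carrier := {z | pr3 z ∈ PP lev H ∧ Cut A z}
  zero_mem' := by
    refine ⟨?_, ?_⟩
    · rw [map_zero]
      exact Submodule.zero_mem _
    · unfold Cut
      change (0 : Matrix (Fin (2 * h)) (Fin (2 * h)) ℂ) - ((0 : ℂ) / 2) • 1 ∈ NS A
      rw [zero_div, zero_smul, sub_zero]
      exact Submodule.zero_mem _
  add_mem' := by
    rintro z w ⟨h1, h2⟩ ⟨h3, h4⟩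
    refine ⟨?_, ?_⟩
    · rw [map_add]
      exact Submodule.add_mem _ h1 h3
    · have h5 := Submodule.add_mem _ h2 h4
      unfold Cut
      convert h5 using 1
      change z.2 + w.2 - ((z.1.2 + w.1.2) / 2) • (1 : Matrix (Fin (2 * h)) (Fin (2 * h)) ℂ) = _
      rw [add_div]
      module
  smul_mem' := by
    rintro a z ⟨h1, h2⟩
    refine ⟨?_, ?_⟩
    · rw [map_smul]
      exact Submodule.smul_mem _ a h1
    · have h5 := Submodule.smul_mem _ a h2
      unfold Cut
      convert h5 using 1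
      change a • z.2 - ((a • z.1.2) / 2) • (1 : Matrix (Fin (2 * h)) (Fin (2 * h)) ℂ) = _
      rw [smul_eq_mul, mul_div_assoc]
      module

variable {A : AbVar h} {lev : Fin r → Fin K}
  {H : Set (Matrix (Fin r ⊕ Fin (2 * h)) (Fin r ⊕ Fin (2 * h)) ℂ)}

theorem PG_lq (hH : AlgGrp QQ H) : LQ A lev (PG A lev H) where
  bt := fun z hz => hz.1.1
  br := by
    rintro z ⟨h1, h2⟩ w ⟨h3, h4⟩
    refine ⟨?_, Cut.br h2 h4⟩
    rw [map_sub, map_mul, map_mul]
    exact PP_br h1 h3
  comp := by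
    rintro z ⟨h1, h2⟩ f
    exact ⟨PP_mapF hH h1 f, Cut.map h2 f⟩
  rq := by
    rintro z ⟨h1, h2⟩ s N h0 σ Q hQ
    refine ⟨?_, Cut.aeval h2 h0 σ hQ⟩
    rw [← Polynomial.aeval_algHom_apply]
    refine PP_aeval ?_ σ hQ h1
    rw [Polynomial.aeval_algHom_apply, h0, map_zero]
  cut := fun z hz => hz.2

theorem PG_ptq (hH : AlgGrp QQ H) {C C' : Matrix (Fin r) (Fin r) ℂ} (hC : C * C' = 1)
    (hB : BT lev C) (hB' : BT lev C') {T T' : Matrix (Fin r ⊕ Fin (2 * h)) (Fin r ⊕ Fin (2 * h)) ℂ}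
    (hT : T * T' = 1) (hT' : ∀ i j, T' i j ∈ QA) (hpt : fromBlocks C 0 0 (PM A) * T ∈ H) :
    PtQ A C C' lev (PG A lev H) where
  lq := PG_lq hH
  der := fun D lam => by
    refine ⟨?_, Cut_der D lam _⟩
    obtain ⟨P', h1, h2⟩ := exists_inv A
    have h3 := PP_comp hH (PP_der hH hC h1 hB hB' hT hT' hpt D) lam
    rw [pr3_apply]
    convert h3 using 1
    refine Prod.ext rfl ?_
    change rm (Pool.Agent.W516.DR.cmpE lam (XX A.basis D)) = ((PM A).map D * P').map (lamF lam)
    rw [← toC_cmpE A D h2 lam]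
    rfl

/-- **The Hodge group is in the group.** -/
theorem PG_hodge (hH : AlgGrp QQ H) (hm1 : ((0, hm A Complex.I) : T3 r h) ∈ PG A lev H) {z : ℂ}
    (hz : ‖z‖ = 1) : fromBlocks 1 0 0 (hm A z) ∈ H := by
  have h1 : ∀ d, Stab H d (fromBlocks 0 0 0 (hm A Complex.I)) := hm1.1.2
  obtain ⟨t, ht⟩ : ∃ t : ℝ, Complex.exp (t * Complex.I) = z := by
    refine ⟨Complex.arg z, ?_⟩
    have h2 := Complex.norm_mul_exp_arg_mul_I z
    rwa [hz, Complex.ofReal_one, one_mul] at h2
  have h2 := exp_mem hH (X := (t : ℂ) • fromBlocks 0 0 0 (hm A Complex.I))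
    fun d => (h1 d).smul _
  rw [exp_blk, ht] at h2
  exact h2

/-! ### Factors of products of elliptic curves -/

/-- **A factor of a product is a factor of the abelian variety `W.B`.** -/
theorem fac_of {n g : ℕ} {E : Fin n → AbVar 1} (W : Pw E) {A : AbVar g}
    {a : ∀ k, A.H1 →ₗ[ℚ] (E k).H1} {b : ∀ k, (E k).H1 →ₗ[ℚ] A.H1} (ha : ∀ k, IsHom A (E k) (a k))
    (hb : ∀ k, IsHom (E k) A (b k)) (hs : ∑ k, b k ∘ₗ a k = LinearMap.id) :
    Fac A W.B (∑ k, W.f k ∘ₗ a k) (∑ k, b k ∘ₗ W.p k) where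
  hf := by
    classical
    have h1 : ∀ s : Finset (Fin n), IsHom A W.B (∑ k ∈ s, W.f k ∘ₗ a k) := fun s => by
      induction s using Finset.induction_on with
      | empty =>
        rw [Finset.sum_empty]
        exact isHom_zero
      | insert k s hk ih =>
        rw [Finset.sum_insert hk]
        exact isHom_add (isHom_comp (W.hf k) (ha k)) ih
    exact ⟨(h1 _).1, (h1 _).2⟩
  hp := by
    classical
    have h1 : ∀ s : Finset (Fin n), IsHom W.B A (∑ k ∈ s, b k ∘ₗ W.p k) := fun s => by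
      induction s using Finset.induction_on with
      | empty =>
        rw [Finset.sum_empty]
        exact isHom_zero
      | insert k s hk ih =>
        rw [Finset.sum_insert hk]
        exact isHom_add (isHom_comp (hb k) (W.hp k)) ih
    exact ⟨(h1 _).1, (h1 _).2⟩
  pf := fun w => by
    rw [LinearMap.sum_apply, LinearMap.sum_apply]
    have h1 : ∀ k, (b k ∘ₗ W.p k) (∑ l, (W.f l ∘ₗ a l) w) = b k (a k w) := fun k => by
      rw [map_sum, Finset.sum_eq_single k]
      · change b k (W.p k (W.f k (a k w))) = _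
        rw [(W.fac k).pf]
      · intro l _ hl
        change b k (W.p k (W.f l (a l w))) = 0
        have h2 := W.pf0 k l (Ne.symm hl)
        have h3 := congrArg (fun T : (E l).H1 →ₗ[ℚ] (E k).H1 => T (a l w)) h2
        change W.p k (W.f l (a l w)) = 0 at h3
        rw [h3, map_zero]
      · intro h2
        exact absurd (Finset.mem_univ _) h2
    rw [Finset.sum_congr rfl fun k _ => h1 k]
    have h2 := congrArg (fun T : A.H1 →ₗ[ℚ] A.H1 => T w) hs
    change (∑ k, b k ∘ₗ a k) w = w at h2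
    rw [LinearMap.sum_apply] at h2
    exact h2

end Pool.Agent.H621.CY
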