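import Pool.Agent.H621.CY.Prd

set_option autoImplicit false
set_option linter.unusedSectionVars false

/-!
# Homomorphisms, and finite products of elliptic curves
-/

open Module

noncomputable section

namespace Pool.Agent.H621.CY

open Pool.Agent.Y102 Pool.Agent.H621.BC

variable {g h : ℕ}

section comp

variable {g₁ g₂ g₃ : ℕ} {A : AbVar g₁} {B : AbVar g₂} {C : AbVar g₃}

theorem isHom_comp {f : B.H1 →ₗ[ℚ] C.H1} {f' : A.H1 →ₗ[ℚ] B.H1} (hf : IsHom B C f)
    (hf' : IsHom A B f') : IsHom A C (f ∘ₗ f') := by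
  obtain ⟨⟨F, hF⟩, e, he⟩ := hf
  obtain ⟨⟨F', hF'⟩, e', he'⟩ := hf'
  refine ⟨⟨F ∘ₗ F', fun w => ?_⟩, fun i j => ∑ k, e i k * e' k j, fun i w => ?_⟩
  · rw [LinearMap.comp_apply, hF', hF]
    rfl
  · rw [LinearMap.comp_apply, he]
    simp only [he', map_sum, map_mul, Finset.mul_sum, Finset.sum_mul]
    rw [Finset.sum_comm]
    exact Finset.sum_congr rfl fun j _ => Finset.sum_congr rfl fun k _ => by ring

theorem isHom_id : IsHom A A LinearMap.id := by
  classical
  refine ⟨⟨LinearMap.id, fun w => rfl⟩, fun i j => if j = i then 1 else 0, fun i w => ?_⟩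
  rw [Finset.sum_eq_single i]
  · beta_reduce
    rw [if_pos rfl, map_one, one_mul]
    rfl
  · intro j _ hj
    beta_reduce
    rw [if_neg hj, map_zero, zero_mul]
  · intro h
    exact absurd (Finset.mem_univ _) h

theorem isHom_add {f f' : A.H1 →ₗ[ℚ] B.H1} (hf : IsHom A B f) (hf' : IsHom A B f') :
    IsHom A B (f + f') := by
  obtain ⟨⟨F, hF⟩, e, he⟩ := hf
  obtain ⟨⟨F', hF'⟩, e', he'⟩ := hf'
  refine ⟨⟨F + F', fun w => ?_⟩, fun i j => e i j + e' i j, fun i w => ?_⟩
  · rw [LinearMap.add_apply, LinearMap.add_apply, map_add, hF, hF']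
  · rw [LinearMap.add_apply, map_add, he, he', ← Finset.sum_add_distrib]
    exact Finset.sum_congr rfl fun j _ => by rw [map_add, add_mul]

theorem isHom_zero : IsHom A B 0 := by
  refine ⟨⟨0, fun w => ?_⟩, fun i j => 0, fun i w => ?_⟩
  · rw [LinearMap.zero_apply, LinearMap.zero_apply, map_zero]
  · rw [LinearMap.zero_apply, map_zero, Finset.sum_eq_zero fun j _ => by rw [map_zero, zero_mul]]

end comp

variable (A : AbVar g) (B : AbVar h)

/-- the first inclusion -/
def i1 : A.H1 →ₗ[ℚ] (prd A B).H1 where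
  toFun w j := Sum.elim w (fun _ => (0 : ℚ)) ((eL g h).symm j)
  map_add' w w' := by
    funext j
    rw [Pi.add_apply]
    rcases (eL g h).symm j with k | k
    · rfl
    · exact (add_zero _).symm
  map_smul' a w := by
    funext j
    rw [Pi.smul_apply]
    rcases (eL g h).symm j with k | k
    · rfl
    · exact (smul_zero _).symm

/-- the second inclusion -/
def i2 : B.H1 →ₗ[ℚ] (prd A B).H1 where
  toFun w j := Sum.elim (fun _ => (0 : ℚ)) w ((eL g h).symm j)
  map_add' w w' := by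
    funext j
    rw [Pi.add_apply]
    rcases (eL g h).symm j with k | k
    · exact (add_zero _).symm
    · rfl
  map_smul' a w := by
    funext j
    rw [Pi.smul_apply]
    rcases (eL g h).symm j with k | k
    · exact (smul_zero _).symm
    · rfl

/-- the first projection -/
def q1 : (prd A B).H1 →ₗ[ℚ] A.H1 where
  toFun w j := w (eL g h (Sum.inl j))
  map_add' _ _ := rfl
  map_smul' _ _ := rfl

/-- the second projection -/
def q2 : (prd A B).H1 →ₗ[ℚ] B.H1 where
  toFun w j := w (eL g h (Sum.inr j))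
  map_add' _ _ := rfl
  map_smul' _ _ := rfl

theorem q1_i1 : q1 A B ∘ₗ i1 A B = LinearMap.id := by
  refine LinearMap.ext fun w => ?_
  funext j
  change Sum.elim w (fun _ => (0 : ℚ)) ((eL g h).symm (eL g h (Sum.inl j))) = w j
  rw [Equiv.symm_apply_apply]
  rfl

theorem q2_i2 : q2 A B ∘ₗ i2 A B = LinearMap.id := by
  refine LinearMap.ext fun w => ?_
  funext j
  change Sum.elim (fun _ => (0 : ℚ)) w ((eL g h).symm (eL g h (Sum.inr j))) = w j
  rw [Equiv.symm_apply_apply]
  rfl

theorem q1_i2 : q1 A B ∘ₗ i2 A B = 0 := by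
  refine LinearMap.ext fun w => ?_
  funext j
  change Sum.elim (fun _ => (0 : ℚ)) w ((eL g h).symm (eL g h (Sum.inl j))) = 0
  rw [Equiv.symm_apply_apply]
  rfl

theorem q2_i1 : q2 A B ∘ₗ i1 A B = 0 := by
  refine LinearMap.ext fun w => ?_
  funext j
  change Sum.elim w (fun _ => (0 : ℚ)) ((eL g h).symm (eL g h (Sum.inr j))) = 0
  rw [Equiv.symm_apply_apply]
  rfl

theorem iq_sum : i1 A B ∘ₗ q1 A B + i2 A B ∘ₗ q2 A B = LinearMap.id := by
  refine LinearMap.ext fun w => ?_
  funext j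
  obtain ⟨j, rfl⟩ := (eL g h).surjective j
  change Sum.elim (q1 A B w) (fun _ => (0 : ℚ)) ((eL g h).symm (eL g h j)) +
    Sum.elim (fun _ => (0 : ℚ)) (q2 A B w) ((eL g h).symm (eL g h j)) = w (eL g h j)
  rw [Equiv.symm_apply_apply]
  rcases j with k | k
  · exact add_zero _
  · exact zero_add _

theorem per_prd (w : (prd A B).H1) : (prd A B).per w =
    eT g h (A.per (q1 A B w), B.per (q2 A B w)) := by
  rw [AbVar.per_apply, sum_L]
  have h1 : ∀ j : Fin (2 * g), w (eL g h (Sum.inl j)) • (prd A B).lam (eL g h (Sum.inl j)) =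
      eT g h (w (eL g h (Sum.inl j)) • A.lam j, 0) := by
    intro j
    change _ • lamP A B _ = _
    rw [lamP_inl, AbVar.rat_smul, AbVar.rat_smul]
    rw [← Complex.coe_smul, ← map_smul, Prod.smul_mk, smul_zero]
    rfl
  have h2 : ∀ j : Fin (2 * h), w (eL g h (Sum.inr j)) • (prd A B).lam (eL g h (Sum.inr j)) =
      eT g h (0, w (eL g h (Sum.inr j)) • B.lam j) := by
    intro j
    change _ • lamP A B _ = _
    rw [lamP_inr, AbVar.rat_smul, AbVar.rat_smul]
    rw [← Complex.coe_smul, ← map_smul, Prod.smul_mk, smul_zero]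
    rfl
  simp only [h1, h2]
  rw [← map_sum, ← map_sum, ← map_add]
  congr 1
  rw [AbVar.per_apply, AbVar.per_apply]
  refine Prod.ext ?_ ?_
  · rw [Prod.fst_add, Prod.fst_sum, Prod.fst_sum]
    simp only [Finset.sum_const_zero, add_zero]
    rfl
  · rw [Prod.snd_add, Prod.snd_sum, Prod.snd_sum]
    simp only [Finset.sum_const_zero, zero_add]
    rfl

theorem eta_prd (w : (prd A B).H1) : (prd A B).eta w =
    eT g h (A.eta (q1 A B w), B.eta (q2 A B w)) := by
  rw [AbVar.eta_apply, sum_L]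
  have h1 : ∀ j : Fin (2 * g), w (eL g h (Sum.inl j)) • (prd A B).η (eL g h (Sum.inl j)) =
      eT g h (w (eL g h (Sum.inl j)) • A.η j, 0) := by
    intro j
    change _ • etaP A B _ = _
    rw [etaP_inl, AbVar.rat_smul, AbVar.rat_smul]
    rw [← Complex.coe_smul, ← map_smul, Prod.smul_mk, smul_zero]
    rfl
  have h2 : ∀ j : Fin (2 * h), w (eL g h (Sum.inr j)) • (prd A B).η (eL g h (Sum.inr j)) =
      eT g h (0, w (eL g h (Sum.inr j)) • B.η j) := by
    intro j
    change _ • etaP A B _ = _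
    rw [etaP_inr, AbVar.rat_smul, AbVar.rat_smul]
    rw [← Complex.coe_smul, ← map_smul, Prod.smul_mk, smul_zero]
    rfl
  simp only [h1, h2]
  rw [← map_sum, ← map_sum, ← map_add]
  congr 1
  rw [AbVar.eta_apply, AbVar.eta_apply]
  refine Prod.ext ?_ ?_
  · rw [Prod.fst_add, Prod.fst_sum, Prod.fst_sum]
    simp only [Finset.sum_const_zero, add_zero]
    rfl
  · rw [Prod.snd_add, Prod.snd_sum, Prod.snd_sum]
    simp only [Finset.sum_const_zero, zero_add]
    rfl

theorem dR_inl {n : ℕ} (X : AbVar n) (k : Fin n) (w : X.H1) : X.dR (Sum.inl k) w = X.per w k := rfl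

theorem dR_inr {n : ℕ} (X : AbVar n) (k : Fin n) (w : X.H1) : X.dR (Sum.inr k) w = X.eta w k := rfl

/-- A linear map is a homomorphism if it transforms each coordinate into a coordinate or zero. -/
theorem isHom_of_coord {n m : ℕ} {X : AbVar n} {Y : AbVar m} {f : X.H1 →ₗ[ℚ] Y.H1}
    (F : (Fin n → ℂ) →ₗ[ℂ] (Fin m → ℂ)) (h1 : ∀ w, F (X.per w) = Y.per (f w))
    (h2 : ∀ i, (∃ j, ∀ w, Y.dR i (f w) = X.dR j w) ∨ ∀ w, Y.dR i (f w) = 0) : IsHom X Y f := by
  classical
  have h3 : ∀ i, ∃ e : Fin n ⊕ Fin n → QBar, ∀ w,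
      Y.dR i (f w) = ∑ j, algebraMap QBar ℂ (e j) * X.dR j w := by
    intro i
    rcases h2 i with ⟨j, hj⟩ | h0
    · refine ⟨fun k => if k = j then 1 else 0, fun w => ?_⟩
      rw [Finset.sum_eq_single j]
      · beta_reduce
        rw [if_pos rfl, map_one, one_mul, hj]
      · intro k _ hk
        beta_reduce
        rw [if_neg hk, map_zero, zero_mul]
      · intro h
        exact absurd (Finset.mem_univ _) h
    · refine ⟨fun _ => 0, fun w => ?_⟩
      rw [h0, Finset.sum_eq_zero fun j _ => by rw [map_zero, zero_mul]]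
  choose e he using h3
  exact ⟨⟨F, h1⟩, e, he⟩

theorem hom_i1 : IsHom A (prd A B) (i1 A B) := by
  have e1 : ∀ w, q1 A B (i1 A B w) = w := fun w => DFunLike.congr_fun (q1_i1 A B) w
  have e2 : ∀ w, q2 A B (i1 A B w) = 0 := fun w => DFunLike.congr_fun (q2_i1 A B) w
  refine isHom_of_coord ((eT g h).toLinearMap ∘ₗ LinearMap.inl ℂ _ _) (fun w => ?_) fun i => ?_
  · rw [per_prd, e1, e2, map_zero]
    rfl
  · rcases i with i | i
    · refine Fin.addCases (fun k => ?_) (fun k => ?_) i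
      · refine Or.inl ⟨Sum.inl k, fun w => ?_⟩
        rw [dR_inl, dR_inl, per_prd, e1, eT_cast]
      · refine Or.inr fun w => ?_
        rw [dR_inl, per_prd, e2, eT_nat, map_zero]
        rfl
    · refine Fin.addCases (fun k => ?_) (fun k => ?_) i
      · refine Or.inl ⟨Sum.inr k, fun w => ?_⟩
        rw [dR_inr, dR_inr, eta_prd, e1, eT_cast]
      · refine Or.inr fun w => ?_
        rw [dR_inr, eta_prd, e2, eT_nat, map_zero]
        rfl

theorem hom_i2 : IsHom B (prd A B) (i2 A B) := by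
  have e1 : ∀ w, q1 A B (i2 A B w) = 0 := fun w => DFunLike.congr_fun (q1_i2 A B) w
  have e2 : ∀ w, q2 A B (i2 A B w) = w := fun w => DFunLike.congr_fun (q2_i2 A B) w
  refine isHom_of_coord ((eT g h).toLinearMap ∘ₗ LinearMap.inr ℂ _ _) (fun w => ?_) fun i => ?_
  · rw [per_prd, e1, e2, map_zero]
    rfl
  · rcases i with i | i
    · refine Fin.addCases (fun k => ?_) (fun k => ?_) i
      · refine Or.inr fun w => ?_
        rw [dR_inl, per_prd, e1, eT_cast, map_zero]
        rfl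
      · refine Or.inl ⟨Sum.inl k, fun w => ?_⟩
        rw [dR_inl, dR_inl, per_prd, e2, eT_nat]
    · refine Fin.addCases (fun k => ?_) (fun k => ?_) i
      · refine Or.inr fun w => ?_
        rw [dR_inr, eta_prd, e1, eT_cast, map_zero]
        rfl
      · refine Or.inl ⟨Sum.inr k, fun w => ?_⟩
        rw [dR_inr, dR_inr, eta_prd, e2, eT_nat]

theorem hom_q1 : IsHom (prd A B) A (q1 A B) := by
  refine isHom_of_coord (p1 g h).toLinearMap (fun w => ?_) fun i => ?_
  · rw [per_prd]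
    exact p1_eT _
  · rcases i with i | i
    · refine Or.inl ⟨Sum.inl (Fin.castAdd h i), fun w => ?_⟩
      rw [dR_inl, dR_inl, per_prd, eT_cast]
    · refine Or.inl ⟨Sum.inr (Fin.castAdd h i), fun w => ?_⟩
      rw [dR_inr, dR_inr, eta_prd, eT_cast]

theorem hom_q2 : IsHom (prd A B) B (q2 A B) := by
  refine isHom_of_coord (p2 g h).toLinearMap (fun w => ?_) fun i => ?_
  · rw [per_prd]
    exact p2_eT _
  · rcases i with i | i
    · refine Or.inl ⟨Sum.inl (Fin.natAdd g i), fun w => ?_⟩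
      rw [dR_inl, dR_inl, per_prd, eT_nat]
    · refine Or.inl ⟨Sum.inr (Fin.natAdd g i), fun w => ?_⟩
      rw [dR_inr, dR_inr, eta_prd, eT_nat]

/-! ### Finite products of elliptic curves -/

/-- the zero abelian variety -/
def zav : AbVar 0 where
  lam := haveI : IsEmpty (Fin (2 * 0)) := Fin.isEmpty'
    Basis.empty _
  N := 0
  θ _ _ := 1
  entire _ := analyticOnNhd_const
  η j := Fin.elim0 j
  c j := Fin.elim0 j
  quasiperiodic _ j := Fin.elim0 j
  positive u hu := absurd (Subsingleton.elim u 0) hu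
  origin := ⟨rfl, fun _ => isAlgebraic_one, fun k => k.elim0⟩
  immersion v _ := Subsingleton.elim v 0
  first k := k.elim0
  second k := k.elim0

/-- A product of elliptic curves. -/
structure Pw {n : ℕ} (E : Fin n → AbVar 1) where
  B : AbVar n
  f : ∀ i, (E i).H1 →ₗ[ℚ] B.H1
  p : ∀ i, B.H1 →ₗ[ℚ] (E i).H1
  hf : ∀ i, IsHom (E i) B (f i)
  hp : ∀ i, IsHom B (E i) (p i)
  pf : ∀ i, p i ∘ₗ f i = LinearMap.id
  pf0 : ∀ i j, i ≠ j → p i ∘ₗ f j = 0
  sum : ∑ i, f i ∘ₗ p i = LinearMap.id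

theorem exists_Pw {n : ℕ} : ∀ E : Fin n → AbVar 1, Nonempty (Pw E) := by
  induction n with
  | zero =>
    intro E
    refine ⟨⟨zav, fun i => i.elim0, fun i => i.elim0, fun i => i.elim0, fun i => i.elim0,
      fun i => i.elim0, fun i => i.elim0, ?_⟩⟩
    refine LinearMap.ext fun w => ?_
    funext j
    exact Fin.elim0 j
  | succ n ih =>
    intro E
    obtain ⟨P⟩ := ih fun i => E i.castSucc
    let L := E (Fin.last n)
    let f : Fin (n + 1) → ((Fin (2 * 1) → ℚ) →ₗ[ℚ] (Fin (2 * (n + 1)) → ℚ)) :=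
      Fin.snoc (α := fun _ => (Fin (2 * 1) → ℚ) →ₗ[ℚ] (Fin (2 * (n + 1)) → ℚ))
        (fun i => i1 P.B L ∘ₗ P.f i) (i2 P.B L)
    let p : Fin (n + 1) → ((Fin (2 * (n + 1)) → ℚ) →ₗ[ℚ] (Fin (2 * 1) → ℚ)) :=
      Fin.snoc (α := fun _ => (Fin (2 * (n + 1)) → ℚ) →ₗ[ℚ] (Fin (2 * 1) → ℚ))
        (fun i => P.p i ∘ₗ q1 P.B L) (q2 P.B L)
    have f1 : ∀ i : Fin n, f i.castSucc = i1 P.B L ∘ₗ P.f i := fun i => Fin.snoc_castSucc ..
    have f2 : f (Fin.last n) = i2 P.B L := Fin.snoc_last ..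
    have pp1 : ∀ i : Fin n, p i.castSucc = P.p i ∘ₗ q1 P.B L := fun i => Fin.snoc_castSucc ..
    have pp2 : p (Fin.last n) = q2 P.B L := Fin.snoc_last ..
    have e11 : ∀ w, q1 P.B L (i1 P.B L w) = w := fun w => DFunLike.congr_fun (q1_i1 P.B L) w
    have e12 : ∀ w, q1 P.B L (i2 P.B L w) = 0 := fun w => DFunLike.congr_fun (q1_i2 P.B L) w
    have e21 : ∀ w, q2 P.B L (i1 P.B L w) = 0 := fun w => DFunLike.congr_fun (q2_i1 P.B L) w
    have e22 : ∀ w, q2 P.B L (i2 P.B L w) = w := fun w => DFunLike.congr_fun (q2_i2 P.B L) w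
    refine ⟨⟨prd P.B L, f, p, fun i => ?_, fun i => ?_, fun i => ?_, fun i j hij => ?_, ?_⟩⟩
    · refine Fin.lastCases ?_ (fun i => ?_) i
      · rw [f2]
        exact hom_i2 _ _
      · rw [f1]
        exact isHom_comp (hom_i1 _ _) (P.hf i)
    · refine Fin.lastCases ?_ (fun i => ?_) i
      · rw [pp2]
        exact hom_q2 _ _
      · rw [pp1]
        exact isHom_comp (P.hp i) (hom_q1 _ _)
    · refine Fin.lastCases ?_ (fun i => ?_) i
      · rw [pp2, f2]
        exact q2_i2 _ _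
      · rw [pp1, f1]
        refine LinearMap.ext fun w => ?_
        change P.p i (q1 P.B L (i1 P.B L (P.f i w))) = w
        rw [e11]
        exact DFunLike.congr_fun (P.pf i) w
    · revert hij
      refine Fin.lastCases ?_ (fun i => ?_) i <;> refine Fin.lastCases ?_ (fun j => ?_) j
      · intro h
        exact absurd rfl h
      · intro _
        rw [pp2, f1]
        refine LinearMap.ext fun w => ?_
        exact e21 _
      · intro _
        rw [pp1, f2]
        refine LinearMap.ext fun w => ?_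
        change P.p i (q1 P.B L (i2 P.B L w)) = 0
        rw [e12, map_zero]
      · intro h
        rw [pp1, f1]
        refine LinearMap.ext fun w => ?_
        change P.p i (q1 P.B L (i1 P.B L (P.f j w))) = 0
        rw [e11]
        exact DFunLike.congr_fun (P.pf0 i j fun h' => h (by rw [h'])) w
    · rw [Fin.sum_univ_castSucc, f2, pp2]
      have h1 : ∑ i : Fin n, f i.castSucc ∘ₗ p i.castSucc = i1 P.B L ∘ₗ q1 P.B L := by
        have h2 : ∀ i : Fin n, f i.castSucc ∘ₗ p i.castSucc =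
            i1 P.B L ∘ₗ (P.f i ∘ₗ P.p i) ∘ₗ q1 P.B L := fun i => by rw [f1, pp1]; rfl
        simp only [h2]
        refine LinearMap.ext fun w => ?_
        rw [LinearMap.sum_apply]
        change ∑ i, i1 P.B L ((P.f i ∘ₗ P.p i) (q1 P.B L w)) = i1 P.B L (q1 P.B L w)
        rw [← map_sum, ← LinearMap.sum_apply, P.sum]
        rfl
      rw [h1]
      exact iq_sum _ _

end Pool.Agent.H621.CY
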