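import Pool.Agent.H621.RM.Ns

set_option autoImplicit false
set_option linter.unusedSectionVars false

/-!
# Replicas of sums of commuting operators
-/

open Module TensorProduct Matrix Polynomial

noncomputable section

namespace Pool.Agent.H621.CY

open Pool.Agent.Y102 Pool.Agent.W516.DR Pool.Agent.H204R3.GP Pool.Agent.W516.KC
  Pool.Agent.H204R3.SP Pool.Agent.TH119.MX Pool.Agent.R917 Pool.Agent.R917.DT
  Pool.Agent.R917.EC Pool.Agent.H621.BC Pool.Agent.R917.OM Pool.Agent.Y102.AbVar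

open Pool.Agent.H621.RK (exists_crt nodal_pow_dvd aeval_zero_of aeval_eq_of comp_dvd)

section lem

variable {R : Type*} [Ring R] [Algebra ℂ R]

/-- The polynomials of the generalized eigenprojectors. -/
theorem exists_e (s : Finset ℂ) (N : ℕ) : ∃ e : ℂ → ℂ[X], (∀ a, ∀ b ∈ s,
    (X - C b) ^ N ∣ e a - C (if b = a then 1 else 0)) := by
  have h : ∀ a : ℂ, ∃ Q : ℂ[X], ∀ b ∈ s, (X - C b) ^ N ∣ Q - C (if b = a then 1 else 0) :=
    fun a => exists_crt s N fun b => if b = a then 1 else 0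
  choose e he using h
  exact ⟨e, he⟩

theorem sum_e {a : R} {s : Finset ℂ} {N : ℕ} (ha : aeval a (Lagrange.nodal s id ^ N) = 0)
    {e : ℂ → ℂ[X]} (he : ∀ a, ∀ b ∈ s, (X - C b) ^ N ∣ e a - C (if b = a then 1 else 0)) :
    ∑ x ∈ s, aeval a (e x) = 1 := by
  have h1 : aeval a (∑ x ∈ s, e x) = aeval a (1 : ℂ[X]) := by
    refine aeval_eq_of ha fun b hb => ?_
    have h2 : ∑ x ∈ s, e x - 1 = ∑ x ∈ s, (e x - C (if b = x then 1 else 0)) := by
      rw [Finset.sum_sub_distrib]
      congr 1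
      rw [← map_sum, Finset.sum_ite_eq, if_pos hb, C_1]
    rw [h2]
    exact Finset.dvd_sum fun x _ => he x b hb
  rw [map_sum, map_one] at h1
  exact h1

theorem pow_e {a : R} {s : Finset ℂ} {N : ℕ} (ha : aeval a (Lagrange.nodal s id ^ N) = 0)
    {e : ℂ → ℂ[X]} (he : ∀ a, ∀ b ∈ s, (X - C b) ^ N ∣ e a - C (if b = a then 1 else 0))
    {x : ℂ} {n : ℕ} (hn : N ≤ n) :
    (a - x • 1) ^ n * aeval a (e x) = 0 := by
  have h1 : (a - x • 1) ^ n * aeval a (e x) = aeval a ((X - C x) ^ n * e x) := by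
    rw [map_mul, map_pow, map_sub, aeval_X, aeval_C, Algebra.algebraMap_eq_smul_one]
  rw [h1]
  refine aeval_zero_of ha fun b hb => ?_
  by_cases hbx : b = x
  · subst hbx
    exact (pow_dvd_pow _ hn).mul_right _
  · have h2 := he x b hb
    rw [if_neg hbx, C_0, sub_zero] at h2
    exact h2.mul_left _

theorem rep_e {a : R} {s : Finset ℂ} {N : ℕ} (ha : aeval a (Lagrange.nodal s id ^ N) = 0)
    {e : ℂ → ℂ[X]} (he : ∀ a, ∀ b ∈ s, (X - C b) ^ N ∣ e a - C (if b = a then 1 else 0))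
    {x : ℂ} {P : ℂ[X]} {c : ℂ} (hP : (X - C x) ^ N ∣ P - C c) :
    aeval a P * aeval a (e x) = c • aeval a (e x) := by
  obtain ⟨T, hT⟩ := hP
  have h1 : P = (X - C x) ^ N * T + C c := by rw [← hT, sub_add_cancel]
  have h2 := pow_e ha he (x := x) le_rfl
  have h3 : aeval a ((X - C x) ^ N) = (a - x • 1) ^ N := by
    rw [map_pow, map_sub, aeval_X, aeval_C, Algebra.algebraMap_eq_smul_one]
  rw [h1, map_add, map_mul, aeval_C, Algebra.algebraMap_eq_smul_one, add_mul, smul_mul_assoc,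
    one_mul, h3]
  have h4 : (a - x • 1) ^ N * aeval a T * aeval a (e x) =
      aeval a T * ((a - x • 1) ^ N * aeval a (e x)) := by
    rw [← h3, ← map_mul, ← map_mul, ← map_mul, ← map_mul]
    congr 1
    ring
  rw [h4, h2, mul_zero, zero_add]

theorem comm_aeval {a b : R} (h : Commute a b) (P Q : ℂ[X]) : Commute (aeval a P) (aeval b Q) := by
  have h1 : ∀ P : ℂ[X], Commute (aeval a P) b := fun P =>
    Algebra.commute_of_mem_adjoin_singleton_of_commute (aeval_mem_adjoin_singleton ℂ a) h.symm |>.symm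
  exact Algebra.commute_of_mem_adjoin_singleton_of_commute (aeval_mem_adjoin_singleton ℂ b) (h1 P)

/-- The vanishing of the powers on the joint generalized eigenspaces. -/
theorem pow_ee {a b : R} (hab : Commute a b) {s t : Finset ℂ} {M N L : ℕ}
    (ha : aeval a (Lagrange.nodal s id ^ M) = 0) (hb : aeval b (Lagrange.nodal t id ^ N) = 0)
    (hL : M + N ≤ L) {e f : ℂ → ℂ[X]}
    (he : ∀ a, ∀ b ∈ s, (X - C b) ^ M ∣ e a - C (if b = a then 1 else 0))
    (hf : ∀ a, ∀ b ∈ t, (X - C b) ^ N ∣ f a - C (if b = a then 1 else 0)) (x y : ℂ) :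
    (a + b - (x + y) • 1) ^ L * (aeval a (e x) * aeval b (f y)) = 0 := by
  have h1 : a + b - (x + y) • 1 = (a - x • 1) + (b - y • 1) := by
    rw [add_smul]
    abel
  have h2 : Commute (a - x • 1) (b - y • 1) := by
    have e1 : a - x • 1 = aeval a (X - C x) := by
      rw [map_sub, aeval_X, aeval_C, Algebra.algebraMap_eq_smul_one]
    have e2 : b - y • 1 = aeval b (X - C y) := by
      rw [map_sub, aeval_X, aeval_C, Algebra.algebraMap_eq_smul_one]
    rw [e1, e2]
    exact comm_aeval hab _ _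
  rw [h1, h2.add_pow, Finset.sum_mul]
  refine Finset.sum_eq_zero fun m hm => ?_
  have h3 : Commute ((b - y • 1) ^ (L - m)) (aeval a (e x)) := by
    have e2 : (b - y • 1) ^ (L - m) = aeval b ((X - C y) ^ (L - m)) := by
      rw [map_pow, map_sub, aeval_X, aeval_C, Algebra.algebraMap_eq_smul_one]
    rw [e2]
    exact (comm_aeval hab _ _).symm
  have h4 : (a - x • 1) ^ m * (b - y • 1) ^ (L - m) * ((L.choose m : ℕ) : R) *
      (aeval a (e x) * aeval b (f y)) = ((L.choose m : ℕ) : R) *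
      (((a - x • 1) ^ m * aeval a (e x)) * ((b - y • 1) ^ (L - m) * aeval b (f y))) := by
    rw [← (Nat.cast_commute (L.choose m) ((a - x • 1) ^ m * (b - y • 1) ^ (L - m))).eq, mul_assoc,
      mul_assoc, mul_assoc, ← mul_assoc ((b - y • 1) ^ (L - m)), h3.eq]
    simp only [mul_assoc]
  rw [h4]
  rcases le_total M m with h5 | h5
  · rw [pow_e ha he h5, zero_mul, mul_zero]
  · rw [pow_e hb hf (show N ≤ L - m by omega), mul_zero, mul_zero]

theorem of_ee {a b : R} {s t : Finset ℂ} {M N : ℕ}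
    (ha : aeval a (Lagrange.nodal s id ^ M) = 0) (hb : aeval b (Lagrange.nodal t id ^ N) = 0)
    {e f : ℂ → ℂ[X]}
    (he : ∀ a, ∀ b ∈ s, (X - C b) ^ M ∣ e a - C (if b = a then 1 else 0))
    (hf : ∀ a, ∀ b ∈ t, (X - C b) ^ N ∣ f a - C (if b = a then 1 else 0)) {z : R}
    (h : ∀ x ∈ s, ∀ y ∈ t, z * (aeval a (e x) * aeval b (f y)) = 0) : z = 0 := by
  have h1 : z = z * ((∑ x ∈ s, aeval a (e x)) * ∑ y ∈ t, aeval b (f y)) := by
    rw [sum_e ha he, sum_e hb hf, mul_one, mul_one]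
  rw [h1, Finset.sum_mul_sum, Finset.mul_sum]
  refine Finset.sum_eq_zero fun x hx => ?_
  rw [Finset.mul_sum]
  exact Finset.sum_eq_zero fun y hy => h x hx y hy

theorem add_alg {a b : R} (hab : Commute a b) {s t u : Finset ℂ} {M N L : ℕ}
    (ha : aeval a (Lagrange.nodal s id ^ M) = 0) (hb : aeval b (Lagrange.nodal t id ^ N) = 0)
    (hu : ∀ x ∈ s, ∀ y ∈ t, x + y ∈ u) (hL : M + N ≤ L) :
    aeval (a + b) (Lagrange.nodal u id ^ L) = 0 := by
  obtain ⟨e, he⟩ := exists_e s M
  obtain ⟨f, hf⟩ := exists_e t N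
  refine of_ee ha hb he hf fun x hx y hy => ?_
  have h1 : (X - C (x + y) : ℂ[X]) ^ L ∣ Lagrange.nodal u (id : ℂ → ℂ) ^ L := by
    refine pow_dvd_pow_of_dvd ?_ L
    rw [dvd_iff_isRoot]
    exact Lagrange.eval_nodal_at_node (v := id) (hu x hx y hy)
  obtain ⟨T, hT⟩ := h1
  have h2 : aeval (a + b) (Lagrange.nodal u (id : ℂ → ℂ) ^ L) =
      aeval (a + b) T * (a + b - (x + y) • 1) ^ L := by
    rw [hT, mul_comm, map_mul, map_pow, map_sub, aeval_X, aeval_C,
      Algebra.algebraMap_eq_smul_one]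
  rw [h2, mul_assoc, pow_ee hab ha hb hL he hf, mul_zero]

/-- **Replicas of the sum of two commuting operators.** -/
theorem add_rep {a b : R} (hab : Commute a b) {s t u : Finset ℂ} {M N L : ℕ}
    (ha : aeval a (Lagrange.nodal s id ^ M) = 0) (hb : aeval b (Lagrange.nodal t id ^ N) = 0)
    (hu : ∀ x ∈ s, ∀ y ∈ t, x + y ∈ u) (hL : M + N ≤ L) (σ : ℂ →+ ℂ) {P Q T : ℂ[X]}
    (hP : ∀ x ∈ s, (X - C x) ^ M ∣ P - C (σ x)) (hQ : ∀ x ∈ t, (X - C x) ^ N ∣ Q - C (σ x))
    (hT : ∀ x ∈ u, (X - C x) ^ L ∣ T - C (σ x)) :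
    aeval (a + b) T = aeval a P + aeval b Q := by
  obtain ⟨e, he⟩ := exists_e s M
  obtain ⟨f, hf⟩ := exists_e t N
  rw [← sub_eq_zero]
  refine of_ee ha hb he hf fun x hx y hy => ?_
  obtain ⟨T', hT'⟩ := hT _ (hu x hx y hy)
  have h1 : aeval (a + b) T * (aeval a (e x) * aeval b (f y)) =
      (σ x + σ y) • (aeval a (e x) * aeval b (f y)) := by
    have e1 : T = T' * (X - C (x + y)) ^ L + C (σ (x + y)) := by
      rw [mul_comm T', ← hT', sub_add_cancel]
    rw [e1, map_add, map_mul, map_pow, map_sub, aeval_X, aeval_C, aeval_C,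
      Algebra.algebraMap_eq_smul_one, Algebra.algebraMap_eq_smul_one, add_mul, mul_assoc,
      pow_ee hab ha hb hL he hf, mul_zero, zero_add, smul_mul_assoc, one_mul, map_add]
  have h2 : aeval a P * (aeval a (e x) * aeval b (f y)) =
      σ x • (aeval a (e x) * aeval b (f y)) := by
    rw [← mul_assoc, rep_e ha he (hP x hx), smul_mul_assoc]
  have h3 : aeval b Q * (aeval a (e x) * aeval b (f y)) =
      σ y • (aeval a (e x) * aeval b (f y)) := by
    rw [← mul_assoc, (comm_aeval hab (e x) Q).symm.eq, mul_assoc, rep_e hb hf (hQ y hy),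
      mul_smul_comm]
  rw [sub_mul, add_mul, h1, h2, h3, add_smul, sub_self]

/-- **Replicas of sums of commuting operators.** -/
theorem sum_rep {ι : Type*} [DecidableEq ι] (J : Finset ι) {a : ι → R}
    (hc : ∀ i j, Commute (a i) (a j)) {s : ι → Finset ℂ} {N : ℕ}
    (h : ∀ i, aeval (a i) (Lagrange.nodal (s i) id ^ N) = 0) :
    ∃ (u : Finset ℂ) (L : ℕ), (0 : ℂ) ∈ u ∧ 1 ≤ L ∧
      aeval (∑ i ∈ J, a i) (Lagrange.nodal u id ^ L) = 0 ∧
      ∀ (σ : ℂ →+ ℂ) (Q : ι → ℂ[X]) (T : ℂ[X]),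
        (∀ i, ∀ x ∈ s i, (X - C x) ^ N ∣ Q i - C (σ x)) →
        (∀ x ∈ u, (X - C x) ^ L ∣ T - C (σ x)) →
        aeval (∑ i ∈ J, a i) T = ∑ i ∈ J, aeval (a i) (Q i) := by
  classical
  induction J using Finset.induction_on with
  | empty =>
    refine ⟨{0}, 1, Finset.mem_singleton_self _, le_rfl, ?_, fun σ Q T _ hT => ?_⟩
    · have e1 : Lagrange.nodal ({0} : Finset ℂ) (id : ℂ → ℂ) = X := by
        unfold Lagrange.nodal
        rw [Finset.prod_singleton, id, C_0, sub_zero]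
      rw [pow_one, e1, aeval_X, Finset.sum_empty]
    · have h1 := hT 0 (Finset.mem_singleton_self _)
      rw [pow_one, C_0, sub_zero, map_zero, C_0, sub_zero] at h1
      obtain ⟨T', hT'⟩ := h1
      rw [Finset.sum_empty, Finset.sum_empty, hT', map_mul, aeval_X, zero_mul]
  | insert i J hi ih =>
    obtain ⟨u, L, h0, h1, h2, h3⟩ := ih
    have hcm : Commute (a i) (∑ j ∈ J, a j) := Commute.sum_right _ _ _ fun j _ => hc i j
    refine ⟨insert 0 (((s i) ×ˢ u).image fun p => p.1 + p.2), N + L, Finset.mem_insert_self _ _,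
      by omega, ?_, fun σ Q T hQ hT => ?_⟩
    · rw [Finset.sum_insert hi]
      exact add_alg hcm (h i) h2 (fun x hx y hy => Finset.mem_insert_of_mem
        (Finset.mem_image.2 ⟨(x, y), Finset.mem_product.2 ⟨hx, hy⟩, rfl⟩)) le_rfl
    · obtain ⟨T', hT'⟩ := exists_crt u L σ
      rw [Finset.sum_insert hi, Finset.sum_insert hi, ← h3 σ Q T' hQ hT']
      exact add_rep hcm (h i) h2 (fun x hx y hy => Finset.mem_insert_of_mem
        (Finset.mem_image.2 ⟨(x, y), Finset.mem_product.2 ⟨hx, hy⟩, rfl⟩)) le_rfl σ (hQ i) hT' hT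

end lem

/-- **Vectors killed by sums of commuting operators.** -/
theorem kills_sum {V ι : Type*} [AddCommGroup V] [Module ℂ V] [Fintype ι] [DecidableEq ι]
    {a : ι → Module.End ℂ V} (hc : ∀ i j, Commute (a i) (a j)) {s : ι → Finset ℂ} {N : ℕ}
    (h : ∀ i, aeval (a i) (Lagrange.nodal (s i) id ^ N) = 0) (σ : ℂ →+ ℂ) {Q : ι → ℂ[X]}
    (hQ : ∀ i, ∀ x ∈ s i, (X - C x) ^ N ∣ Q i - C (σ x)) {v : V} (hv : ∑ i, a i v = 0) :
    ∑ i, (aeval (a i) (Q i)) v = 0 := by
  obtain ⟨u, L, h0, h1, h2, h3⟩ := sum_rep Finset.univ hc h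
  obtain ⟨T, hT⟩ := exists_crt u L σ
  have h4 := h3 σ Q T hQ hT
  have h5 := congrArg (fun Z : Module.End ℂ V => Z v) h4
  simp only [LinearMap.sum_apply] at h5
  rw [← h5]
  have h6 := (dvd_pow_self (X - C 0 : ℂ[X]) (by omega : L ≠ 0)).trans (hT 0 h0)
  rw [C_0, sub_zero, map_zero, C_0, sub_zero] at h6
  obtain ⟨T', hT'⟩ := h6
  have h7 : (∑ i, a i) v = 0 := by
    rw [LinearMap.sum_apply]
    exact hv
  rw [hT', mul_comm, map_mul, aeval_X, Module.End.mul_apply, h7, map_zero]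

/-! ### Slots -/

section slots

variable {V W κ : Type*} [AddCommGroup V] [Module ℂ V] [AddCommGroup W] [Module ℂ W] [Fintype κ]
  [DecidableEq κ]

/-- the action in one variable -/
def slotM (W : Type*) [AddCommGroup W] [Module ℂ W] (T : Module.End ℂ V) (k : κ) :
    Module.End ℂ (MultilinearMap ℂ (fun _ : κ => V) W) where
  toFun φ := φ.compLinearMap (Function.update (fun _ => LinearMap.id) k T)
  map_add' φ ψ := by
    ext v
    rfl
  map_smul' a φ := by
    ext v
    rfl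

theorem slotM_apply (T : Module.End ℂ V) (k : κ) (φ : MultilinearMap ℂ (fun _ : κ => V) W)
    (v : κ → V) : slotM W T k φ v = φ (Function.update v k (T (v k))) := by
  change φ (fun i => (Function.update (fun _ => LinearMap.id) k T : κ → (V →ₗ[ℂ] V)) i (v i)) = _
  congr 1
  funext i
  by_cases hi : i = k
  · subst hi
    rw [Function.update_self, Function.update_self]
  · rw [Function.update_of_ne hi, Function.update_of_ne hi]
    rfl

theorem slotM_mul (S T : Module.End ℂ V) (k : κ) :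
    slotM W S k * slotM W T k = slotM W (T * S) k := by
  refine LinearMap.ext fun φ => ?_
  ext v
  rw [Module.End.mul_apply, slotM_apply, slotM_apply, slotM_apply, Function.update_self,
    Function.update_idem]
  rfl

theorem slotM_one (k : κ) : slotM W (1 : Module.End ℂ V) k = 1 := by
  refine LinearMap.ext fun φ => ?_
  ext v
  rw [slotM_apply, Module.End.one_apply, Function.update_eq_self]
  rfl

theorem slotM_add (S T : Module.End ℂ V) (k : κ) :
    slotM W (S + T) k = slotM W S k + slotM W T k := by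
  refine LinearMap.ext fun φ => ?_
  ext v
  rw [slotM_apply, LinearMap.add_apply, MultilinearMap.map_update_add]
  change _ = slotM W S k φ v + slotM W T k φ v
  rw [slotM_apply, slotM_apply]

theorem slotM_smul (a : ℂ) (T : Module.End ℂ V) (k : κ) :
    slotM W (a • T) k = a • slotM W T k := by
  refine LinearMap.ext fun φ => ?_
  ext v
  rw [slotM_apply, LinearMap.smul_apply, MultilinearMap.map_update_smul]
  change _ = a • slotM W T k φ v
  rw [slotM_apply]

theorem slotM_zero (k : κ) : slotM W (0 : Module.End ℂ V) k = 0 := by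
  have h := slotM_smul (W := W) 0 (0 : Module.End ℂ V) k
  rwa [zero_smul, zero_smul] at h

theorem slotM_aeval (T : Module.End ℂ V) (k : κ) (P : ℂ[X]) :
    aeval (slotM W T k) P = slotM W (aeval T P) k := by
  induction P using Polynomial.induction_on with
  | C a =>
    rw [aeval_C, aeval_C, Algebra.algebraMap_eq_smul_one, Algebra.algebraMap_eq_smul_one,
      slotM_smul, slotM_one]
  | add p q hp hq => rw [map_add, map_add, hp, hq, slotM_add]
  | monomial n a ih =>
    have e : (C a * X ^ (n + 1) : ℂ[X]) = X * (C a * X ^ n) := by ring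
    rw [e, map_mul (aeval (slotM W T k)) X, map_mul (aeval T) X, ih, aeval_X, aeval_X, slotM_mul]
    congr 1
    have h1 : aeval T (C a * X ^ n : ℂ[X]) * aeval T (X : ℂ[X]) =
        aeval T (X : ℂ[X]) * aeval T (C a * X ^ n : ℂ[X]) := by
      rw [← map_mul, ← map_mul, mul_comm]
    rw [aeval_X] at h1
    exact h1

theorem slotM_comm {S T : Module.End ℂ V} (h : S * T = T * S) (k l : κ) :
    Commute (slotM W S k) (slotM W T l) := by
  by_cases hkl : k = l
  · subst hkl
    change slotM W S k * slotM W T k = slotM W T k * slotM W S k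
    rw [slotM_mul, slotM_mul, h]
  · refine LinearMap.ext fun φ => ?_
    ext v
    rw [Module.End.mul_apply, Module.End.mul_apply, slotM_apply, slotM_apply, slotM_apply,
      slotM_apply, Function.update_of_ne hkl, Function.update_of_ne (Ne.symm hkl),
      Function.update_comm hkl]

end slots

/-- **Replicas kill the same multilinear forms**, for arbitrary endomorphisms. -/
theorem kills_replica' {V : Type} [AddCommGroup V] [Module ℂ V] {κ : Type} [Fintype κ]
    [DecidableEq κ] {T : Module.End ℂ V} {s : Finset ℂ} {N : ℕ}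
    (hT : aeval T (Lagrange.nodal s id ^ N) = 0) (σ : ℂ →+ ℂ) {Q : ℂ[X]}
    (hQ : ∀ a ∈ s, (X - C a) ^ N ∣ Q - C (σ a)) {φ : MultilinearMap ℂ (fun _ : κ => V) ℂ}
    (h : Kills T φ) : Kills (aeval T Q) φ := by
  have h1 : ∑ k : κ, slotM ℂ T k φ = 0 := by
    ext v
    rw [_root_.sum_apply]
    exact (Finset.sum_congr rfl fun k _ => slotM_apply T k φ v).trans (h v)
  have h3 := kills_sum (a := fun k : κ => slotM ℂ T k) (fun i j => slotM_comm rfl i j)
    (s := fun _ => s) (N := N) (fun i => by rw [slotM_aeval, hT, slotM_zero]) σ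
    (Q := fun _ => Q) (fun _ => hQ) h1
  intro v
  have h4 := congrArg (fun ψ : MultilinearMap ℂ (fun _ : κ => V) ℂ => ψ v) h3
  simp only [_root_.sum_apply] at h4
  have h5 : (0 : MultilinearMap ℂ (fun _ : κ => V) ℂ) v = 0 := rfl
  rw [h5] at h4
  rw [← h4]
  refine Finset.sum_congr rfl fun k _ => ?_
  rw [slotM_aeval, slotM_apply]

/-- Replicas of the elements of the complex Lie algebra of the Hodge group. -/
theorem NS_rep' {h : ℕ} {A : AbVar h} {α : Matrix (Fin (2 * h)) (Fin (2 * h)) ℂ} (hα : α ∈ RM.NS A)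
    {s : Finset ℂ} {N : ℕ} (hs : aeval α (Lagrange.nodal s id ^ N) = 0) (σ : ℂ →+ ℂ) {Q : ℂ[X]}
    (hQ : ∀ a ∈ s, (X - C a) ^ N ∣ Q - C (σ a)) : aeval α Q ∈ RM.NS A := by
  let e := LinearMap.toMatrixAlgEquiv (A.bas.baseChange ℂ)
  obtain ⟨T, hT⟩ : ∃ T : Module.End ℂ (ℂ ⊗[ℚ] A.H1), e T = αᵀ := ⟨e.symm αᵀ, e.apply_symm_apply _⟩
  have hae : ∀ P : ℂ[X], e (aeval T P) = (aeval α P)ᵀ := by
    intro P
    rw [← Polynomial.aeval_algHom_apply, hT, aeval_transpose]
  have hT0 : aeval T (Lagrange.nodal s id ^ N) = 0 := by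
    apply e.injective
    rw [hae, hs, Matrix.transpose_zero, map_zero]
  have hTN : ∀ mu : ℂ →ₗ[ℚ] ℚ, Pool.Agent.W516.DR.cmpE mu T ∈ A.NA := by
    intro mu
    obtain ⟨Y, hY, h1⟩ := RM.mem_NS_iff.1 hα mu
    have h2 : rm (Pool.Agent.W516.DR.cmpE mu T) = rm Y := by
      rw [RM.rm_cmpE', h1]
      change (e T)ᵀ.map _ = _
      rw [hT, Matrix.transpose_transpose]
    rw [rm_inj' h2]
    exact hY
  rw [RM.mem_NS_iff]
  intro lam
  refine ⟨Pool.Agent.W516.DR.cmpE lam (aeval T Q), ?_, ?_⟩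
  · intro m φ h1 h2
    refine (kills_bcm_iff A.bas φ _).1 (kills_replica' hT0 σ hQ ?_) lam
    rw [kills_bcm_iff]
    intro mu
    exact hTN mu m φ h1 h2
  · rw [RM.rm_cmpE']
    change (e (aeval T Q))ᵀ.map _ = _
    rw [hae, Matrix.transpose_transpose]

end Pool.Agent.H621.CY
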