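import Pool.Agent.R917.DT.Cms

set_option autoImplicit false
set_option linter.unusedSectionVars false
set_option linter.unusedSimpArgs false

/-!
# Ideals in the Lie algebra of the Hodge group of a product of elliptic curves
-/

open Module Function TensorProduct Matrix

noncomputable section

namespace Pool.Agent.H621.CY

open Pool.Agent.Y102 Pool.Agent.W516.DR Pool.Agent.H204R3.GP Pool.Agent.W516.KC
  Pool.Agent.H204R3.SP Pool.Agent.TH119.MX Pool.Agent.R917.OM Pool.Agent.Y102.AbVar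
  Pool.Agent.R917.DT

open Pool.Agent.R917.GL (CP EC HC CC CC_of_cx CC_of_Cm M2 tz lb eq_zero_of_cmpE cmpE_mul_bc
  bc_zero_iff mem_cx_EA)

variable {g : ℕ} {A : AbVar g} {K : Type} [Fintype K] {P : K → Module.End ℚ A.H1}

/-- The planes given by rational projectors. -/
theorem exists_CP (hmem : ∀ k, P k ∈ A.EA) (hid : ∀ k, P k * P k = P k)
    (hrk : ∀ k, finrank ℚ (LinearMap.range (P k)) = 2)
    (hiso : ∀ i j, i ≠ j → (∃ T ∈ A.EA, P j * T * P i ≠ 0) ∨
      ∀ T : Module.End ℚ A.H1, (∃ F : (Fin g → ℂ) →ₗ[ℂ] (Fin g → ℂ), ∀ w,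
        F (A.per w) = A.per (T w)) → P j * T * P i = 0) :
    ∃ S : CP A K, S.Rt P ∧ ∀ k, S.pr k = (P k).baseChange ℂ := by
  classical
  have hid' : ∀ k, ((P k).baseChange ℂ : EC A) * (P k).baseChange ℂ = (P k).baseChange ℂ :=
    fun k => by rw [← bc_mul, hid]
  have htr : ∀ k, LinearMap.trace ℂ (ℂ ⊗[ℚ] A.H1) ((P k).baseChange ℂ) = 2 := by
    intro k
    rw [LinearMap.trace_baseChange, Pool.Agent.R917.EC.trace_of_finrank (hid k) (hrk k), map_ofNat]
  have hbp := fun k => Pool.Agent.R917.GL.exists_bpF (hid' k)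
    (Pool.Agent.R917.EC.finrank_of_trace (hid' k) (htr k))
  choose b p hpb hbp using hbp
  have hPb : ∀ k v, ((P k).baseChange ℂ : EC A) (b k v) = b k v := fun k v => by
    rw [← hbp k, LinearMap.comp_apply, hpb]
  have hbp1 : ∀ k w, b k (p k w) = ((P k).baseChange ℂ : EC A) w := fun k w =>
    congrArg (fun T : (ℂ ⊗[ℚ] A.H1) →ₗ[ℂ] (ℂ ⊗[ℚ] A.H1) => T w) (hbp k)
  let N : Set K := {k | ∀ T ∈ A.EA, ∃ z : ℂ,
    ((P k).baseChange ℂ : EC A) * T.baseChange ℂ * (P k).baseChange ℂ = z • (P k).baseChange ℂ}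
  have hns : ∀ k, k ∉ N → ∃ T ∈ A.EA, ¬ ∃ z : ℚ, P k * T * P k = z • P k := by
    intro k hk
    by_contra hcon
    push Not at hcon
    apply hk
    intro T hT
    obtain ⟨z, hz⟩ := hcon T hT
    refine ⟨z, ?_⟩
    rw [← bc_mul, ← bc_mul, hz, LinearMap.baseChange_smul, Rat.cast_smul_eq_qsmul]
  let S : CP A K :=
    { b := b
      p := p
      pb := hpb
      mem := fun k => by
        rw [hbp]
        exact bc_mem (hmem k)
      N := N
      sc := by
        intro k hk T hT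
        obtain ⟨z, hz⟩ := hk T hT
        refine ⟨z, fun v => ?_⟩
        have h1 := congrArg (fun Z : EC A => p k (Z (b k v))) hz
        simp only [Module.End.mul_apply, LinearMap.smul_apply, map_smul] at h1
        rw [hPb, hpb] at h1
        rw [← hbp1, hpb] at h1
        exact h1
      tzN := by
        intro k hk X hX
        apply Pool.Agent.R917.GL.tz_of_trace
        rw [Pool.Agent.R917.EC.trace_toMatrix, hbp, ← bc_mul, LinearMap.trace_baseChange,
          Pool.Agent.R917.EC.trace_rat (hmem k) (hid k) (hrk k) hX, map_zero]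
      com := by
        intro k hk X hX Y hY v
        obtain ⟨T, hT, hT0⟩ := hns k hk
        have h1 := Pool.Agent.R917.EC.rat_com (hmem k) (hid k) (hrk k) hT hT0 hX hY
        have h2 := congrArg (fun Z : Module.End ℚ A.H1 => (Z.baseChange ℂ : EC A) (b k v)) h1
        rw [bc_mul, Module.End.mul_apply, hPb, LinearMap.baseChange_zero,
          LinearMap.zero_apply] at h2
        exact h2 }
  refine ⟨S, ?_, fun k => hbp k⟩
  exact
    { eq := fun k _ => hbp k
      mem := fun k _ => hmem k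
      idem := fun k _ => hid k
      rk := fun k _ => hrk k
      nsc := fun k hk => hns k hk
      iso := fun i j _ _ hij => hiso i j hij }

/-- The data of the elliptic curves with complex multiplication. -/
theorem exists_CMS' {S : CP A K} (C : S.Reps P) (R : S.Rt P) (hsum : ∑ k, S.pr k = 1) :
    ∃ S' : Pool.Agent.R917.EC.CMS A {k // k ∈ C.Cm}, ∀ c, S'.pr c = P c.1 := by
  have hbp : ∀ c : {k : K // k ∈ C.Cm}, ∃ (b : (Fin 2 → ℚ) →ₗ[ℚ] A.H1)
      (p : A.H1 →ₗ[ℚ] (Fin 2 → ℚ)), (∀ v, p (b v) = v) ∧ b ∘ₗ p = P c.1 := fun c =>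
    Pool.Agent.R917.EC.exists_bp (R.idem c.1 (C.m1 c.1 c.2)) (R.rk c.1 (C.m1 c.1 c.2))
  choose b p hpb hbp using hbp
  have hbinj : ∀ c v, b c v = 0 → v = 0 := fun c v h => by
    rw [← hpb c v, h, map_zero]
  have hPb : ∀ c v, P c.1 (b c v) = b c v := fun c v => by
    rw [← hbp c, LinearMap.comp_apply, hpb]
  let L : Pool.Agent.R917.EC.PL A {k : K // k ∈ C.Cm} :=
    { b := b
      p := p
      pb := hpb
      mem := fun c => by
        rw [hbp]
        exact R.mem c.1 (C.m1 c.1 c.2)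
      ho := by
        intro c d hcd Q hQ
        have hcd' : c.1 ≠ d.1 := fun h => hcd (Subtype.ext h)
        rcases R.iso c.1 d.1 (C.m1 c.1 c.2) (C.m1 d.1 d.2) hcd' with h | h
        · exact absurd h (C.m2 c.1 c.2 d.1 d.2 hcd')
        · have h6 := h _ hQ
          refine Pool.Agent.R917.EC.EP.mat_ext fun v => ?_
          have h7 := congrArg (fun T : Module.End ℚ A.H1 => T (b c v)) h6
          simp only [Module.End.mul_apply, LinearMap.zero_apply] at h7
          rw [hPb] at h7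
          change P d.1 (b d (Q *ᵥ p c (b c v))) = 0 at h7
          rw [hPb, hpb] at h7
          rw [hbinj d _ h7, Matrix.zero_mulVec] }
  have hD : ∀ c : {k : K // k ∈ C.Cm}, ∃ D : Pool.Agent.R917.EC.M2, Pool.Agent.R917.EC.tz D ∧ D ≠ 0 ∧ L.up c c D ∈ A.EA := by
    intro c
    obtain ⟨T, hT, hns⟩ := R.nsc c.1 (C.m1 c.1 c.2)
    let S1 : Pool.Agent.R917.EC.PL A Unit := ⟨fun _ => b c, fun _ => p c, fun _ => hpb c, fun _ => by
      rw [hbp]
      exact R.mem c.1 (C.m1 c.1 c.2), fun c d hcd => absurd (Subsingleton.elim c d) hcd⟩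
    obtain ⟨D, h1, h2, h3⟩ := Pool.Agent.R917.EC.exists_D' S1 hT (by
      change ¬ ∃ z : ℚ, (b c ∘ₗ p c : Module.End ℚ A.H1) * T * (b c ∘ₗ p c) = z • (b c ∘ₗ p c)
      rw [hbp]
      exact hns)
    exact ⟨D, h1, h2, h3⟩
  choose D hD1 hD2 hD3 using hD
  refine ⟨Pool.Agent.R917.EC.CMS.mk L D hD1 hD2 hD3
    (fun 𝔥 h X hX Y hY => CP.rig R hsum h hX hY) ?_, fun c => hbp c⟩
  intro Z hZ hZc Y hY h0
  apply bc_zero_iff
  rw [bc_mul]
  have hZC := bc_mem hZ
  have hYC := CC_of_Cm hY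
  refine CP.inj C R hsum (CC.mul (CC_of_cx hZC) hYC) (fun c hc => ?_) fun c hc => ?_
  · have hcN := C.n1 c hc
    have h3 : S.xi (Z.baseChange ℂ) c = 0 := by
      have hcen : ∀ X ∈ cx A.NA, Z.baseChange ℂ * X = X * Z.baseChange ℂ := cx_comm fun X hX => by
        rw [← bc_mul, ← bc_mul, hZc X hX]
      obtain ⟨z, hz⟩ := S.sc_mat Pool.Agent.R917.EC.full_NA hcN (Q := S.xi (Z.baseChange ℂ) c) (fun X hX => by
        rw [← S.xi_mul (CC_of_cx hZC) (CC_of_cx hX), ← S.xi_mul (CC_of_cx hX) (CC_of_cx hZC),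
          hcen X hX])
      exact Pool.Agent.R917.GL.tz_of_scalar (S.xi_tz hcN hZC) hz
    rw [S.xi_mul (CC_of_cx hZC) hYC, h3, zero_mul]
  · have hcN := C.m1 c hc
    apply S.xi_eq_of_mul_pr
    rw [R.eq c hcN, ← bc_mul, ← bc_mul]
    have h4 : Z * Y * P c = 0 := by
      refine LinearMap.ext fun w => ?_
      have hPw : P c w = b ⟨c, hc⟩ (p ⟨c, hc⟩ w) :=
        congrArg (fun T : A.H1 →ₗ[ℚ] A.H1 => T w) (hbp ⟨c, hc⟩).symm
      have hcm : Pool.Agent.R917.EC.EP.Cm (Z * Y) := Pool.Agent.R917.EC.EP.Cm.mul (Pool.Agent.R917.EC.Cm_of_NA hZ) hY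
      have h5 := hcm _ (R.mem c hcN)
      have h6 := congrArg (fun T : Module.End ℚ A.H1 => T (P c w)) h5
      simp only [Module.End.mul_apply] at h6
      have h7 : P c (P c w) = P c w :=
        congrArg (fun T : Module.End ℚ A.H1 => T w) (R.idem c hcN)
      rw [h7] at h6
      have h8 := h0 ⟨c, hc⟩ (p ⟨c, hc⟩ w)
      change p ⟨c, hc⟩ ((Z * Y) (b ⟨c, hc⟩ (p ⟨c, hc⟩ w))) = 0 at h8
      rw [← hPw] at h8
      have h9 : P c (Z (Y (P c w))) = b ⟨c, hc⟩ (p ⟨c, hc⟩ (Z (Y (P c w)))) :=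
        congrArg (fun T : A.H1 →ₗ[ℚ] A.H1 => T (Z (Y (P c w)))) (hbp ⟨c, hc⟩).symm
      rw [Module.End.mul_apply, Module.End.mul_apply, h6, h9]
      rw [Module.End.mul_apply] at h8
      rw [h8, map_zero, LinearMap.zero_apply]
    rw [h4, LinearMap.baseChange_zero]


section cms

open Pool.Agent.R917.EC
open EP (Cm mat_ext v0 v0_ne)

variable {M : Type} [Finite M] (S : CMS A M)

/-- The central elements of the Lie algebra of the Hodge group. -/
theorem cms_Z (T : ∀ c : M, S.CMd c) (c : M) : ∃ Z ∈ A.NA, (∀ X ∈ A.NA, Z * X = X * Z) ∧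
    ∃ a : M → ℚ, a c = 1 ∧ (∀ e, e ≠ c → a e = 0) ∧ ∀ e, S.xi Z e = a e • (T e).D := by
  classical
  have := Fintype.ofFinite M
  -- the coordinates
  have hco : ∀ X ∈ A.NA, ∀ c : M, ∃ a : ℚ, S.xi X c = a • (T c).D := fun X hX c =>
    comm_of_sp (T c).tr (S.xi_tz hX c) (T c).ne (S.lb_of_up (Cm_of_NA hX) (T c).mem)
  have hder0 : ∀ X ∈ der A.NA, S.xi X = 0 := by
    intro X hX
    unfold der at hX
    induction hX using Submodule.span_induction with
    | mem X hX =>
      obtain ⟨P, hP, Q, hQ, rfl⟩ := hX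
      funext c
      rw [S.xi_lb (Cm_of_NA hP) (Cm_of_NA hQ)]
      obtain ⟨a, ha⟩ := hco P hP c
      obtain ⟨b, hb⟩ := hco Q hQ c
      rw [ha, hb, lb_smul_left, lb_smul_right]
      unfold Pool.Agent.R917.EC.lb
      rw [sub_self, smul_zero, smul_zero]
      rfl
    | zero => rw [map_zero]
    | add a b _ _ ha hb => rw [map_add, ha, hb, add_zero]
    | smul c a _ ha => rw [map_smul, ha, smul_zero]
  have hZ : ∀ c : M, ∃ Z ∈ A.NA, (∀ X ∈ A.NA, Z * X = X * Z) ∧
      S.xi Z = Pi.single c (T c).D := by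
    intro c
    have hli : LinearIndependent ℚ (fun c : M => (T c).del) :=
      li_delta (fun c => (T c).del_ne) (fun c => ⟨_, (T c).del_sq⟩)
        (fun c d hcd => (T c).indep (T d) hcd)
    have hli2 : LinearIndependent ℚ (fun c : M => (T c).ρ) := by
      rw [Fintype.linearIndependent_iff] at hli ⊢
      intro a ha c
      have h1 := hli (fun c => a c / (T c).q) (by
        have h2 := congrArg (fun r : ℝ => (-Complex.I) * (r : ℂ)) ha
        simp only [Complex.ofReal_sum, Complex.ofReal_zero, mul_zero, Finset.mul_sum] at h2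
        rw [← h2]
        refine Finset.sum_congr rfl fun c _ => ?_
        have h3 := (T c).del_sq
        have h4 := (T c).rho_ne
        have h5 := (T c).del_ne
        have h6 : (T c).del * (T c).ρ = Complex.I := by
          unfold PL.CMd.del
          rw [div_mul_cancel₀ _ h4]
        have h7 : ((T c).q : ℂ) ≠ 0 := by
          rw [← h3]
          exact pow_ne_zero 2 h5
        rw [Algebra.smul_def, Algebra.smul_def]
        change ((a c / (T c).q : ℚ) : ℂ) * (T c).del = (-Complex.I) * ((((a c : ℚ) : ℝ) *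
          (T c).ρ : ℝ) : ℂ)
        push_cast
        rw [div_mul_eq_mul_div, div_eq_iff h7, ← h3]
        have h8 : Complex.I * Complex.I = -1 := Complex.I_mul_I
        linear_combination (Complex.I * (a c : ℂ) * (T c).del) * h6 +
          ((a c : ℂ) * (T c).del) * h8)
      have h7 : ((T c).q : ℂ) ≠ 0 := by
        rw [← (T c).del_sq]
        exact pow_ne_zero 2 (T c).del_ne
      have h8 : (T c).q ≠ 0 := by exact_mod_cast h7
      exact (div_eq_zero_iff.1 (h1 c)).resolve_right h8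
    obtain ⟨f, hf⟩ := exists_lin hli2 (Pi.single c (1 : ℚ))
    have hJ := A.MA_le_NA (A.J_mem f)
    obtain ⟨Z, hZ, e, he, h1, h2⟩ := full_NA.dec hJ
    refine ⟨Z, hZ, h2, ?_⟩
    have h3 : S.xi Z = S.xi (A.cmpE f JJ) := by
      rw [h1, map_add, hder0 e he, add_zero]
    rw [h3]
    funext e
    rw [(T e).J f, hf e]
    by_cases hec : e = c
    · subst hec
      rw [Pi.single_eq_same, Pi.single_eq_same, one_smul]
    · rw [Pi.single_eq_of_ne hec, Pi.single_eq_of_ne hec, zero_smul]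
  obtain ⟨Z, h1, h2, h3⟩ := hZ c
  refine ⟨Z, h1, h2, fun e => if e = c then 1 else 0, if_pos rfl, fun e he => if_neg he,
    fun e => ?_⟩
  rw [h3]
  change _ = (if e = c then (1 : ℚ) else 0) • (T e).D
  by_cases hec : e = c
  · subst hec
    rw [Pi.single_eq_same, if_pos rfl, one_smul]
  · rw [Pi.single_eq_of_ne hec, if_neg hec, zero_smul]

include S in
/-- **Subalgebras which contain the derived algebra and act nontrivially on all elliptic curves with
complex multiplication.** -/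
theorem top_of_CMS {𝔥 : Submodule ℚ (Module.End ℚ A.H1)} (hle : ∀ {X}, X ∈ 𝔥 → X ∈ A.NA)
    (hder : ∀ X ∈ der A.NA, X ∈ 𝔥) (hRC : RC 𝔥) (hne : ∀ c : M, ∃ X ∈ 𝔥, S.xi X c ≠ 0) :
    ∀ X ∈ A.NA, X ∈ 𝔥 := by
  classical
  have := Fintype.ofFinite M
  have T : ∀ c : M, S.CMd c := fun c => (S.exists_CMd (S.tr c) (S.ne c) (S.memD c)).some
  -- the coordinates
  have hco : ∀ X ∈ A.NA, ∀ c : M, ∃ a : ℚ, S.xi X c = a • (T c).D := fun X hX c =>
    comm_of_sp (T c).tr (S.xi_tz hX c) (T c).ne (S.lb_of_up (Cm_of_NA hX) (T c).mem)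
  have hder0 : ∀ X ∈ der A.NA, S.xi X = 0 := by
    intro X hX
    unfold der at hX
    induction hX using Submodule.span_induction with
    | mem X hX =>
      obtain ⟨P, hP, Q, hQ, rfl⟩ := hX
      funext c
      rw [S.xi_lb (Cm_of_NA hP) (Cm_of_NA hQ)]
      obtain ⟨a, ha⟩ := hco P hP c
      obtain ⟨b, hb⟩ := hco Q hQ c
      rw [ha, hb, lb_smul_left, lb_smul_right]
      unfold Pool.Agent.R917.EC.lb
      rw [sub_self, smul_zero, smul_zero]
      rfl
    | zero => rw [map_zero]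
    | add a b _ _ ha hb => rw [map_add, ha, hb, add_zero]
    | smul c a _ ha => rw [map_smul, ha, smul_zero]
  have hZ : ∀ c : M, ∃ Z ∈ A.NA, (∀ X ∈ A.NA, Z * X = X * Z) ∧
      S.xi Z = Pi.single c (T c).D := by
    intro c
    have hli : LinearIndependent ℚ (fun c : M => (T c).del) :=
      li_delta (fun c => (T c).del_ne) (fun c => ⟨_, (T c).del_sq⟩)
        (fun c d hcd => (T c).indep (T d) hcd)
    have hli2 : LinearIndependent ℚ (fun c : M => (T c).ρ) := by
      rw [Fintype.linearIndependent_iff] at hli ⊢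
      intro a ha c
      have h1 := hli (fun c => a c / (T c).q) (by
        have h2 := congrArg (fun r : ℝ => (-Complex.I) * (r : ℂ)) ha
        simp only [Complex.ofReal_sum, Complex.ofReal_zero, mul_zero, Finset.mul_sum] at h2
        rw [← h2]
        refine Finset.sum_congr rfl fun c _ => ?_
        have h3 := (T c).del_sq
        have h4 := (T c).rho_ne
        have h5 := (T c).del_ne
        have h6 : (T c).del * (T c).ρ = Complex.I := by
          unfold PL.CMd.del
          rw [div_mul_cancel₀ _ h4]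
        have h7 : ((T c).q : ℂ) ≠ 0 := by
          rw [← h3]
          exact pow_ne_zero 2 h5
        rw [Algebra.smul_def, Algebra.smul_def]
        change ((a c / (T c).q : ℚ) : ℂ) * (T c).del = (-Complex.I) * ((((a c : ℚ) : ℝ) *
          (T c).ρ : ℝ) : ℂ)
        push_cast
        rw [div_mul_eq_mul_div, div_eq_iff h7, ← h3]
        have h8 : Complex.I * Complex.I = -1 := Complex.I_mul_I
        linear_combination (Complex.I * (a c : ℂ) * (T c).del) * h6 +
          ((a c : ℂ) * (T c).del) * h8)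
      have h7 : ((T c).q : ℂ) ≠ 0 := by
        rw [← (T c).del_sq]
        exact pow_ne_zero 2 (T c).del_ne
      have h8 : (T c).q ≠ 0 := by exact_mod_cast h7
      exact (div_eq_zero_iff.1 (h1 c)).resolve_right h8
    obtain ⟨f, hf⟩ := exists_lin hli2 (Pi.single c (1 : ℚ))
    have hJ := A.MA_le_NA (A.J_mem f)
    obtain ⟨Z, hZ, e, he, h1, h2⟩ := full_NA.dec hJ
    refine ⟨Z, hZ, h2, ?_⟩
    have h3 : S.xi Z = S.xi (A.cmpE f JJ) := by
      rw [h1, map_add, hder0 e he, add_zero]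
    rw [h3]
    funext e
    rw [(T e).J f, hf e]
    by_cases hec : e = c
    · subst hec
      rw [Pi.single_eq_same, Pi.single_eq_same, one_smul]
    · rw [Pi.single_eq_of_ne hec, Pi.single_eq_of_ne hec, zero_smul]
  choose Z hZ1 hZc hZ2 using hZ
  have hZC : ∀ c, Cm (Z c) := fun c => Cm_of_NA (hZ1 c)
  have hZZ : ∀ c d, c ≠ d → Z c * Z d = 0 := by
    intro c d hcd
    refine S.cen (Z c) (hZ1 c) (hZc c) (Z d) (hZC d) (S.xi_zero_of ?_)
    funext e
    rw [S.xi_mul (hZC c) (hZC d), hZ2, hZ2, Pi.zero_apply]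
    by_cases hec : e = c
    · rw [Pi.single_eq_of_ne (i := d) (fun e' => hcd (hec.symm.trans e')), mul_zero]
    · rw [Pi.single_eq_of_ne hec, zero_mul]
  have hZ3 : ∀ c, Z c * Z c * Z c = (T c).q • Z c := by
    intro c
    have hY : Cm (Z c * Z c - (T c).q • (1 : Module.End ℚ A.H1)) :=
      Cm_sub (EP.Cm.mul (hZC c) (hZC c)) (Cm_smul Cm_one _)
    have h1 := S.cen (Z c) (hZ1 c) (hZc c) _ hY (S.xi_zero_of (by
      rw [mul_sub, mul_smul_comm, mul_one, map_sub, map_smul, sub_eq_zero]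
      funext e
      rw [S.xi_mul (hZC c) (EP.Cm.mul (hZC c) (hZC c)), S.xi_mul (hZC c) (hZC c),
        Pi.smul_apply, hZ2]
      by_cases hec : e = c
      · subst hec
        rw [Pi.single_eq_same, (T e).DD, mul_smul_comm, mul_one]
      · rw [Pi.single_eq_of_ne hec, zero_mul, smul_zero]))
    rw [mul_sub, mul_smul_comm, mul_one, sub_eq_zero] at h1
    rw [mul_assoc]
    exact h1
  have hsum : ∀ (a : M → ℚ), S.xi (∑ c, a c • Z c) = fun e => a e • (T e).D := by
    intro a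
    funext e
    rw [map_sum, Finset.sum_apply, Finset.sum_eq_single e]
    · rw [map_smul, Pi.smul_apply, hZ2, Pi.single_eq_same]
    · intro c _ hc
      rw [map_smul, Pi.smul_apply, hZ2, Pi.single_eq_of_ne (Ne.symm hc), smul_zero]
    · intro h
      exact absurd (Finset.mem_univ _) h
  have hNA : ∀ a : M → ℚ, (∑ c, a c • Z c) ∈ A.NA := fun a =>
    Submodule.sum_mem _ fun c _ => A.NA.smul_mem _ (hZ1 c)
  have hNAc : ∀ a : M → ℚ, ∀ X ∈ A.NA, (∑ c, a c • Z c) * X = X * ∑ c, a c • Z c := by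
    intro a X hX
    rw [Finset.sum_mul, Finset.mul_sum]
    exact Finset.sum_congr rfl fun c _ => by
      rw [smul_mul_assoc, mul_smul_comm, hZc c X hX]
  -- the subspace
  let U : Submodule ℚ ((M → ℚ) × ℚ) :=
    { carrier := {v | (∑ c, v.1 c • Z c) ∈ 𝔥}
      zero_mem' := by
        change (∑ c, (0 : ℚ) • Z c) ∈ 𝔥
        rw [Finset.sum_eq_zero fun c _ => zero_smul _ _]
        exact 𝔥.zero_mem
      add_mem' := by
        intro v w hv hw
        change (∑ c, (v.1 c + w.1 c) • Z c) ∈ 𝔥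
        have h1 : ∑ c, (v.1 c + w.1 c) • Z c = ∑ c, v.1 c • Z c + ∑ c, w.1 c • Z c := by
          rw [← Finset.sum_add_distrib]
          exact Finset.sum_congr rfl fun c _ => add_smul _ _ _
        rw [h1]
        exact 𝔥.add_mem hv hw
      smul_mem' := by
        intro t v hv
        change (∑ c, (t * v.1 c) • Z c) ∈ 𝔥
        have h1 : ∑ c, (t * v.1 c) • Z c = t • ∑ c, v.1 c • Z c := by
          rw [Finset.smul_sum]
          exact Finset.sum_congr rfl fun c _ => mul_smul _ _ _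
        rw [h1]
        exact 𝔥.smul_mem _ hv }
  have hmem : ∀ v, v ∈ U ↔ (∑ c, v.1 c • Z c) ∈ 𝔥 := fun _ => Iff.rfl
  have hcc : ∀ X ∈ A.NA, (∀ Y ∈ A.NA, X * Y = Y * X) → ∀ a : M → ℚ,
      (∀ c : M, S.xi X c = a c • (T c).D) → X = ∑ c, a c • Z c := by
    intro X hX hXc a ha
    refine S.cen' hX hXc (hNA a) (hNAc a) ?_
    rw [hsum]
    exact funext ha
  have hUtop : U = ⊤ := by
    refine chr_top (δ := fun c : M => (T c).del) (fun c => (T c).del_ne)
      (fun c => ⟨_, (T c).del_sq⟩) (fun c => (T c).irr)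
      (fun c d hcd => (T c).indep (T d) hcd) ?_ ?_ ?_
    · rintro σ v hv _
      exact RC_central hRC (Z := Z) (δ := fun c : M => (T c).del)
        (q := fun c => (T c).q) (fun c => (T c).del_sq)
        (fun c => (T c).irr) hZZ hZ3 (a := v.1) hv σ
    · refine ⟨(0, 1), ?_, one_ne_zero⟩
      rw [hmem]
      change (∑ c, (0 : ℚ) • Z c) ∈ 𝔥
      rw [Finset.sum_eq_zero fun c _ => zero_smul _ _]
      exact 𝔥.zero_mem
    · intro c
      obtain ⟨X, hX, h1⟩ : ∃ X ∈ 𝔥, S.xi X c ≠ 0 := hne c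
      obtain ⟨Z', hZ', e, he, h2, h3⟩ := full_NA.dec (hle hX)
      have h4 := hder e he
      have h5 : X - e = Z' := sub_eq_iff_eq_add.2 h2
      have h6 : Z' ∈ 𝔥 := by
        rw [← h5]
        exact 𝔥.sub_mem hX h4
      choose a ha using hco _ hZ'
      refine ⟨(a, 0), (hmem _).2 ?_, fun h0 => ?_⟩
      · rw [← hcc Z' hZ' h3 a ha]
        exact h6
      · change a c = 0 at h0
        have h7 := ha c
        rw [h0, zero_smul, ← h5, map_sub, Pi.sub_apply, hder0 e he, Pi.zero_apply,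
          sub_zero] at h7
        exact h1 h7
  intro X hX
  obtain ⟨Z', hZ', e, he, h2, h3⟩ := full_NA.dec hX
  choose a ha using hco Z' hZ'
  have h6 : ((a, 0) : (M → ℚ) × ℚ) ∈ U := by rw [hUtop]; exact Submodule.mem_top
  rw [h2, hcc Z' hZ' h3 a ha]
  exact 𝔥.add_mem ((hmem _).1 h6) (hder e he)


end cms

/-! ### Ideals -/

theorem cx_ideal {𝔫 : Submodule ℚ (Module.End ℚ A.H1)}
    (hid : ∀ X ∈ A.NA, ∀ Y ∈ 𝔫, X * Y - Y * X ∈ 𝔫) :
    ∀ X ∈ cx A.NA, ∀ Y ∈ cx 𝔫, X * Y - Y * X ∈ cx 𝔫 := by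
  intro X hX
  induction hX using Submodule.span_induction with
  | mem X hX =>
    obtain ⟨X, hX, rfl⟩ := hX
    intro Y hY
    induction hY using Submodule.span_induction with
    | mem Y hY =>
      obtain ⟨Y, hY, rfl⟩ := hY
      rw [← bc_br]
      exact bc_mem (hid X hX Y hY)
    | zero => rw [mul_zero, zero_mul, sub_zero]; exact Submodule.zero_mem _
    | add a b _ _ ha hb =>
      have h1 := Submodule.add_mem _ ha hb
      convert h1 using 1
      rw [mul_add, add_mul]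
      abel
    | smul c a _ ha =>
      have h1 := Submodule.smul_mem _ c ha
      convert h1 using 1
      rw [mul_smul_comm, smul_mul_assoc, smul_sub]
  | zero => intro Y _; rw [mul_zero, zero_mul, sub_zero]; exact Submodule.zero_mem _
  | add a b _ _ ha hb =>
    intro Y hY
    have h1 := Submodule.add_mem _ (ha Y hY) (hb Y hY)
    convert h1 using 1
    rw [mul_add, add_mul]
    abel
  | smul c a _ ha =>
    intro Y hY
    have h1 := Submodule.smul_mem _ c (ha Y hY)
    convert h1 using 1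
    rw [mul_smul_comm, smul_mul_assoc, smul_sub]

open Pool.Agent.R917.GL.CP (xiC exists_lift Ix) in
/-- The elements of an ideal which are concentrated in one plane. -/
theorem ideal_single {S : CP A K} (C : S.Reps P) {𝔫 : Submodule ℚ (Module.End ℚ A.H1)}
    (hle : 𝔫 ≤ A.NA) (hid : ∀ X ∈ A.NA, ∀ Y ∈ 𝔫, X * Y - Y * X ∈ 𝔫) (c : Ix C) (hc : c.1 ∈ S.N)
    (hne : ∃ Y ∈ cx 𝔫, S.xi Y c.1 ≠ 0) {x : Pool.Agent.R917.GL.M2} (hx : tz x) : ∃ W ∈ cx 𝔫, xiC C W c = x ∧
      ∀ d, d ≠ c → xiC C W d = 0 := by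
  classical
  have hsingle : ∀ y : Pool.Agent.R917.GL.M2, tz y → ∃ Z ∈ cx A.NA, xiC C Z c = y ∧ ∀ d, d ≠ c → xiC C Z d = 0 := by
    intro y hy
    obtain ⟨Z, hZ, h1⟩ := exists_lift C Pool.Agent.R917.EC.full_NA
      (Pi.single c y) (fun d hd => by
        by_cases hdc : d = c
        · subst hdc
          rw [Pi.single_eq_same]
          exact hy
        · rw [Pi.single_eq_of_ne hdc]
          simp [tz]) (fun d hd => by
        by_cases hdc : d = c
        · subst hdc
          exact absurd hc hd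
        · rw [Pi.single_eq_of_ne hdc])
    refine ⟨Z, hZ, ?_, fun d hd => ?_⟩
    · rw [h1, Pi.single_eq_same]
    · rw [h1, Pi.single_eq_of_ne hd]
  let I : Submodule ℂ Pool.Agent.R917.GL.M2 :=
    { carrier := {v | ∃ W ∈ cx 𝔫, xiC C W c = v ∧ ∀ d, d ≠ c → xiC C W d = 0}
      zero_mem' := ⟨0, Submodule.zero_mem _, by rw [map_zero]; rfl, fun d _ => by
        rw [map_zero]; rfl⟩
      add_mem' := by
        rintro v w ⟨V, hV, h1, h2⟩ ⟨W, hW, h3, h4⟩
        refine ⟨V + W, Submodule.add_mem _ hV hW, ?_, fun d hd => ?_⟩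
        · rw [map_add, Pi.add_apply, h1, h3]
        · rw [map_add, Pi.add_apply, h2 d hd, h4 d hd, add_zero]
      smul_mem' := by
        rintro a v ⟨V, hV, h1, h2⟩
        refine ⟨a • V, Submodule.smul_mem _ _ hV, ?_, fun d hd => ?_⟩
        · rw [map_smul, Pi.smul_apply, h1]
        · rw [map_smul, Pi.smul_apply, h2 d hd, smul_zero] }
  have hlb : ∀ {Z W : EC A}, Z ∈ cx A.NA → W ∈ cx A.NA → ∀ d, xiC C (Z * W - W * Z) d =
      lb (xiC C Z d) (xiC C W d) := fun hZ hW d => S.xi_lb (CC_of_cx hZ) (CC_of_cx hW) d.1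
  have hlb0 : ∀ y : Pool.Agent.R917.GL.M2, lb y 0 = 0 := fun y => by
    unfold Pool.Agent.R917.GL.lb
    rw [mul_zero, zero_mul, sub_zero]
  have hlb0' : ∀ y : Pool.Agent.R917.GL.M2, lb 0 y = 0 := fun y => by
    unfold Pool.Agent.R917.GL.lb
    rw [mul_zero, zero_mul, sub_zero]
  obtain ⟨Y, hY, hYc⟩ := hne
  have hYtz : tz (S.xi Y c.1) := S.xi_tz hc (cx_mono hle hY)
  obtain ⟨y, hy, hy0⟩ := Pool.Agent.R917.GL.exists_lb hYtz hYc
  obtain ⟨Z, hZ, hZc, hZd⟩ := hsingle y hy
  have hI : ∀ v ∈ I, tz v := by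
    rintro v ⟨W, hW, h1, -⟩
    rw [← h1]
    exact S.xi_tz hc (cx_mono hle hW)
  have h₀ : lb y (S.xi Y c.1) ∈ I := by
    refine ⟨Z * Y - Y * Z, cx_ideal hid Z hZ Y hY, ?_, fun d hd => ?_⟩
    · rw [hlb hZ (cx_mono hle hY), hZc]
      rfl
    · rw [hlb hZ (cx_mono hle hY), hZd d hd, hlb0']
  have h1 := Pool.Agent.R917.GL.ideal_top hI (fun v hv y hy => by
    obtain ⟨W, hW, h1, h2⟩ := hv
    obtain ⟨Z', hZ', h3, h4⟩ := hsingle y hy
    refine ⟨Z' * W - W * Z', cx_ideal hid Z' hZ' W hW, ?_, fun d hd => ?_⟩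
    · rw [hlb hZ' (cx_mono hle hW), h3, h1]
    · rw [hlb hZ' (cx_mono hle hW), h2 d hd, hlb0]) h₀ (fun h => hy0 (by
      rw [Pool.Agent.R917.GL.lb_anti, h, neg_zero])) hx
  exact h1

theorem pr_sum {S : CP A K} (hpr : ∀ k, S.pr k = (P k).baseChange ℂ) (hsum : ∑ k, P k = 1) :
    ∑ k, S.pr k = 1 := by
  simp only [hpr]
  have h1 : (∑ k, (P k).baseChange ℂ : EC A) = (∑ k, P k).baseChange ℂ := by
    have h2 := map_sum (LinearMap.baseChangeHom ℚ ℂ A.H1 A.H1) P Finset.univ
    exact h2.symm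
  rw [h1, hsum]
  exact LinearMap.baseChange_id

open Pool.Agent.R917.GL.CP (xiC exists_lift Ix) in
/-- **Ideals which act nontrivially on all planes.** -/
theorem ideal_top' {S : CP A K} (R : S.Rt P) (hpr : ∀ k, S.pr k = (P k).baseChange ℂ)
    (hsum : ∑ k, P k = 1) {𝔫 : Submodule ℚ (Module.End ℚ A.H1)}
    (hle : 𝔫 ≤ A.NA) (hid : ∀ X ∈ A.NA, ∀ Y ∈ 𝔫, X * Y - Y * X ∈ 𝔫) (hRC : RC 𝔫)
    (hne : ∀ k, ∃ Y ∈ 𝔫, Y * P k ≠ 0) : ∀ X ∈ A.NA, X ∈ 𝔫 := by
  classical
  obtain ⟨C⟩ := S.exists_Reps P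
  have hsum' := pr_sum hpr hsum
  obtain ⟨S', hS'⟩ := exists_CMS' C R hsum'
  refine top_of_CMS S' (fun hX => hle hX) ?_ hRC fun c => ?_
  · intro X hX
    have h1 : der A.NA ≤ 𝔫 := by
      unfold der
      rw [Submodule.span_le]
      rintro _ ⟨U, hU, V, hV, rfl⟩
      have hZ : U * V - V * U ∈ A.NA := A.NA_bracket hU hV
      have h2 : ∀ c : Ix C, ∃ W ∈ cx 𝔫, xiC C W c = xiC C ((U * V - V * U).baseChange ℂ) c ∧
          ∀ d, d ≠ c → xiC C W d = 0 := by
        intro c
        by_cases hc : c.1 ∈ S.N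
        · refine ideal_single C hle hid c hc ?_ (S.xi_tz hc (bc_mem hZ))
          obtain ⟨Y, hY, h3⟩ := hne c.1
          refine ⟨_, bc_mem hY, fun h4 => h3 (bc_zero_iff ?_)⟩
          rw [bc_mul, ← hpr]
          exact S.mul_pr_eq (CC_of_cx (bc_mem (hle hY))) h4
        · refine ⟨0, Submodule.zero_mem _, ?_, fun d _ => by rw [map_zero]; rfl⟩
          rw [map_zero, bc_br]
          exact (S.xi_com hc (bc_mem hU) (bc_mem hV)).symm
      choose W hW h3 h4 using h2
      refine mem_of_bc ?_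
      have h5 : (U * V - V * U).baseChange ℂ - ∑ c, W c = 0 := by
        have hWN : ∑ c, W c ∈ cx A.NA := Submodule.sum_mem _ fun c _ => cx_mono hle (hW c)
        have h6 : ∀ c : Ix C, xiC C (∑ c, W c) c = xiC C ((U * V - V * U).baseChange ℂ) c := by
          intro c
          rw [map_sum, Finset.sum_apply, Finset.sum_eq_single c]
          · exact h3 c
          · intro d _ hd
            exact h4 d c (Ne.symm hd)
          · intro h
            exact absurd (Finset.mem_univ c) h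
        refine CP.inj C R hsum' (CC.sub (CC_of_cx (bc_mem hZ)) (CC_of_cx hWN)) (fun c hc => ?_)
          fun c hc => ?_
        · have h7 := h6 ⟨c, Or.inl hc⟩
          change S.xi (∑ c, W c) c = S.xi _ c at h7
          rw [map_sub, Pi.sub_apply, h7, sub_self]
        · have h7 := h6 ⟨c, Or.inr hc⟩
          change S.xi (∑ c, W c) c = S.xi _ c at h7
          rw [map_sub, Pi.sub_apply, h7, sub_self]
      rw [sub_eq_zero.1 h5]
      exact Submodule.sum_mem _ fun c _ => hW c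
    exact h1 hX
  · obtain ⟨Y, hY, h1⟩ := hne c.1
    refine ⟨Y, hY, fun h2 => h1 ?_⟩
    refine LinearMap.ext fun w => ?_
    have h3 := S'.apply_b (Pool.Agent.R917.EC.Cm_of_NA (hle hY)) c (S'.p c w)
    rw [h2, Matrix.zero_mulVec, map_zero] at h3
    have h4 : S'.b c (S'.p c w) = P c.1 w :=
      congrArg (fun T : Module.End ℚ A.H1 => T w) (hS' c)
    rw [h4] at h3
    exact h3

/-! ### Products of elliptic curves which are not isogenous -/

section noniso

variable (hmem : ∀ k, P k ∈ A.EA) (hidm : ∀ k, P k * P k = P k)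
  (hrk : ∀ k, finrank ℚ (LinearMap.range (P k)) = 2) (hsum : ∑ k, P k = 1)
  (hno : ∀ i j, i ≠ j → ∀ T : Module.End ℚ A.H1,
    (∃ F : (Fin g → ℂ) →ₗ[ℂ] (Fin g → ℂ), ∀ w, F (A.per w) = A.per (T w)) → P j * T * P i = 0)

include hsum hno in
theorem P_comm (k : K) : Pool.Agent.R917.EC.EP.Cm (P k) := by
  classical
  intro Q hQ
  have h1 : ∀ i j, i ≠ j → P j * Q * P i = 0 := fun i j hij => hno i j hij Q (Pool.Agent.R917.EC.hodge_lin hQ)
  have e1 : P k * Q = P k * Q * P k := by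
    conv_lhs => rw [← mul_one (P k * Q), ← hsum, Finset.mul_sum]
    exact Finset.sum_eq_single k (fun i _ hi => h1 i k hi) fun h => absurd (Finset.mem_univ _) h
  have e2 : Q * P k = P k * Q * P k := by
    conv_lhs => rw [← one_mul (Q * P k), ← hsum, Finset.sum_mul]
    simp only [← mul_assoc]
    exact Finset.sum_eq_single k (fun i _ hi => h1 k i (Ne.symm hi)) fun h =>
      absurd (Finset.mem_univ _) h
  rw [e1, e2]

include hno in
theorem P_orth {i j : K} (hij : i ≠ j) : P j * P i = 0 := by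
  have h1 := hno i j hij 1 ⟨LinearMap.id, fun w => rfl⟩
  rwa [mul_one] at h1

open Pool.Agent.R917.GL.CP (xiC exists_lift Ix) in
include hmem hidm hrk hsum hno in
/-- **The complex structures of the factors.** -/
theorem J_mem_NA (t : ℝ →ₗ[ℚ] ℚ) (k : K) : A.cmpE t JJ * P k ∈ A.NA := by
  classical
  obtain ⟨S, R, hpr⟩ := exists_CP hmem hidm hrk fun i j hij => Or.inr (hno i j hij)
  obtain ⟨C⟩ := S.exists_Reps P
  have hsum' := pr_sum hpr hsum
  have hJ : A.cmpE t JJ ∈ A.NA := A.MA_le_NA (A.J_mem t)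
  have hJP : Pool.Agent.R917.EC.EP.Cm (A.cmpE t JJ * P k) :=
    Pool.Agent.R917.EC.EP.Cm.mul (Pool.Agent.R917.EC.Cm_of_NA hJ) (P_comm hsum hno k)
  have hPC : CC ((P k).baseChange ℂ : EC A) := CC_of_Cm (P_comm hsum hno k)
  have hJC : CC ((A.cmpE t JJ).baseChange ℂ : EC A) := CC_of_cx (bc_mem hJ)
  have hxP : ∀ c, c ≠ k → S.xi ((P k).baseChange ℂ) c = 0 := fun c hc =>
    S.xi_eq_of_mul_pr (by
      rw [hpr, ← bc_mul, P_orth hno hc, LinearMap.baseChange_zero])
  have hxJ : ∀ c, c ≠ k → S.xi ((A.cmpE t JJ * P k).baseChange ℂ) c = 0 := fun c hc => by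
    rw [bc_mul, S.xi_mul hJC hPC, hxP c hc, mul_zero]
  have hxJk : S.xi ((A.cmpE t JJ * P k).baseChange ℂ) k = S.xi ((A.cmpE t JJ).baseChange ℂ) k := by
    rw [← sub_eq_zero, ← Pi.sub_apply, ← map_sub]
    refine S.xi_eq_of_mul_pr ?_
    rw [hpr, sub_mul, ← bc_mul, ← bc_mul, mul_assoc, hidm, sub_self]
  by_cases hk : k ∈ S.N
  · obtain ⟨X, hX, h1⟩ := exists_lift C Pool.Agent.R917.EC.full_NA
      (fun c => if c.1 = k then S.xi ((A.cmpE t JJ).baseChange ℂ) k else 0) (fun c hc => by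
        split_ifs
        · exact S.xi_tz hk (bc_mem hJ)
        · simp [tz]) (fun c hc => by
        rw [if_neg fun h => hc (by rw [h]; exact hk)])
    refine mem_of_bc ?_
    have h2 : (A.cmpE t JJ * P k).baseChange ℂ - X = 0 := by
      have h3 : ∀ c : Ix C, S.xi ((A.cmpE t JJ * P k).baseChange ℂ - X) c.1 = 0 := by
        intro c
        have h4 : S.xi X c.1 = if c.1 = k then S.xi ((A.cmpE t JJ).baseChange ℂ) k else 0 := h1 c
        rw [map_sub, Pi.sub_apply, h4]
        by_cases hc : c.1 = k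
        · rw [if_pos hc, hc, hxJk, sub_self]
        · rw [if_neg hc, hxJ _ hc, sub_zero]
      exact CP.inj C R hsum' (CC.sub (CC_of_Cm hJP) (CC_of_cx hX))
        (fun c hc => h3 ⟨c, Or.inl hc⟩) fun c hc => h3 ⟨c, Or.inr hc⟩
    rw [sub_eq_zero.1 h2]
    exact hX
  · have hkm : k ∈ C.Cm := by
      by_contra hcon
      obtain ⟨c, hc, h1⟩ := C.m3 k hk hcon
      have hck : c ≠ k := fun h => hcon (h ▸ hc)
      rcases h1 with ⟨T, hT, h2⟩ | ⟨T, hT, h2⟩
      · exact h2 (hno k c hck.symm T (Pool.Agent.R917.EC.hodge_lin hT))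
      · exact h2 (hno c k hck T (Pool.Agent.R917.EC.hodge_lin hT))
    obtain ⟨S', hS'⟩ := exists_CMS' C R hsum'
    have T : ∀ c, S'.CMd c := fun c =>
      (S'.exists_CMd (S'.tr c) (S'.ne c) (S'.memD c)).some
    obtain ⟨Z, hZ, hZc, a, ha1, ha2, ha3⟩ := cms_Z S' T ⟨k, hkm⟩
    have hZb : ∀ c v, Z (S'.b c v) = a c • S'.b c ((T c).D *ᵥ v) := by
      intro c v
      rw [S'.apply_b (Pool.Agent.R917.EC.Cm_of_NA hZ), ha3, Matrix.smul_mulVec, map_smul]
    have hJb : ∀ c v, A.cmpE t JJ (S'.b c v) = t (T c).ρ • S'.b c ((T c).D *ᵥ v) := by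
      intro c v
      rw [S'.apply_b (Pool.Agent.R917.EC.Cm_of_NA hJ), (T c).J, Matrix.smul_mulVec, map_smul]
    have hPb : ∀ c w, P c.1 w = S'.b c (S'.p c w) := fun c w =>
      congrArg (fun T : Module.End ℚ A.H1 => T w) (hS' c).symm
    have hmain : A.cmpE t JJ * P k = t (T ⟨k, hkm⟩).ρ • Z := by
      rw [← sub_eq_zero]
      apply bc_zero_iff
      have hCC : CC ((A.cmpE t JJ * P k - t (T ⟨k, hkm⟩).ρ • Z).baseChange ℂ : EC A) :=
        CC_of_Cm (Pool.Agent.R917.EC.Cm_sub hJP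
          (Pool.Agent.R917.EC.Cm_smul (Pool.Agent.R917.EC.Cm_of_NA hZ) _))
      refine CP.inj C R hsum' hCC (fun c hc => ?_) fun c hc => ?_
      · have hcN := C.n1 c hc
        have hck : c ≠ k := fun h => hk (h ▸ hcN)
        have hZC := bc_mem hZ
        have h3 : S.xi (Z.baseChange ℂ) c = 0 := by
          have hcen : ∀ X ∈ cx A.NA, Z.baseChange ℂ * X = X * Z.baseChange ℂ :=
            cx_comm fun X hX => by rw [← bc_mul, ← bc_mul, hZc X hX]
          obtain ⟨z, hz⟩ := S.sc_mat Pool.Agent.R917.EC.full_NA hcN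
            (Q := S.xi (Z.baseChange ℂ) c) (fun X hX => by
              rw [← S.xi_mul (CC_of_cx hZC) (CC_of_cx hX), ← S.xi_mul (CC_of_cx hX)
                (CC_of_cx hZC), hcen X hX])
          exact Pool.Agent.R917.GL.tz_of_scalar (S.xi_tz hcN hZC) hz
        have h4 : ((t (T ⟨k, hkm⟩).ρ • Z).baseChange ℂ : EC A) =
            ((t (T ⟨k, hkm⟩).ρ : ℚ) : ℂ) • Z.baseChange ℂ := by
          rw [LinearMap.baseChange_smul, Rat.cast_smul_eq_qsmul]
        rw [LinearMap.baseChange_sub, h4, map_sub, map_smul, Pi.sub_apply, Pi.smul_apply,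
          hxJ c hck, h3, smul_zero, sub_zero]
      · apply S.xi_eq_of_mul_pr
        rw [hpr, ← bc_mul]
        have h4 : (A.cmpE t JJ * P k - t (T ⟨k, hkm⟩).ρ • Z) * P c = 0 := by
          refine LinearMap.ext fun w => ?_
          rw [sub_mul, mul_assoc, LinearMap.sub_apply, LinearMap.zero_apply]
          rw [Module.End.mul_apply, Module.End.mul_apply, Module.End.mul_apply,
            LinearMap.smul_apply, hPb ⟨c, hc⟩ w, hZb]
          by_cases hck : c = k
          · subst hck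
            have h5 : P c (S'.b ⟨c, hc⟩ (S'.p ⟨c, hc⟩ w)) = S'.b ⟨c, hc⟩ (S'.p ⟨c, hc⟩ w) := by
              rw [hPb ⟨c, hc⟩, S'.pb]
            rw [h5, hJb, ha1, one_smul, sub_self]
          · have h5 : P k (S'.b ⟨c, hc⟩ (S'.p ⟨c, hc⟩ w)) = 0 := by
              rw [← hPb ⟨c, hc⟩ w]
              exact congrArg (fun T : Module.End ℚ A.H1 => T w) (P_orth hno hck)
            rw [h5, map_zero, ha2 ⟨c, hc⟩ (fun h => hck (congrArg Subtype.val h)), zero_smul,
              smul_zero, sub_zero]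
        rw [h4, LinearMap.baseChange_zero]
    rw [hmain]
    exact A.NA.smul_mem _ hZ

end noniso

end Pool.Agent.H621.CY
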