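import Pool.Agent.H621.CY.Prj
import Pool.Agent.H621.CY.Top
import Pool.Agent.H621.CY.Hm

set_option autoImplicit false
set_option linter.unusedSectionVars false

/-!
# The joint Lie algebra of elliptic curves which are not isogenous
-/

open Module TensorProduct Matrix Polynomial

noncomputable section

namespace Pool.Agent.H621.CY

open Pool.Agent.Y102 Pool.Agent.W516.DR Pool.Agent.H204R3.GP Pool.Agent.W516.KC
  Pool.Agent.H204R3.SP Pool.Agent.TH119.MX Pool.Agent.R917 Pool.Agent.R917.DT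
  Pool.Agent.R917.EC Pool.Agent.H621.BC Pool.Agent.R917.OM Pool.Agent.Y102.AbVar

open Pool.Agent.H621.RK (R2 exists_crt nodal_pow_dvd aeval_zero_of aeval_eq_of comp_dvd
  nodal_dvd_pow aeval_prod PP PP_br PP_comp PP_mapF PP_aeval scal_br exists_ann RealM rm_real Prj
  gen cj mem_span_comp rm_br)
open Pool.Agent.H621.RM (NS NS_br NS_mapF NS_rm exA exA_inj exA_map exA_BT lev' LP PtA Lif hb
  lift_NA real_lift torus sum_lev' mem_NS_iff)

variable {r K b m : ℕ} {B : AbVar b} {d : Fin m → ℕ} {E : ∀ k, AbVar (d k)}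
  {f : ∀ k, (E k).H1 →ₗ[ℚ] B.H1}
  {p : ∀ k, B.H1 →ₗ[ℚ] (E k).H1} {lev : Fin r → Fin K} {C C' : Matrix (Fin r) (Fin r) ℂ}

/-- The joint Lie algebra. -/
def jn (B : AbVar b) (lev : Fin r → Fin K) (f : ∀ k, (E k).H1 →ₗ[ℚ] B.H1)
    (p : ∀ k, B.H1 →ₗ[ℚ] (E k).H1) (𝔮 : ∀ k : Fin m, Submodule ℂ (T3 r (d k))) :
    Submodule ℂ (T3 r b) where
  carrier := {z | BT lev z.1.1 ∧ Cut B z ∧ ∀ k, pj r (f k) (p k) z ∈ 𝔮 k}
  zero_mem' := by
    refine ⟨fun i j _ => rfl, ?_, fun k => ?_⟩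
    · unfold Cut
      change (0 : Matrix (Fin (2 * b)) (Fin (2 * b)) ℂ) - ((0 : ℂ) / 2) • 1 ∈ NS B
      rw [zero_div, zero_smul, sub_zero]
      exact Submodule.zero_mem _
    · rw [map_zero]
      exact Submodule.zero_mem _
  add_mem' := by
    rintro z w ⟨h1, h2, h3⟩ ⟨h4, h5, h6⟩
    refine ⟨fun i j hij => ?_, ?_, fun k => ?_⟩
    · rw [Prod.fst_add, Prod.fst_add, Matrix.add_apply, h1 i j hij, h4 i j hij, add_zero]
    · have h7 := Submodule.add_mem _ h2 h5
      unfold Cut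
      convert h7 using 1
      change z.2 + w.2 - ((z.1.2 + w.1.2) / 2) • 1 = _
      rw [add_div, add_smul]
      abel
    · rw [map_add]
      exact Submodule.add_mem _ (h3 k) (h6 k)
  smul_mem' := by
    rintro a z ⟨h1, h2, h3⟩
    refine ⟨fun i j hij => ?_, ?_, fun k => ?_⟩
    · rw [Prod.smul_fst, Prod.smul_fst, Matrix.smul_apply, h1 i j hij, smul_zero]
    · have h7 := Submodule.smul_mem _ a h2
      unfold Cut
      convert h7 using 1
      change a • z.2 - ((a * z.1.2) / 2) • 1 = _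
      rw [smul_sub, smul_smul, mul_div_assoc]
    · rw [map_smul]
      exact Submodule.smul_mem _ a (h3 k)

theorem Cut.br {z w : T3 r b} (hz : Cut B z) (hw : Cut B w) : Cut B (z * w - w * z) := by
  have h1 := NS_br hz hw
  unfold Cut
  convert h1 using 1
  change z.2 * w.2 - w.2 * z.2 - ((z.1.2 * w.1.2 - w.1.2 * z.1.2) / 2) • 1 = _
  have h2 : z.1.2 * w.1.2 - w.1.2 * z.1.2 = 0 := by ring
  rw [h2, zero_div, zero_smul, sub_zero]
  simp only [Matrix.sub_mul, Matrix.mul_sub, Matrix.smul_mul, Matrix.mul_smul, Matrix.one_mul,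
    Matrix.mul_one]
  module

theorem Cut.map {z : T3 r b} (hz : Cut B z) (φ : ℂ →ₗ[QQ] ℂ) :
    Cut B (((z.1.1.map φ, φ z.1.2), z.2.map φ) : T3 r b) := by
  have h1 := NS_mapF hz φ
  unfold Cut
  convert h1 using 1
  ext i j
  change φ (z.2 i j) - ((φ z.1.2 / 2) • (1 : Matrix (Fin (2 * b)) (Fin (2 * b)) ℂ)) i j =
    φ (z.2 i j - ((z.1.2 / 2) • (1 : Matrix (Fin (2 * b)) (Fin (2 * b)) ℂ)) i j)
  rw [map_sub]
  congr 1
  rw [Matrix.smul_apply, Matrix.smul_apply, Matrix.one_apply]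
  split_ifs
  · rw [smul_eq_mul, smul_eq_mul, mul_one, mul_one]
    have h2 := f_rat φ (1 / 2) z.1.2
    have h3 : (((1 / 2 : ℚ) : ℚ) : ℂ) = 1 / 2 := by norm_num
    rw [h3] at h2
    have h4 : z.1.2 / 2 = 1 / 2 * z.1.2 := by ring
    rw [h4, h2]
    ring
  · rw [smul_zero, smul_zero, map_zero]

theorem jn_lq {𝔮 : ∀ k : Fin m, Submodule ℂ (T3 r (d k))} (hF : ∀ k, Fac (E k) B (f k) (p k))
    (hq : ∀ k, LQ (E k) lev (𝔮 k)) : LQ B lev (jn B lev f p 𝔮) where
  bt := fun z hz => hz.1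
  br := by
    rintro z ⟨h1, h2, h3⟩ w ⟨h4, h5, h6⟩
    refine ⟨fun i j hij => ?_, h2.br h5, fun k => ?_⟩
    · change (z.1.1 * w.1.1 - w.1.1 * z.1.1) i j = 0
      rw [Matrix.sub_apply, (h1.mul h4) i j hij, (h4.mul h1) i j hij, sub_zero]
    · rw [map_sub, pj_mul (hF k) h2, pj_mul (hF k) h5]
      exact (hq k).br _ (h3 k) _ (h6 k)
  comp := by
    rintro z ⟨h1, h2, h3⟩ φ
    refine ⟨fun i j hij => ?_, h2.map φ, fun k => ?_⟩
    · change φ (z.1.1 i j) = 0
      rw [h1 i j hij, map_zero]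
    · rw [← pj_map]
      exact (hq k).comp _ (h3 k) φ
  rq := by
    rintro z ⟨h1, h2, h3⟩ s N h0 σ Q hQ
    refine ⟨?_, h2.aeval h0 σ hQ, fun k => ?_⟩
    · rw [aeval_T3]
      exact RK.BT_aeval h1 Q
    · rw [← pj_aeval (hF k) h2]
      refine (hq k).rq _ (h3 k) s N ?_ σ Q hQ
      rw [pj_aeval (hF k) h2, h0, map_zero]
  cut := fun z hz => hz.2.1

theorem Cut_der (D : Derivation QBar ℂ ℂ) (lam : ℂ →ₗ[ℚ] ℚ) (x : Matrix (Fin r) (Fin r) ℂ) :
    Cut B (((x, lamF lam (D tau / tau)), rm (Pool.Agent.W516.DR.cmpE lam (XX B.basis D))) :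
      T3 r b) := by
  unfold Cut
  change rm (Pool.Agent.W516.DR.cmpE lam (XX B.basis D)) - (lamF lam (D tau / tau) / 2) • 1 ∈ NS B
  have h1 : lamF lam (D tau / tau) / 2 = ((lam (D tau / (2 * tau)) : ℚ) : ℂ) := by
    rw [lamF_apply]
    have h2 : D tau / tau = (2 : ℚ) • (D tau / (2 * tau)) := by
      rw [Rat.smul_def]
      have : (tau : ℂ) ≠ 0 := AbVar.tau_ne
      field_simp
      norm_num
    rw [h2, map_smul, smul_eq_mul]
    push_cast
    ring
  rw [h1, ← X0_eq (A := B) D lam, rm_add, rm_smul, rm_one, add_sub_cancel_right]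
  refine NS_rm (B.LA_le_NA ?_)
  rw [AbVar.LA_eq]
  exact X0_mem B.basis AbVar.tau_ne D lam

theorem BT_ldC (hC : BT lev C) (hC' : BT lev C') (D : Derivation QBar ℂ ℂ) (lam : ℂ →ₗ[ℚ] ℚ) :
    BT lev ((C.map D * C').map (lamF lam)) := by
  intro i j hij
  have h1 : BT lev (C.map D) := fun i j hij => by
    rw [Matrix.map_apply, hC i j hij, map_zero]
  rw [Matrix.map_apply, (h1.mul hC') i j hij, map_zero]

theorem jn_ptq {𝔮 : ∀ k : Fin m, Submodule ℂ (T3 r (d k))} (hF : ∀ k, Fac (E k) B (f k) (p k))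
    (hC : BT lev C) (hC' : BT lev C') (hq : ∀ k, PtQ (E k) C C' lev (𝔮 k)) :
    PtQ B C C' lev (jn B lev f p 𝔮) where
  lq := jn_lq hF fun k => (hq k).lq
  der := fun D lam => by
    refine ⟨BT_ldC hC hC' D lam, Cut_der D lam _, fun k => ?_⟩
    have h1 := (hq k).der D lam
    rw [← cmpE_XX_fac (hF k)] at h1
    exact h1

/-! ### The complex structure -/

theorem eq_of_comp {a c : ℕ} {M N : Matrix (Fin a) (Fin c) ℂ}
    (h : ∀ lam : ℂ →ₗ[ℚ] ℚ, M.map (lamF lam) = N.map (lamF lam)) : M = N := by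
  ext i j
  rw [← sub_eq_zero]
  refine (Module.forall_dual_apply_eq_zero_iff ℚ _).1 fun lam => ?_
  have h1 := congrFun (congrFun (h lam) i) j
  rw [Matrix.map_apply, Matrix.map_apply, lamF_apply, lamF_apply] at h1
  rw [map_sub, sub_eq_zero]
  exact_mod_cast h1

theorem hm_cmp (lam : ℂ →ₗ[ℚ] ℚ) : (hm B Complex.I).map (lamF lam) =
    rm (B.cmpE (OM.fr lam) AbVar.JJ) := by
  rw [Pool.Agent.H621.BC.hm_comp, rm_eq]

theorem hm_NS : hm B Complex.I ∈ NS B := by
  rw [mem_NS_iff]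
  intro lam
  exact ⟨_, B.MA_le_NA (B.J_mem _), (hm_cmp lam).symm⟩

theorem hm_fac {e : ℕ} {E : AbVar e} {f : E.H1 →ₗ[ℚ] B.H1} {p : B.H1 →ₗ[ℚ] E.H1}
    (hF : Fac E B f p) : rq (a := 2 * e) (b := 2 * b) f * hm B Complex.I *
      rq (a := 2 * b) (b := 2 * e) p = hm E Complex.I := by
  refine eq_of_comp fun lam => ?_
  rw [rq_map_right, rq_map_left, hm_cmp, hm_cmp, ← Fac.rm_rs, hF.rs_J]

theorem NS_comm {α : Matrix (Fin (2 * b)) (Fin (2 * b)) ℂ} (hα : α ∈ NS B)
    {Q : Module.End ℚ B.H1} (hQ : Q ∈ B.EA) : α * rm Q = rm Q * α := by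
  unfold RM.NS at hα
  induction hα using Submodule.span_induction with
  | mem Z hZ =>
    obtain ⟨Y, hY, rfl⟩ := hZ
    rw [← rm_mul, ← rm_mul, B.NA_comm hY hQ]
  | zero => rw [Matrix.zero_mul, Matrix.mul_zero]
  | add x y _ _ hx hy => rw [Matrix.add_mul, Matrix.mul_add, hx, hy]
  | smul c x _ hx => rw [Matrix.smul_mul, Matrix.mul_smul, hx]

theorem hm_sq : hm B Complex.I * hm B Complex.I = -1 := by
  rw [← Pool.Agent.R917.hm_mul, Complex.I_mul_I]
  have h1 := Pool.Agent.R917.hm_add B (-1) 1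
  rw [neg_add_cancel, Pool.Agent.R917.hm_zero, Pool.Agent.R917.hm_one] at h1
  exact eq_neg_of_add_eq_zero_left h1.symm

theorem hm_ne {e : ℕ} (he : 0 < e) (E : AbVar e) : hm E Complex.I ≠ 0 := by
  intro h
  have h1 := hm_sq (B := E)
  rw [h, Matrix.mul_zero] at h1
  have h2 := congrFun (congrFun h1 ⟨0, by omega⟩) ⟨0, by omega⟩
  rw [Matrix.zero_apply, Matrix.neg_apply, Matrix.one_apply_eq] at h2
  norm_num at h2

theorem hm_realM : RealM (hm B Complex.I) := by
  intro i j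
  rw [Pool.Agent.R917.hm_apply]
  exact Complex.conj_ofReal _

/-! ### The bound -/

section bound

variable {E : Fin m → AbVar 1} (W : Pw E)

theorem Pw.fac (k : Fin m) : Fac (E k) W.B (W.f k) (W.p k) where
  hf := ⟨(W.hf k).1, (W.hf k).2⟩
  hp := ⟨(W.hp k).1, (W.hp k).2⟩
  pf := fun w => congrArg (fun T : (E k).H1 →ₗ[ℚ] (E k).H1 => T w) (W.pf k)

/-- the projector -/
def Pw.P (k : Fin m) : Module.End ℚ W.B.H1 := W.f k ∘ₗ W.p k

theorem Pw.P_mem (k : Fin m) : W.P k ∈ W.B.EA := (W.fac k).mem_EA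

theorem Pw.P_idem (k : Fin m) : W.P k * W.P k = W.P k := by
  refine LinearMap.ext fun w => ?_
  change W.f k (W.p k (W.f k (W.p k w))) = W.f k (W.p k w)
  rw [(W.fac k).pf]

theorem Pw.P_sum : ∑ k, W.P k = 1 := W.sum

theorem Pw.P_rk (k : Fin m) : finrank ℚ (LinearMap.range (W.P k)) = 2 := by
  have h1 : LinearMap.range (W.P k) = LinearMap.range (W.f k) := by
    apply le_antisymm
    · rintro _ ⟨w, rfl⟩
      exact ⟨W.p k w, rfl⟩
    · rintro _ ⟨w, rfl⟩
      refine ⟨W.f k w, ?_⟩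
      change W.f k (W.p k (W.f k w)) = W.f k w
      rw [(W.fac k).pf]
  rw [h1, LinearMap.finrank_range_of_inj (fun x y h => by
    rw [← (W.fac k).pf x, h, (W.fac k).pf])]
  change finrank ℚ (Fin (2 * 1) → ℚ) = 2
  rw [Module.finrank_fin_fun]

/-- there is no nonzero homomorphism over the complex numbers -/
def NoHom {a c : ℕ} (A : AbVar a) (B : AbVar c) : Prop :=
  ∀ f : A.H1 →ₗ[ℚ] B.H1, (∃ F : (Fin a → ℂ) →ₗ[ℂ] (Fin c → ℂ), ∀ w, F (A.per w) = B.per (f w)) →
    f = 0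

theorem Pw.no (hno : ∀ i j, i ≠ j → NoHom (E i) (E j)) (i j : Fin m) (hij : i ≠ j)
    (T : Module.End ℚ W.B.H1) (hT : ∃ F : (Fin m → ℂ) →ₗ[ℂ] (Fin m → ℂ), ∀ w,
      F (W.B.per w) = W.B.per (T w)) : W.P j * T * W.P i = 0 := by
  obtain ⟨F, hF⟩ := hT
  obtain ⟨G, hG⟩ := (W.hf i).1
  obtain ⟨H, hH⟩ := (W.hp j).1
  have h1 := hno i j hij (W.p j ∘ₗ T ∘ₗ W.f i) ⟨H ∘ₗ F ∘ₗ G, fun w => by
    rw [LinearMap.comp_apply, LinearMap.comp_apply, hG, hF, hH]
    rfl⟩
  refine LinearMap.ext fun w => ?_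
  have h2 := congrArg (fun T : (E i).H1 →ₗ[ℚ] (E j).H1 => T (W.p i w)) h1
  change W.f j (W.p j (T (W.f i (W.p i w)))) = 0
  change W.p j (T (W.f i (W.p i w))) = 0 at h2
  rw [h2, map_zero]

theorem Pw.det (hno : ∀ i j, i ≠ j → NoHom (E i) (E j)) : Det W.B := by
  obtain ⟨S, R, hpr⟩ := exists_CP W.P_mem W.P_idem W.P_rk fun i j hij => Or.inr (W.no hno i j hij)
  obtain ⟨C⟩ := S.exists_Reps W.P
  obtain ⟨S', -⟩ := exists_CMS' C R (pr_sum hpr W.P_sum)
  exact det_of_CMS S'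

theorem sum_fb (m : ℕ) {V : Type} [AddCommGroup V] (F : Fin m × Bool → V) :
    ∑ a, F a = ∑ k, (F (k, true) + F (k, false)) := by
  rw [Fintype.sum_prod_type]
  exact Finset.sum_congr rfl fun k _ => by rw [Fintype.sum_bool]

/-- the sign -/
def sgb (c : Bool) : ℂ := if c then -Complex.I else Complex.I

/-- the eigenprojectors -/
def Pw.ep (a : Fin m × Bool) : Matrix (Fin (2 * m)) (Fin (2 * m)) ℂ :=
  (1 / 2 : ℂ) • (rm (W.P a.1) + sgb a.2 • (hm W.B Complex.I * rm (W.P a.1)))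

/-- the weights -/
def wtE (a : Fin m × Bool) (j : Fin m) : ℤ := if a.1 = j then (if a.2 then 1 else -1) else 0

theorem Pw.ep_sub (k : Fin m) : W.ep (k, true) - W.ep (k, false) =
    (-Complex.I) • (hm W.B Complex.I * rm (W.P k)) := by
  unfold Pw.ep sgb
  simp only [if_true, Bool.false_eq_true, if_false]
  module

theorem Pw.ep_add (k : Fin m) : W.ep (k, true) + W.ep (k, false) = rm (W.P k) := by
  unfold Pw.ep sgb
  simp only [if_true, Bool.false_eq_true, if_false]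
  module

theorem Pw.rm_orth {i j : Fin m} (hij : i ≠ j) : rm (W.P i) * rm (W.P j) = 0 := by
  rw [← rm_mul]
  have h1 : W.P j * W.P i = 0 := by
    refine LinearMap.ext fun w => ?_
    have h2 := congrArg (fun T : (E i).H1 →ₗ[ℚ] (E j).H1 => T (W.p i w)) (W.pf0 j i (Ne.symm hij))
    change W.f j (W.p j (W.f i (W.p i w))) = 0
    change W.p j (W.f i (W.p i w)) = 0 at h2
    rw [h2, map_zero]
  rw [h1, rm_zero]

theorem Pw.prj : Prj W.ep where
  sum := by
    rw [sum_fb]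
    simp only [W.ep_add]
    rw [← rm_one (A := W.B), ← W.P_sum, rm_sum]
  mul := by
    rintro ⟨i, c⟩ ⟨j, d⟩
    have hc : ∀ k, hm W.B Complex.I * rm (W.P k) = rm (W.P k) * hm W.B Complex.I := fun k =>
      NS_comm hm_NS (W.P_mem k)
    have hexp : W.ep (i, c) * W.ep (j, d) = (1 / 4 : ℂ) •
        ((rm (W.P i) * rm (W.P j)) + (sgb c + sgb d) • (hm W.B Complex.I *
          (rm (W.P i) * rm (W.P j))) + (sgb c * sgb d) • (hm W.B Complex.I * hm W.B Complex.I *
          (rm (W.P i) * rm (W.P j)))) := by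
      have e1 : rm (W.P i) * (hm W.B Complex.I * rm (W.P j)) =
          hm W.B Complex.I * (rm (W.P i) * rm (W.P j)) := by
        rw [← Matrix.mul_assoc, ← hc, Matrix.mul_assoc]
      have e2 : hm W.B Complex.I * rm (W.P i) * rm (W.P j) =
          hm W.B Complex.I * (rm (W.P i) * rm (W.P j)) := Matrix.mul_assoc _ _ _
      have e3 : hm W.B Complex.I * rm (W.P i) * (hm W.B Complex.I * rm (W.P j)) =
          hm W.B Complex.I * hm W.B Complex.I * (rm (W.P i) * rm (W.P j)) := by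
        rw [Matrix.mul_assoc, e1, ← Matrix.mul_assoc]
      unfold Pw.ep
      simp only [Matrix.smul_mul, Matrix.mul_smul, Matrix.add_mul, Matrix.mul_add, e1, e2, e3]
      module
    rw [hexp]
    by_cases hij : i = j
    · subst hij
      have h1 : rm (W.P i) * rm (W.P i) = rm (W.P i) := by rw [← rm_mul, W.P_idem]
      rw [h1, hm_sq, Matrix.neg_mul, Matrix.one_mul]
      have hI : Complex.I * Complex.I = -1 := Complex.I_mul_I
      cases c <;> cases d
      · rw [if_pos rfl]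
        unfold Pw.ep sgb
        simp only [Bool.false_eq_true, if_false, hI]
        module
      · rw [if_neg (by simp)]
        unfold sgb
        simp only [Bool.false_eq_true, if_false, if_true, mul_neg, hI]
        module
      · rw [if_neg (by simp)]
        unfold sgb
        simp only [Bool.false_eq_true, if_false, if_true, neg_mul, hI]
        module
      · rw [if_pos rfl]
        unfold Pw.ep sgb
        simp only [if_true, neg_mul, mul_neg, neg_neg, hI]
        module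
    · rw [W.rm_orth hij, if_neg (fun h => hij (congrArg Prod.fst h))]
      simp only [Matrix.mul_zero, smul_zero, add_zero]

theorem Pw.sum_ep (c : Fin m → ℚ) :
    ∑ a, (∑ j, (wtE a j : ℂ) * (c j : ℂ)) • W.ep a =
      ∑ k, ((c k : ℂ) * (-Complex.I)) • (hm W.B Complex.I * rm (W.P k)) := by
  rw [sum_fb]
  refine Finset.sum_congr rfl fun k _ => ?_
  have h1 : ∀ d : Bool, ∑ j, (wtE (k, d) j : ℂ) * (c j : ℂ) = (if d then 1 else -1) * (c k : ℂ) := by
    intro d
    rw [Finset.sum_eq_single k]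
    · unfold wtE
      rw [if_pos rfl]
      cases d <;> simp
    · intro j _ hj
      unfold wtE
      rw [if_neg (Ne.symm hj), Int.cast_zero, zero_mul]
    · intro h
      exact absurd (Finset.mem_univ _) h
  rw [h1, h1]
  simp only [if_true, Bool.false_eq_true, if_false]
  have e1 : ((c k : ℂ) * (-Complex.I)) • (hm W.B Complex.I * rm (W.P k)) =
      (c k : ℂ) • (W.ep (k, true) - W.ep (k, false)) := by
    rw [W.ep_sub, smul_smul]
  rw [e1]
  module

theorem Pw.gen_ep (j : Fin m) : gen W.ep wtE j = hm W.B Complex.I * rm (W.P j) := by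
  unfold gen
  rw [sum_fb, Finset.sum_eq_single j]
  · have h1 : (wtE ((j, true) : Fin m × Bool) j : ℂ) = 1 := by simp [wtE]
    have h2 : (wtE ((j, false) : Fin m × Bool) j : ℂ) = -1 := by simp [wtE]
    rw [h1, h2, one_mul, neg_one_mul]
    have h3 := W.ep_sub j
    have h4 : Complex.I • W.ep (j, true) + (-Complex.I) • W.ep (j, false) =
        Complex.I • (W.ep (j, true) - W.ep (j, false)) := by module
    rw [h4, h3, smul_smul, mul_neg, Complex.I_mul_I, neg_neg, one_smul]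
  · intro k _ hk
    have h1 : (wtE ((k, true) : Fin m × Bool) j : ℂ) = 0 := by simp [wtE, hk]
    have h2 : (wtE ((k, false) : Fin m × Bool) j : ℂ) = 0 := by simp [wtE, hk]
    rw [h1, h2, zero_mul, zero_smul, zero_smul, add_zero]
  · intro h
    exact absurd (Finset.mem_univ _) h

include W in
/-- **The bound** for families of elliptic curves which are not isogenous and whose ideals are
zero. -/
theorem bound (hC : BT lev C) (hC' : BT lev C') (hno : ∀ i j, i ≠ j → NoHom (E i) (E j))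
    {𝔮 : ∀ _ : Fin m, Submodule ℂ (T3 r 1)} (hq : ∀ k, PtQ (E k) C C' lev (𝔮 k))
    (h0 : ∀ k, ∀ Y ∈ RM.nn (E k) ((𝔮 k).map ex3), Y = 0) :
    m ≤ ∑ l : Fin K, Fintype.card {i // lev i = l} / 2 := by
  classical
  by_contra hcon
  push Not at hcon
  have hJ := jn_ptq (d := fun _ => 1) (W.fac) hC hC' hq
  have hpta := hJ.pta
  have hdet := W.det hno
  have hlift : ∀ k, Lif ((jn (d := fun _ => 1) W.B lev W.f W.p 𝔮).map ex3) (hm W.B Complex.I * rm (W.P k)) := by
    intro k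
    have h1 : hm W.B Complex.I * rm (W.P k) ∈
        Submodule.span ℂ {Z | ∃ Y ∈ W.B.NA, Z = rm Y} := by
      refine mem_span_comp fun lam => ?_
      refine ⟨W.B.cmpE (OM.fr lam) AbVar.JJ * W.P k, J_mem_NA W.P_mem W.P_idem W.P_rk W.P_sum
        (W.no hno) _ k, ?_⟩
      rw [rm_rq (W.P k), rq_map_right, hm_cmp, ← rm_rq, ← rm_mul]
      congr 1
      exact W.B.NA_comm (W.B.MA_le_NA (W.B.J_mem _)) (W.P_mem k)
    generalize hm W.B Complex.I * rm (W.P k) = y at h1
    induction h1 using Submodule.span_induction with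
    | mem Z hZ =>
      obtain ⟨Y, hY, rfl⟩ := hZ
      exact lift_NA hdet hpta hY
    | zero => exact Lif.zero
    | add x y _ _ hx hy => exact hx.add hy
    | smul c x _ hx => exact hx.smul c
  obtain ⟨V, hV, hV'⟩ := torus hJ.lq.lp W.prj wtE fun j => by
    rw [W.gen_ep]
    obtain ⟨x, hx⟩ := hlift j
    refine real_lift hJ.lq.lp hx fun i k => ?_
    rw [Matrix.mul_apply, map_sum]
    refine Finset.sum_congr rfl fun l _ => ?_
    rw [map_mul, hm_realM, rm_real]
  rw [sum_lev'] at hV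
  have h5 : V ≠ ⊥ := by
    rintro rfl
    rw [finrank_bot] at hV
    omega
  obtain ⟨c, hc, hc0⟩ := Submodule.exists_mem_ne_zero_of_ne_bot h5
  obtain ⟨k, hk⟩ := Function.ne_iff.1 hc0
  have h6 := hV' c hc
  rw [W.sum_ep, mem_map_zero] at h6
  have h7 := h6.2.2 k
  rw [pj_apply] at h7
  change ((0, rq (a := 2 * 1) (b := 2 * m) (W.f k) * (∑ k, ((c k : ℂ) * (-Complex.I)) •
    (hm W.B Complex.I * rm (W.P k))) * rq (a := 2 * m) (b := 2 * 1) (W.p k)) : T3 r 1) ∈ 𝔮 k at h7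
  have h8 : rq (a := 2 * 1) (b := 2 * m) (W.f k) * (∑ k, ((c k : ℂ) * (-Complex.I)) •
      (hm W.B Complex.I * rm (W.P k))) * rq (a := 2 * m) (b := 2 * 1) (W.p k) =
        ((c k : ℂ) * (-Complex.I)) • hm (E k) Complex.I := by
    rw [Matrix.mul_sum, Matrix.sum_mul, Finset.sum_eq_single k]
    · have e1 : rm (W.P k) * rq (a := 2 * m) (b := 2 * 1) (W.p k) =
          rq (a := 2 * m) (b := 2 * 1) (W.p k) := by
        rw [rm_rq, ← rq_comp]
        congr 1
        refine LinearMap.ext fun w => ?_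
        change W.p k (W.f k (W.p k w)) = W.p k w
        rw [(W.fac k).pf]
      rw [Matrix.mul_smul, Matrix.smul_mul, ← Matrix.mul_assoc, Matrix.mul_assoc _ (rm (W.P k)),
        e1, hm_fac (W.fac k)]
    · intro j _ hj
      have e1 : rm (W.P j) * rq (a := 2 * m) (b := 2 * 1) (W.p k) = 0 := by
        rw [rm_rq, ← rq_comp]
        have e2 : W.p k ∘ₗ W.P j = 0 := by
          refine LinearMap.ext fun w => ?_
          exact congrArg (fun T : (E j).H1 →ₗ[ℚ] (E k).H1 => T (W.p j w)) (W.pf0 k j (Ne.symm hj))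
        change rq (a := 2 * m) (b := 2 * 1) (W.p k ∘ₗ W.P j) = 0
        rw [e2]
        unfold rq
        rw [map_zero]
        ext i j
        simp
      rw [Matrix.mul_smul, Matrix.smul_mul, ← Matrix.mul_assoc, Matrix.mul_assoc _ (rm (W.P j)),
        e1, Matrix.mul_zero, smul_zero]
    · intro h
      exact absurd (Finset.mem_univ _) h
  rw [h8] at h7
  have hck : (c k : ℂ) * (-Complex.I) ≠ 0 := by
    refine mul_ne_zero ?_ (neg_ne_zero.2 Complex.I_ne_zero)
    exact_mod_cast hk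
  have h9 : ((0, hm (E k) Complex.I) : T3 r 1) ∈ 𝔮 k := by
    have h10 := (𝔮 k).smul_mem ((c k : ℂ) * (-Complex.I))⁻¹ h7
    convert h10 using 1
    refine Prod.ext (smul_zero _).symm ?_
    change _ = ((c k : ℂ) * (-Complex.I))⁻¹ • ((c k : ℂ) * (-Complex.I)) • hm (E k) Complex.I
    rw [smul_smul, inv_mul_cancel₀ hck, one_smul]
  apply hm_ne one_pos (E k)
  refine eq_of_comp fun lam => ?_
  obtain ⟨Z, hZ, h10⟩ := comp_zero (hq k).lq h9 lam
  rw [← h10, h0 k Z hZ, rm_zero]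
  ext i j
  exact (map_zero (lamF lam)).symm

end bound

end Pool.Agent.H621.CY
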