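import Pool.Agent.H621.CY.Grp

set_option autoImplicit false
set_option linter.unusedSectionVars false

/-!
# Tensor powers of matrices
-/

open Module TensorProduct Matrix Polynomial

noncomputable section

namespace Pool.Agent.H621.CY

open Pool.Agent.Y102 Pool.Agent.W516.DR Pool.Agent.H204R3.GP Pool.Agent.W516.KC
  Pool.Agent.H204R3.SP

variable {ς : Type} [Fintype ς] [DecidableEq ς] {r : ℕ}

/-- the action on one factor of the tensor power -/
def krM (u : ς) (x : Matrix (Fin r) (Fin r) ℂ) : Matrix (ς → Fin r) (ς → Fin r) ℂ :=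
  Matrix.of fun I J => if ∀ v, v ≠ u → I v = J v then x (I u) (J u) else 0

theorem krM_apply (u : ς) (x : Matrix (Fin r) (Fin r) ℂ) (I J : ς → Fin r) :
    krM u x I J = if ∀ v, v ≠ u → I v = J v then x (I u) (J u) else 0 := rfl

theorem krM_sum (u : ς) (x : Matrix (Fin r) (Fin r) ℂ) (I : ς → Fin r) (G : (ς → Fin r) → ℂ) :
    ∑ K, krM u x I K * G K = ∑ j, x (I u) j * G (Function.update I u j) := by
  have h1 : ∑ K, krM u x I K * G K =
      ∑ K ∈ Finset.univ.image (Function.update I u), krM u x I K * G K := by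
    refine (Finset.sum_subset (Finset.subset_univ _) fun K _ hK => ?_).symm
    rw [krM_apply, if_neg, zero_mul]
    intro h
    apply hK
    refine Finset.mem_image.2 ⟨K u, Finset.mem_univ _, ?_⟩
    funext v
    by_cases hv : v = u
    · subst hv
      rw [Function.update_self]
    · rw [Function.update_of_ne hv, h v hv]
  rw [h1, Finset.sum_image fun j _ j' _ h => Function.update_injective I u h]
  refine Finset.sum_congr rfl fun j _ => ?_
  rw [krM_apply, if_pos fun v hv => (Function.update_of_ne hv _ _).symm, Function.update_self]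

/-- the action on one factor of the tensor power -/
def kr (u : ς) : Matrix (Fin r) (Fin r) ℂ →ₐ[ℂ] Matrix (ς → Fin r) (ς → Fin r) ℂ where
  toFun := krM u
  map_one' := by
    ext I J
    rw [krM_apply, Matrix.one_apply, Matrix.one_apply]
    by_cases hIJ : I = J
    · subst hIJ
      rw [if_pos fun _ _ => rfl, if_pos rfl, if_pos rfl]
    · rw [if_neg hIJ]
      split_ifs with h1 h2
      · exfalso
        apply hIJ
        funext v
        by_cases hv : v = u
        · rw [hv, h2]
        · exact h1 v hv
      · rfl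
      · rfl
  map_mul' x y := by
    ext I J
    rw [Matrix.mul_apply, krM_sum, krM_apply, Matrix.mul_apply]
    have h1 : ∀ j, krM u y (Function.update I u j) J =
        if ∀ v, v ≠ u → I v = J v then y j (J u) else 0 := by
      intro j
      rw [krM_apply, Function.update_self]
      congr 1
      apply propext
      exact forall_congr' fun v => forall_congr' fun hv => by rw [Function.update_of_ne hv]
    simp only [h1]
    split_ifs
    · rfl
    · simp
  map_zero' := by
    ext I J
    rw [krM_apply, Matrix.zero_apply, Matrix.zero_apply, ite_self]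
  map_add' x y := by
    ext I J
    rw [Matrix.add_apply, krM_apply, krM_apply, krM_apply, Matrix.add_apply]
    split_ifs
    · rfl
    · rw [add_zero]
  commutes' c := by
    ext I J
    rw [krM_apply, Matrix.algebraMap_matrix_apply, Matrix.algebraMap_matrix_apply]
    by_cases hIJ : I = J
    · subst hIJ
      rw [if_pos fun _ _ => rfl, if_pos rfl, if_pos rfl]
    · rw [if_neg hIJ]
      split_ifs with h1 h2
      · exfalso
        apply hIJ
        funext v
        by_cases hv : v = u
        · rw [hv, h2]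
        · exact h1 v hv
      · rfl
      · rfl

theorem kr_apply (u : ς) (x : Matrix (Fin r) (Fin r) ℂ) : kr u x = krM u x := rfl

theorem krM_mul_ne {u v : ς} (huv : u ≠ v) (x y : Matrix (Fin r) (Fin r) ℂ) (I J : ς → Fin r) :
    (krM u x * krM v y) I J =
      if ∀ w, w ≠ u → w ≠ v → I w = J w then x (I u) (J u) * y (I v) (J v) else 0 := by
  rw [Matrix.mul_apply, krM_sum, Finset.sum_eq_single (J u)]
  · rw [krM_apply, Function.update_of_ne (Ne.symm huv)]
    have h1 : (∀ w, w ≠ v → Function.update I u (J u) w = J w) ↔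
        ∀ w, w ≠ u → w ≠ v → I w = J w := by
      constructor
      · intro h w hw1 hw2
        have h2 := h w hw2
        rwa [Function.update_of_ne hw1] at h2
      · intro h w hw
        by_cases hwu : w = u
        · subst hwu
          rw [Function.update_self]
        · rw [Function.update_of_ne hwu]
          exact h w hwu hw
    simp only [h1]
    split_ifs
    · rfl
    · rw [mul_zero]
  · intro j _ hj
    rw [krM_apply, if_neg, mul_zero]
    intro h
    have h1 := h u huv
    rw [Function.update_self] at h1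
    exact hj h1
  · intro hh
    exact absurd (Finset.mem_univ _) hh

theorem kr_comm {u v : ς} (huv : u ≠ v) (x y : Matrix (Fin r) (Fin r) ℂ) :
    kr u x * kr v y = kr v y * kr u x := by
  ext I J
  rw [kr_apply, kr_apply, krM_mul_ne huv, krM_mul_ne (Ne.symm huv)]
  have h1 : (∀ w, w ≠ u → w ≠ v → I w = J w) ↔ ∀ w, w ≠ v → w ≠ u → I w = J w :=
    forall_congr' fun w => forall_comm
  simp only [h1]
  split_ifs
  · rw [mul_comm]
  · rfl

theorem kr_comm' (u v : ς) {x y : Matrix (Fin r) (Fin r) ℂ} (h : x * y = y * x) :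
    kr u x * kr v y = kr v y * kr u x := by
  by_cases huv : u = v
  · subst huv
    rw [← map_mul, ← map_mul, h]
  · exact kr_comm huv x y

theorem kr_map (u : ς) (x : Matrix (Fin r) (Fin r) ℂ) {F : Type*} [FunLike F ℂ ℂ]
    [ZeroHomClass F ℂ ℂ] (f : F) : (kr u x).map f = kr u (x.map f) := by
  ext I J
  rw [Matrix.map_apply, kr_apply, kr_apply, krM_apply, krM_apply, Matrix.map_apply]
  split_ifs
  · rfl
  · exact map_zero f

variable (ς) in
/-- the action on the tensor power -/
def ks (x : Matrix (Fin r) (Fin r) ℂ) : Matrix (ς → Fin r) (ς → Fin r) ℂ := ∑ u, kr u x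

theorem ks_add (x y : Matrix (Fin r) (Fin r) ℂ) : ks ς (x + y) = ks ς x + ks ς y := by
  unfold ks
  rw [← Finset.sum_add_distrib]
  exact Finset.sum_congr rfl fun u _ => map_add _ _ _

theorem ks_smul (c : ℂ) (x : Matrix (Fin r) (Fin r) ℂ) : ks ς (c • x) = c • ks ς x := by
  unfold ks
  rw [Finset.smul_sum]
  exact Finset.sum_congr rfl fun u _ => map_smul _ _ _

theorem ks_zero : ks ς (0 : Matrix (Fin r) (Fin r) ℂ) = 0 := by
  unfold ks
  exact Finset.sum_eq_zero fun u _ => map_zero _

theorem ks_br (x y : Matrix (Fin r) (Fin r) ℂ) :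
    ks ς (x * y - y * x) = ks ς x * ks ς y - ks ς y * ks ς x := by
  unfold ks
  rw [Finset.sum_mul_sum, Finset.sum_mul_sum,
    Finset.sum_comm (f := fun i j : ς => (kr i y : Matrix (ς → Fin r) (ς → Fin r) ℂ) * kr j x),
    ← Finset.sum_sub_distrib]
  refine Finset.sum_congr rfl fun l _ => ?_
  rw [← Finset.sum_sub_distrib, Finset.sum_eq_single l]
  · rw [map_sub, map_mul, map_mul]
  · intro m _ hm
    rw [kr_comm (Ne.symm hm), sub_self]
  · intro hh
    exact absurd (Finset.mem_univ _) hh

theorem ks_map (x : Matrix (Fin r) (Fin r) ℂ) {F : Type*} [FunLike F ℂ ℂ]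
    [AddMonoidHomClass F ℂ ℂ] (f : F) : (ks ς x).map f = ks ς (x.map f) := by
  ext I J
  unfold ks
  rw [Matrix.map_apply, Matrix.sum_apply, Matrix.sum_apply, map_sum]
  refine Finset.sum_congr rfl fun u _ => ?_
  rw [← kr_map, Matrix.map_apply]

variable (ς) in
/-- the tensor power of a matrix -/
def kp (C : Matrix (Fin r) (Fin r) ℂ) : Matrix (ς → Fin r) (ς → Fin r) ℂ :=
  Matrix.of fun I J => ∏ u, C (I u) (J u)

theorem kp_apply (C : Matrix (Fin r) (Fin r) ℂ) (I J : ς → Fin r) :
    kp ς C I J = ∏ u, C (I u) (J u) := rfl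

theorem kp_mul (C C' : Matrix (Fin r) (Fin r) ℂ) : kp ς C * kp ς C' = kp ς (C * C') := by
  ext I J
  rw [Matrix.mul_apply, kp_apply]
  simp only [kp_apply, Matrix.mul_apply]
  rw [Finset.prod_univ_sum, Fintype.piFinset_univ]
  exact Finset.sum_congr rfl fun K _ => Finset.prod_mul_distrib.symm

theorem kp_one : kp ς (1 : Matrix (Fin r) (Fin r) ℂ) = 1 := by
  ext I J
  rw [kp_apply, Matrix.one_apply]
  by_cases hIJ : I = J
  · subst hIJ
    rw [if_pos rfl]
    exact Finset.prod_eq_one fun u _ => Matrix.one_apply_eq _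
  · rw [if_neg hIJ]
    obtain ⟨u, hu⟩ := Function.ne_iff.1 hIJ
    exact Finset.prod_eq_zero (Finset.mem_univ u) (Matrix.one_apply_ne hu)

/-- **The derivative of the tensor power.** -/
theorem kp_der (D : Derivation QBar ℂ ℂ) {C C' : Matrix (Fin r) (Fin r) ℂ} (hC : C' * C = 1) :
    (kp ς C).map D = ks ς (C.map D * C') * kp ς C := by
  ext I J
  have h1 : C.map D * C' * C = C.map D := by rw [Matrix.mul_assoc, hC, Matrix.mul_one]
  rw [Matrix.map_apply, kp_apply, Pool.Agent.W516.DR.der_prod]
  unfold ks
  rw [Finset.sum_mul, Matrix.sum_apply]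
  refine Finset.sum_congr rfl fun u _ => ?_
  rw [kr_apply, Matrix.mul_apply, krM_sum]
  have h2 : ∀ j, kp ς C (Function.update I u j) J =
      C j (J u) * ∏ v ∈ Finset.univ.erase u, C (I v) (J v) := by
    intro j
    rw [kp_apply, ← Finset.mul_prod_erase Finset.univ _ (Finset.mem_univ u), Function.update_self]
    congr 1
    exact Finset.prod_congr rfl fun v hv => by
      rw [Function.update_of_ne (Finset.ne_of_mem_erase hv)]
  simp only [h2, ← mul_assoc, ← Finset.sum_mul]
  rw [← Matrix.mul_apply, h1, Matrix.map_apply]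

theorem kp_der' (D : Derivation QBar ℂ ℂ) {C C' : Matrix (Fin r) (Fin r) ℂ} (hC : C * C' = 1) :
    (kp ς C).map D * kp ς C' = ks ς (C.map D * C') := by
  rw [kp_der D (mul_eq_one_comm.1 hC), Matrix.mul_assoc, kp_mul, hC, kp_one, Matrix.mul_one]

end Pool.Agent.H621.CY
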