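import Pool.Agent.H621.CY.Jc

set_option autoImplicit false
set_option linter.unusedSectionVars false

/-!
# Lie algebras of triples
-/

open Module TensorProduct Matrix Polynomial

noncomputable section

namespace Pool.Agent.H621.CY

open Pool.Agent.Y102 Pool.Agent.W516.DR Pool.Agent.H204R3.GP Pool.Agent.W516.KC
  Pool.Agent.H204R3.SP Pool.Agent.TH119.MX Pool.Agent.R917 Pool.Agent.R917.DT
  Pool.Agent.R917.EC Pool.Agent.H621.BC Pool.Agent.R917.OM Pool.Agent.Y102.AbVar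

open Pool.Agent.H621.RK (R2 exists_crt nodal_pow_dvd aeval_zero_of aeval_eq_of comp_dvd
  nodal_dvd_pow aeval_prod PP PP_br PP_comp PP_mapF PP_aeval scal_br exists_ann)
open Pool.Agent.H621.RM (NS NS_br NS_mapF NS_rm exA exA_inj exA_map exA_BT lev' LP PtA Lif hb)

/-- Triples: a matrix, a number (the Tate twist) and a matrix. -/
abbrev T3 (r h : ℕ) : Type :=
  (Matrix (Fin r) (Fin r) ℂ × ℂ) × Matrix (Fin (2 * h)) (Fin (2 * h)) ℂ

variable {r K h : ℕ}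

theorem aeval_T3 (z : T3 r h) (Q : ℂ[X]) :
    aeval z Q = ((aeval z.1.1 Q, Q.eval z.1.2), aeval z.2 Q) := by
  have e1 := Polynomial.aeval_algHom_apply ((AlgHom.fst ℂ (Matrix (Fin r) (Fin r) ℂ) ℂ).comp
    (AlgHom.fst ℂ (Matrix (Fin r) (Fin r) ℂ × ℂ) (Matrix (Fin (2 * h)) (Fin (2 * h)) ℂ))) z Q
  have e2 := Polynomial.aeval_algHom_apply ((AlgHom.snd ℂ (Matrix (Fin r) (Fin r) ℂ) ℂ).comp
    (AlgHom.fst ℂ (Matrix (Fin r) (Fin r) ℂ × ℂ) (Matrix (Fin (2 * h)) (Fin (2 * h)) ℂ))) z Q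
  have e3 := Polynomial.aeval_algHom_apply
    (AlgHom.snd ℂ (Matrix (Fin r) (Fin r) ℂ × ℂ) (Matrix (Fin (2 * h)) (Fin (2 * h)) ℂ)) z Q
  refine Prod.ext (Prod.ext e1.symm ?_) e3.symm
  rw [← Polynomial.coe_aeval_eq_eval]
  exact e2.symm

/-- A Lie algebra of triples: block triangular, defined over the rational numbers, closed under
replicas; the third component minus half of the second one is in the Lie algebra of the Hodge
group. -/
structure LQ (A : AbVar h) (lev : Fin r → Fin K) (𝔭 : Submodule ℂ (T3 r h)) : Prop where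
  bt : ∀ z ∈ 𝔭, BT lev z.1.1
  br : ∀ z ∈ 𝔭, ∀ w ∈ 𝔭, z * w - w * z ∈ 𝔭
  comp : ∀ z ∈ 𝔭, ∀ f : ℂ →ₗ[QQ] ℂ, (((z.1.1.map f, f z.1.2), z.2.map f) : T3 r h) ∈ 𝔭
  rq : ∀ z ∈ 𝔭, ∀ (s : Finset ℂ) (N : ℕ), aeval z (Lagrange.nodal s id ^ N) = 0 →
    ∀ (σ : ℂ →+ ℂ) (Q : ℂ[X]), (∀ a ∈ s, (X - C a) ^ N ∣ Q - C (σ a)) → aeval z Q ∈ 𝔭
  cut : ∀ z ∈ 𝔭, z.2 - (z.1.2 / 2) • 1 ∈ NS A

/-- The Lie algebra of triples contains the logarithmic derivatives of the periods. -/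
structure PtQ (A : AbVar h) (C C' : Matrix (Fin r) (Fin r) ℂ) (lev : Fin r → Fin K)
    (𝔭 : Submodule ℂ (T3 r h)) : Prop where
  lq : LQ A lev 𝔭
  der : ∀ (D : Derivation QBar ℂ ℂ) (lam : ℂ →ₗ[ℚ] ℚ),
    ((((C.map D * C').map (lamF lam), lamF lam (D tau / tau)),
      rm (Pool.Agent.W516.DR.cmpE lam (XX A.basis D))) : T3 r h) ∈ 𝔭

/-- the embedding -/
def ex3 : T3 r h →ₗ[ℂ] R2 (r + 1) (Fin (2 * h)) :=
  LinearMap.prodMap exA.toLinearMap LinearMap.id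

theorem ex3_apply (z : T3 r h) : ex3 z = (exA z.1, z.2) := rfl

variable {A : AbVar h} {lev : Fin r → Fin K} {𝔭 : Submodule ℂ (T3 r h)}

theorem mem_map_ex3 {x : Matrix (Fin (r + 1)) (Fin (r + 1)) ℂ}
    {y : Matrix (Fin (2 * h)) (Fin (2 * h)) ℂ} :
    ((x, y) : R2 (r + 1) (Fin (2 * h))) ∈ 𝔭.map ex3 ↔
      ∃ w : Matrix (Fin r) (Fin r) ℂ × ℂ, exA w = x ∧ ((w, y) : T3 r h) ∈ 𝔭 := by
  constructor
  · rintro ⟨z, hz, h1⟩
    obtain ⟨h2, h3⟩ := Prod.ext_iff.1 h1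
    refine ⟨z.1, h2, ?_⟩
    rw [← show z.2 = y from h3]
    exact hz
  · rintro ⟨w, rfl, hw⟩
    exact ⟨_, hw, rfl⟩

theorem mem_map_zero {y : Matrix (Fin (2 * h)) (Fin (2 * h)) ℂ} :
    ((0, y) : R2 (r + 1) (Fin (2 * h))) ∈ 𝔭.map ex3 ↔ ((0, y) : T3 r h) ∈ 𝔭 := by
  rw [mem_map_ex3]
  constructor
  · rintro ⟨w, hw, h1⟩
    rw [exA_inj (hw.trans (map_zero exA).symm)] at h1
    exact h1
  · intro h1
    exact ⟨0, map_zero exA, h1⟩

theorem LQ.lp (hL : LQ A lev 𝔭) : LP (lev' lev) (𝔭.map ex3) where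
  bt := by
    rintro _ ⟨z, hz, rfl⟩
    exact exA_BT (hL.bt z hz) _
  br := by
    rintro _ ⟨z, hz, rfl⟩ _ ⟨w, hw, rfl⟩
    refine ⟨z * w - w * z, hL.br z hz w hw, ?_⟩
    refine Prod.ext ?_ rfl
    change exA (z.1 * w.1 - w.1 * z.1) = exA z.1 * exA w.1 - exA w.1 * exA z.1
    rw [map_sub, map_mul, map_mul]
  comp := by
    rintro _ ⟨z, hz, rfl⟩ f
    refine ⟨_, hL.comp z hz f, ?_⟩
    refine Prod.ext ?_ rfl
    change exA (z.1.1.map f, f z.1.2) = (exA z.1).map f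
    exact (exA_map z.1.1 z.1.2 f).symm
  rep := by
    classical
    intro x y sx sy N hx hy hz σ Q hQ
    obtain ⟨w, rfl, hw⟩ := mem_map_ex3.1 hz
    rw [Polynomial.aeval_algHom_apply] at hx
    have hx' := exA_inj (hx.trans (map_zero exA).symm)
    obtain ⟨Q', hQ'⟩ := exists_crt (sx ∪ sy) (N + 1) σ
    have h0 : aeval ((w, y) : T3 r h) (Lagrange.nodal (sx ∪ sy) id ^ (N + 1)) = 0 := by
      obtain ⟨P, hP⟩ := nodal_dvd_pow (Finset.subset_union_left (s₁ := sx) (s₂ := sy))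
        (Nat.le_succ N)
      obtain ⟨P', hP'⟩ := nodal_dvd_pow (Finset.subset_union_right (s₁ := sx) (s₂ := sy))
        (Nat.succ_le_succ (Nat.zero_le N))
      have e1 := Polynomial.aeval_algHom_apply (AlgHom.fst ℂ (Matrix (Fin r) (Fin r) ℂ × ℂ)
        (Matrix (Fin (2 * h)) (Fin (2 * h)) ℂ)) ((w, y) : T3 r h)
        (Lagrange.nodal (sx ∪ sy) id ^ (N + 1))
      have e2 := Polynomial.aeval_algHom_apply (AlgHom.snd ℂ (Matrix (Fin r) (Fin r) ℂ × ℂ)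
        (Matrix (Fin (2 * h)) (Fin (2 * h)) ℂ)) ((w, y) : T3 r h)
        (Lagrange.nodal (sx ∪ sy) id ^ (N + 1))
      refine Prod.ext (e1.symm.trans ?_) (e2.symm.trans ?_)
      · change aeval w (Lagrange.nodal (sx ∪ sy) id ^ (N + 1)) = 0
        rw [hP, map_mul, hx', zero_mul]
      · change aeval y (Lagrange.nodal (sx ∪ sy) id ^ (N + 1)) = 0
        rw [hP', map_mul, pow_one, hy, zero_mul]
    have h1 := hL.rq _ hw _ _ h0 σ Q' hQ'
    have h2 : aeval y Q' = aeval y Q := by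
      refine aeval_congr hy fun a ha => ?_
      rw [hQ a ha]
      have h3 := (dvd_pow_self (X - C a : ℂ[X]) (Nat.succ_ne_zero N)).trans
        (hQ' a (Finset.mem_union_right _ ha))
      rw [dvd_iff_isRoot, IsRoot.def, eval_sub, eval_C, sub_eq_zero] at h3
      exact h3
    have h4 : aeval ((w, y) : T3 r h) Q' = (aeval w Q', aeval y Q) := by
      have e1 := Polynomial.aeval_algHom_apply (AlgHom.fst ℂ (Matrix (Fin r) (Fin r) ℂ × ℂ)
        (Matrix (Fin (2 * h)) (Fin (2 * h)) ℂ)) ((w, y) : T3 r h) Q'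
      have e2 := Polynomial.aeval_algHom_apply (AlgHom.snd ℂ (Matrix (Fin r) (Fin r) ℂ × ℂ)
        (Matrix (Fin (2 * h)) (Fin (2 * h)) ℂ)) ((w, y) : T3 r h) Q'
      refine Prod.ext e1.symm (e2.symm.trans ?_)
      exact h2
    rw [h4] at h1
    refine ⟨exA (aeval w Q'), mem_map_ex3.2 ⟨_, rfl, h1⟩, fun hσ => ?_⟩
    have h5 : aeval w Q' = 0 := by
      refine aeval_zero_of hx' fun a ha => ?_
      have h3 := hQ' a (Finset.mem_union_left _ ha)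
      rw [hσ a ha, C_0, sub_zero] at h3
      exact (pow_dvd_pow _ (Nat.le_succ N)).trans h3
    rw [h5]
    exact map_zero exA

variable {C C' : Matrix (Fin r) (Fin r) ℂ}

theorem PtQ.pta (hP : PtQ A C C' lev 𝔭) : PtA A (lev' lev) (𝔭.map ex3) where
  lp := hP.lq.lp
  der := fun D lam => ⟨_, mem_map_ex3.2 ⟨_, rfl, hP.der D lam⟩⟩

theorem mem_nn {Y : Module.End ℚ A.H1} :
    Y ∈ RM.nn A (𝔭.map ex3) ↔ Y ∈ A.NA ∧ ((0, rm Y) : T3 r h) ∈ 𝔭 := by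
  change (Y ∈ A.NA ∧ _) ↔ _
  rw [mem_map_zero]

/-- The components of an element `(0, Y)`. -/
theorem comp_zero (hL : LQ A lev 𝔭) {Y : Matrix (Fin (2 * h)) (Fin (2 * h)) ℂ}
    (hY : ((0, Y) : T3 r h) ∈ 𝔭) (lam : ℂ →ₗ[ℚ] ℚ) :
    ∃ Z ∈ RM.nn A (𝔭.map ex3), rm Z = Y.map (lamF lam) := by
  have h1 := hL.cut _ hY
  change Y - ((0 : ℂ) / 2) • 1 ∈ NS A at h1
  rw [zero_div, zero_smul, sub_zero] at h1
  obtain ⟨Z, hZ, h2⟩ := RM.mem_NS_iff.1 h1 lam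
  refine ⟨Z, mem_nn.2 ⟨hZ, ?_⟩, h2⟩
  have h3 := hL.comp _ hY (lamF lam)
  rw [h2]
  convert h3 using 1
  refine Prod.ext (Prod.ext ?_ ?_) rfl
  · ext i j
    exact (map_zero (lamF lam)).symm
  · exact (map_zero (lamF lam)).symm

end Pool.Agent.H621.CY
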