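import Pool.Agent.H621.CY.Kr

set_option autoImplicit false
set_option linter.unusedSectionVars false

/-!
# The action of triples on multilinear maps
-/

open Module TensorProduct Matrix Polynomial

noncomputable section

namespace Pool.Agent.H621.CY

open Pool.Agent.Y102 Pool.Agent.W516.DR Pool.Agent.H204R3.GP Pool.Agent.W516.KC
  Pool.Agent.H204R3.SP Pool.Agent.TH119.MX Pool.Agent.R917 Pool.Agent.R917.DT
  Pool.Agent.R917.EC Pool.Agent.H621.BC Pool.Agent.R917.OM Pool.Agent.Y102.AbVar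

open Pool.Agent.H621.RK (R2 exists_crt nodal_pow_dvd aeval_zero_of aeval_eq_of comp_dvd
  nodal_dvd_pow aeval_prod PP PP_br PP_comp PP_mapF PP_aeval scal_br exists_ann)
open Pool.Agent.H621.RM (NS NS_br NS_mapF NS_rm exA exA_inj exA_map exA_BT lev' LP PtA Lif hb)

section abs

theorem abs_br {R : Type*} [Ring R] [Algebra ℂ R] {S T P Q : R} (c d : ℂ) (c1 : Q * S = S * Q)
    (c2 : P * T = T * P) : Q * P - P * Q - (S * T - T * S) =
      (Q + d • 1 - T) * (P + c • 1 - S) - (P + c • 1 - S) * (Q + d • 1 - T) := by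
  simp only [mul_add, add_mul, mul_sub, sub_mul, smul_mul_assoc, mul_smul_comm, one_mul, mul_one,
    c1, c2]
  module

theorem abs_slots {R κ : Type*} [Ring R] [Fintype κ] [DecidableEq κ] {s t : κ → R}
    (h : ∀ i j, i ≠ j → s i * t j = t j * s i) :
    ∑ l, (s l * t l - t l * s l) = (∑ l, s l) * (∑ l, t l) - (∑ l, t l) * ∑ l, s l := by
  rw [Finset.sum_mul_sum, Finset.sum_mul_sum,
    Finset.sum_comm (f := fun i j : κ => t i * s j), ← Finset.sum_sub_distrib]
  refine Finset.sum_congr rfl fun l _ => ?_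
  rw [← Finset.sum_sub_distrib, Finset.sum_eq_single l]
  · intro m _ hm
    rw [h l m (Ne.symm hm), sub_self]
  · intro hh
    exact absurd (Finset.mem_univ _) hh

theorem abs_add {G : Type*} [AddCommGroup G] {a b c d : G} (h : c = -d) :
    a + (b + c) = a + b - d := by
  rw [h]
  abel

end abs

variable {κ : Type} [Fintype κ] [DecidableEq κ] {a r h : ℕ} {R : Type} [Fintype R] [DecidableEq R]

/-- the space of multilinear maps -/
abbrev MM (κ : Type) (a : ℕ) (R : Type) : Type :=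
  MultilinearMap ℂ (fun _ : κ => (Fin a → ℂ)) (R → ℂ)

/-- the action from the right -/
def tv (x : Matrix R R ℂ) : Module.End ℂ (R → ℂ) := Matrix.toLinAlgEquiv' xᵀ

theorem tv_apply (x : Matrix R R ℂ) (v : R → ℂ) : tv x v = v ᵥ* x := by
  unfold tv
  rw [Matrix.toLinAlgEquiv'_apply, Matrix.mulVec_transpose]

theorem tv_mul (x y : Matrix R R ℂ) : tv (x * y) = tv y * tv x := by
  unfold tv
  rw [Matrix.transpose_mul, map_mul]

theorem tv_sub (x y : Matrix R R ℂ) : tv (x - y) = tv x - tv y := by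
  unfold tv
  rw [Matrix.transpose_sub, map_sub]

theorem tv_neg (x : Matrix R R ℂ) : tv (-x) = -tv x := by
  unfold tv
  rw [Matrix.transpose_neg, map_neg]

theorem tv_zero : tv (0 : Matrix R R ℂ) = 0 := by
  unfold tv
  rw [Matrix.transpose_zero, map_zero]

theorem tv_sum {ι : Type*} (s : Finset ι) (x : ι → Matrix R R ℂ) :
    tv (∑ i ∈ s, x i) = ∑ i ∈ s, tv (x i) := by
  unfold tv
  rw [Matrix.transpose_sum, map_sum]

theorem aeval_tr (N : Matrix R R ℂ) (P : Polynomial ℂ) :
    Polynomial.aeval Nᵀ P = (Polynomial.aeval N P)ᵀ := by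
  rw [Polynomial.aeval_eq_sum_range, Polynomial.aeval_eq_sum_range, Matrix.transpose_sum]
  refine Finset.sum_congr rfl fun i _ => ?_
  rw [Matrix.transpose_smul, Matrix.transpose_pow]

theorem tv_aeval (x : Matrix R R ℂ) (P : ℂ[X]) : aeval (tv x) P = tv (aeval x P) := by
  unfold tv
  rw [← aeval_tr]
  exact Polynomial.aeval_algHom_apply (Matrix.toLinAlgEquiv' : Matrix R R ℂ ≃ₐ[ℂ] _).toAlgHom
    xᵀ P

/-- the composition with an endomorphism of the values -/
def post : Module.End ℂ (R → ℂ) →ₐ[ℂ] Module.End ℂ (MM κ a R) where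
  toFun T :=
    { toFun := fun φ => T.compMultilinearMap φ
      map_add' := fun φ ψ => MultilinearMap.ext fun v => map_add T _ _
      map_smul' := fun c φ => MultilinearMap.ext fun v => map_smul T c _ }
  map_one' := by
    refine LinearMap.ext fun φ => ?_
    rfl
  map_mul' S T := by
    refine LinearMap.ext fun φ => ?_
    rfl
  map_zero' := by
    refine LinearMap.ext fun φ => ?_
    rfl
  map_add' S T := by
    refine LinearMap.ext fun φ => ?_
    rfl
  commutes' c := by
    refine LinearMap.ext fun φ => ?_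
    rfl

theorem post_apply (T : Module.End ℂ (R → ℂ)) (φ : MM κ a R) (v : κ → Fin a → ℂ) :
    post T φ v = T (φ v) := rfl

theorem post_aeval (T : Module.End ℂ (R → ℂ)) (P : ℂ[X]) :
    aeval (post T : Module.End ℂ (MM κ a R)) P = post (aeval T P) :=
  Polynomial.aeval_algHom_apply post T P

theorem post_slot (T : Module.End ℂ (R → ℂ)) (S : Module.End ℂ (Fin a → ℂ)) (l : κ) :
    (post T : Module.End ℂ (MM κ a R)) * slotM (R → ℂ) S l =
      slotM (R → ℂ) S l * post T := by
  refine LinearMap.ext fun φ => ?_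
  refine MultilinearMap.ext fun v => ?_
  rw [Module.End.mul_apply, Module.End.mul_apply, post_apply, slotM_apply, slotM_apply, post_apply]

/-- the action of a triple -/
def rho (k : ℤ) (x : Matrix R R ℂ) (t : ℂ) (y : Matrix (Fin a) (Fin a) ℂ) :
    Module.End ℂ (MM κ a R) :=
  post (tv x) + ((k : ℂ) * t) • 1 - ∑ l, slotM (R → ℂ) (tv y) l

theorem slot_comm_ne {S T : Module.End ℂ (Fin a → ℂ)} {k l : κ} (hkl : k ≠ l) :
    slotM (R → ℂ) S k * slotM (R → ℂ) T l = slotM (R → ℂ) T l * slotM (R → ℂ) S k := by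
  refine LinearMap.ext fun φ => ?_
  refine MultilinearMap.ext fun v => ?_
  rw [Module.End.mul_apply, Module.End.mul_apply, slotM_apply, slotM_apply, slotM_apply,
    slotM_apply, Function.update_of_ne hkl, Function.update_of_ne (Ne.symm hkl),
    Function.update_comm hkl]

theorem slotM_neg {V W : Type*} [AddCommGroup V] [Module ℂ V] [AddCommGroup W] [Module ℂ W]
    (T : Module.End ℂ V) (k : κ) : slotM W (-T) k = -slotM W T k := by
  refine LinearMap.ext fun φ => ?_
  refine MultilinearMap.ext fun v => ?_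
  rw [slotM_apply, LinearMap.neg_apply, LinearMap.neg_apply, MultilinearMap.map_update_neg,
    _root_.neg_apply, slotM_apply]

theorem slotM_sub {V W : Type*} [AddCommGroup V] [Module ℂ V] [AddCommGroup W] [Module ℂ W]
    (S T : Module.End ℂ V) (k : κ) : slotM W (S - T) k = slotM W S k - slotM W T k := by
  rw [sub_eq_add_neg, slotM_add, slotM_neg, sub_eq_add_neg]

theorem slots_br (y y' : Matrix (Fin a) (Fin a) ℂ) :
    ∑ l : κ, slotM (R → ℂ) (tv (y * y' - y' * y)) l =
      (∑ l : κ, slotM (R → ℂ) (tv y) l) * (∑ l : κ, slotM (R → ℂ) (tv y') l) -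
        (∑ l : κ, slotM (R → ℂ) (tv y') l) * (∑ l : κ, slotM (R → ℂ) (tv y) l) := by
  refine Eq.trans ?_ (abs_slots (R := Module.End ℂ (MM κ a R)) fun i j hij => slot_comm_ne hij)
  refine Finset.sum_congr rfl fun l _ => ?_
  rw [slotM_mul, slotM_mul, ← tv_mul, ← tv_mul, tv_sub, slotM_sub]

theorem rho_br (k : ℤ) (x x' : Matrix R R ℂ) (t t' : ℂ) (y y' : Matrix (Fin a) (Fin a) ℂ) :
    (rho k (x * x' - x' * x) 0 (y * y' - y' * y) : Module.End ℂ (MM κ a R)) =
      rho k x' t' y' * rho k x t y - rho k x t y * rho k x' t' y' := by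
  unfold rho
  rw [mul_zero, zero_smul, add_zero, slots_br, tv_sub, tv_mul, tv_mul, map_sub, map_mul, map_mul]
  have c1 : (post (tv x') : Module.End ℂ (MM κ a R)) *
      (∑ l : κ, slotM (R → ℂ) (tv y) l) = (∑ l : κ, slotM (R → ℂ) (tv y) l) *
        post (tv x') := by
    rw [Finset.mul_sum, Finset.sum_mul]
    exact Finset.sum_congr rfl fun l _ => post_slot _ _ _
  have c2 : (post (tv x) : Module.End ℂ (MM κ a R)) *
      (∑ l : κ, slotM (R → ℂ) (tv y') l) = (∑ l : κ, slotM (R → ℂ) (tv y') l) *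
        post (tv x) := by
    rw [Finset.mul_sum, Finset.sum_mul]
    exact Finset.sum_congr rfl fun l _ => post_slot _ _ _
  exact abs_br (R := Module.End ℂ (MM κ a R)) _ _ c1 c2

theorem aeval_neg_mat (y : Matrix (Fin a) (Fin a) ℂ) (P : ℂ[X]) :
    aeval (-y) P = aeval y (P.comp (-X)) := by
  rw [aeval_comp, map_neg, aeval_X]

theorem abs_add' {G : Type*} [AddCommGroup G] {a b c d e : G} (h : c = -d) (h' : a = e) :
    b + (c + a) = e + b - d := by
  rw [h, h']
  abel

/-- **Replicas.** -/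
theorem rho_rep {ς : Type} [Fintype ς] [DecidableEq ς] {k : ℤ} {z : T3 r h} {s : Finset ℂ} {N : ℕ}
    (h0 : aeval z (Lagrange.nodal s id ^ N) = 0) (σ : ℂ →+ ℂ) {Q : ℂ[X]}
    (hQ : ∀ a ∈ s, (X - C a) ^ N ∣ Q - C (σ a)) {φ : MM κ (2 * h) (ς → Fin r)}
    (hφ : rho k (ks ς z.1.1) z.1.2 z.2 φ = 0) :
    rho k (ks ς (aeval z Q).1.1) (aeval z Q).1.2 (aeval z Q).2 φ = 0 := by
  classical
  obtain ⟨ht, hN⟩ := eval_mem h0
  rw [aeval_T3] at h0
  have hx : Polynomial.aeval z.1.1 (Lagrange.nodal s id ^ N) = 0 :=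
    congrArg (fun w : T3 r h => w.1.1) h0
  have hy : Polynomial.aeval z.2 (Lagrange.nodal s id ^ N) = 0 :=
    congrArg (fun w : T3 r h => w.2) h0
  let A : Option (κ ⊕ ς) → Module.End ℂ (MM κ (2 * h) (ς → Fin r)) := fun o =>
    o.elim (((k : ℂ) * z.1.2) • 1) fun o' => Sum.elim
      (fun l => slotM ((ς → Fin r) → ℂ) (tv (-z.2)) l) (fun u => post (tv (kr u z.1.1))) o'
  let S : Option (κ ⊕ ς) → Finset ℂ := fun o => o.elim {(k : ℂ) * z.1.2}
    fun o' => Sum.elim (fun _ => s.image fun x => -x) (fun _ => s) o'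
  let T : Option (κ ⊕ ς) → ℂ[X] := fun o => o.elim (C (σ ((k : ℂ) * z.1.2)))
    fun o' => Sum.elim (fun _ => -(Q.comp (-X))) (fun _ => Q) o'
  have hsm : ∀ c : ℂ, ∀ R : Module.End ℂ (MM κ (2 * h) (ς → Fin r)), Commute (c • 1) R :=
      fun c R => by
    change (c • 1) * R = R * (c • 1)
    rw [smul_mul_assoc, mul_smul_comm, one_mul, mul_one]
  have hc : ∀ i j, Commute (A i) (A j) := by
    rintro (_ | i | i) (_ | j | j)
    · exact Commute.refl _
    · exact hsm _ _
    · exact hsm _ _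
    · exact (hsm _ _).symm
    · exact slotM_comm rfl i j
    · exact (post_slot _ _ _).symm
    · exact (hsm _ _).symm
    · exact post_slot _ _ _
    · change post (tv (kr i z.1.1)) * post (tv (kr j z.1.1)) =
        post (tv (kr j z.1.1)) * post (tv (kr i z.1.1))
      rw [← map_mul, ← map_mul, ← tv_mul, ← tv_mul, kr_comm' j i rfl]
  have hann : ∀ i, aeval (A i) (Lagrange.nodal (S i) id ^ N) = 0 := by
    rintro (_ | l | u)
    · change aeval (((k : ℂ) * z.1.2) • (1 : Module.End ℂ (MM κ (2 * h) (ς → Fin r))))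
        (Lagrange.nodal {(k : ℂ) * z.1.2} id ^ N) = 0
      rw [← Algebra.algebraMap_eq_smul_one, Polynomial.aeval_algebraMap_apply_eq_algebraMap_eval,
        eval_pow]
      have e1 : (Lagrange.nodal {(k : ℂ) * z.1.2} (id : ℂ → ℂ)).eval ((k : ℂ) * z.1.2) = 0 :=
        Lagrange.eval_nodal_at_node (v := id) (Finset.mem_singleton_self _)
      rw [e1, zero_pow (by omega), map_zero]
    · change aeval (slotM ((ς → Fin r) → ℂ) (tv (-z.2)) l)
        (Lagrange.nodal (s.image fun x => -x) id ^ N) = 0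
      rw [slotM_aeval, tv_aeval, aeval_neg_mat]
      have e1 : aeval z.2 ((Lagrange.nodal (s.image fun x => -x) (id : ℂ → ℂ) ^ N).comp (-X)) = 0 := by
        refine aeval_zero_of hy fun a ha => ?_
        rw [pow_comp]
        refine pow_dvd_pow_of_dvd ?_ N
        rw [dvd_iff_isRoot, IsRoot.def, eval_comp, eval_neg, eval_X]
        exact Lagrange.eval_nodal_at_node (v := id) (i := -a)
          (Finset.mem_image.2 ⟨a, ha, rfl⟩)
      rw [e1, tv_zero, slotM_zero]
    · change aeval (post (tv (kr u z.1.1)) : Module.End ℂ (MM κ (2 * h) (ς → Fin r))) _ = 0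
      rw [post_aeval, tv_aeval, Polynomial.aeval_algHom_apply]
      change post (tv (kr u (Polynomial.aeval z.1.1 (Lagrange.nodal s id ^ N)))) = 0
      rw [hx, map_zero, tv_zero, map_zero]
  have hdv : ∀ i, ∀ x ∈ S i, (X - C x) ^ N ∣ T i - C (σ x) := by
    rintro (_ | l | u) x hx
    · rw [Finset.mem_singleton.1 hx]
      change _ ∣ C (σ ((k : ℂ) * z.1.2)) - C (σ ((k : ℂ) * z.1.2))
      rw [sub_self]
      exact dvd_zero _
    · obtain ⟨b, hb, rfl⟩ := Finset.mem_image.1 hx
      obtain ⟨U, hU⟩ := hQ b hb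
      refine ⟨-((-1) ^ N * U.comp (-X)), ?_⟩
      change -(Q.comp (-X)) - C (σ (-b)) = _
      have e1 : Q.comp (-X) - C (σ b) = ((X - C b) ^ N * U).comp (-X) := by
        rw [← hU, sub_comp, C_comp]
      have e2 : -(Q.comp (-X)) - C (σ (-b)) = -(Q.comp (-X) - C (σ b)) := by
        rw [map_neg, C_neg]
        ring
      rw [e2, e1, mul_comp, pow_comp, sub_comp, X_comp, C_comp]
      have e3 : (-X - C b : ℂ[X]) = (-1) * (X - C (-b)) := by
        rw [C_neg]
        ring
      rw [e3, mul_pow]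
      ring
    · exact hQ x hx
  have hsum : ∀ G : Option (κ ⊕ ς) → MM κ (2 * h) (ς → Fin r),
      ∑ i, G i = G none + (∑ l, G (some (Sum.inl l)) + ∑ u, G (some (Sum.inr u))) := fun G => by
    rw [Fintype.sum_option, Fintype.sum_sum_type]
  have hks : ∀ x : Matrix (Fin r) (Fin r) ℂ,
      (post (tv (ks ς x)) : Module.End ℂ (MM κ (2 * h) (ς → Fin r))) φ =
        ∑ u, (post (tv (kr u x)) : Module.End ℂ (MM κ (2 * h) (ς → Fin r))) φ := fun x => by
    unfold ks
    rw [tv_sum, map_sum, LinearMap.sum_apply]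
  have hv : ∑ i, A i φ = 0 := by
    rw [hsum]
    change (((k : ℂ) * z.1.2) • (1 : Module.End ℂ (MM κ (2 * h) (ς → Fin r)))) φ +
      (∑ l, slotM ((ς → Fin r) → ℂ) (tv (-z.2)) l φ +
        ∑ u, (post (tv (kr u z.1.1)) : Module.End ℂ (MM κ (2 * h) (ς → Fin r))) φ) = 0
    rw [← hφ]
    unfold rho
    rw [LinearMap.sub_apply, LinearMap.add_apply, LinearMap.sum_apply]
    refine abs_add' ?_ (hks _).symm
    rw [← Finset.sum_neg_distrib]
    refine Finset.sum_congr rfl fun l _ => ?_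
    rw [tv_neg, slotM_neg, LinearMap.neg_apply]
  have h5 := kills_sum hc hann σ hdv hv
  rw [hsum] at h5
  change aeval (((k : ℂ) * z.1.2) • (1 : Module.End ℂ (MM κ (2 * h) (ς → Fin r))))
      (C (σ ((k : ℂ) * z.1.2))) φ +
      (∑ l, aeval (slotM ((ς → Fin r) → ℂ) (tv (-z.2)) l) (-(Q.comp (-X))) φ +
        ∑ u, aeval (post (tv (kr u z.1.1)) : Module.End ℂ (MM κ (2 * h) (ς → Fin r))) Q φ) = 0 at h5
  have e4 : σ ((k : ℂ) * z.1.2) = (k : ℂ) * Q.eval z.1.2 := by
    rw [eval_of_dvd hN hQ ht, ← zsmul_eq_mul, map_zsmul, zsmul_eq_mul]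
  have e5 : ∀ l, aeval (slotM ((ς → Fin r) → ℂ) (tv (-z.2)) l) (-(Q.comp (-X))) =
      -(slotM ((ς → Fin r) → ℂ) (tv (aeval z.2 Q)) l :
        Module.End ℂ (MM κ (2 * h) (ς → Fin r))) := by
    intro l
    rw [slotM_aeval, tv_aeval, aeval_neg_mat]
    have e6 : (-(Q.comp (-X))).comp (-X) = -Q := by
      rw [neg_comp, comp_assoc, neg_comp, X_comp, neg_neg, comp_X]
    rw [e6, map_neg, tv_neg, slotM_neg]
  have e7 : ∀ u, aeval (post (tv (kr u z.1.1)) : Module.End ℂ (MM κ (2 * h) (ς → Fin r))) Q =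
      post (tv (kr u (aeval z.1.1 Q))) := by
    intro u
    rw [post_aeval, tv_aeval, Polynomial.aeval_algHom_apply]
  rw [aeval_C, e4, Algebra.algebraMap_eq_smul_one] at h5
  unfold rho
  rw [aeval_T3, LinearMap.sub_apply, LinearMap.add_apply, LinearMap.sum_apply]
  rw [← h5]
  refine (abs_add' ?_ ?_).symm
  · rw [← Finset.sum_neg_distrib]
    refine Finset.sum_congr rfl fun l _ => ?_
    rw [e5, LinearMap.neg_apply]
  · rw [hks]
    exact Finset.sum_congr rfl fun u _ => by rw [e7]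

end Pool.Agent.H621.CY
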