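import Pool.Agent.H621.BC.Hom

set_option autoImplicit false
set_option linter.unusedSectionVars false

/-!
# Products of abelian varieties
-/

open Module

noncomputable section

namespace Pool.Agent.H621.CY

open Pool.Agent.Y102

variable {g h : ℕ}

/-- the first projection of the tangent space -/
def p1 (g h : ℕ) : (Fin (g + h) → ℂ) →L[ℂ] (Fin g → ℂ) :=
  ContinuousLinearMap.pi fun i => ContinuousLinearMap.proj (Fin.castAdd h i)

/-- the second projection of the tangent space -/
def p2 (g h : ℕ) : (Fin (g + h) → ℂ) →L[ℂ] (Fin h → ℂ) :=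
  ContinuousLinearMap.pi fun i => ContinuousLinearMap.proj (Fin.natAdd g i)

theorem p1_apply (z : Fin (g + h) → ℂ) (i : Fin g) : p1 g h z i = z (Fin.castAdd h i) := rfl

theorem p2_apply (z : Fin (g + h) → ℂ) (i : Fin h) : p2 g h z i = z (Fin.natAdd g i) := rfl

/-- the tangent space of the product -/
def eT (g h : ℕ) : ((Fin g → ℂ) × (Fin h → ℂ)) ≃ₗ[ℂ] (Fin (g + h) → ℂ) where
  toFun x := Fin.append x.1 x.2
  invFun z := (p1 g h z, p2 g h z)
  left_inv x := by
    refine Prod.ext ?_ ?_
    · funext i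
      exact Fin.append_left _ _ _
    · funext i
      exact Fin.append_right _ _ _
  right_inv z := by
    funext i
    refine Fin.addCases (fun j => ?_) (fun j => ?_) i
    · exact Fin.append_left _ _ _
    · exact Fin.append_right _ _ _
  map_add' x y := by
    funext i
    refine Fin.addCases (fun j => ?_) (fun j => ?_) i
    · rw [Pi.add_apply, Fin.append_left, Fin.append_left, Fin.append_left]
      rfl
    · rw [Pi.add_apply, Fin.append_right, Fin.append_right, Fin.append_right]
      rfl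
  map_smul' a x := by
    funext i
    refine Fin.addCases (fun j => ?_) (fun j => ?_) i
    · rw [Pi.smul_apply, Fin.append_left, Fin.append_left]
      rfl
    · rw [Pi.smul_apply, Fin.append_right, Fin.append_right]
      rfl

theorem p1_eT (x : (Fin g → ℂ) × (Fin h → ℂ)) : p1 g h (eT g h x) = x.1 :=
  congrArg Prod.fst ((eT g h).symm_apply_apply x)

theorem p2_eT (x : (Fin g → ℂ) × (Fin h → ℂ)) : p2 g h (eT g h x) = x.2 :=
  congrArg Prod.snd ((eT g h).symm_apply_apply x)

theorem ext12 {z w : Fin (g + h) → ℂ} (h1 : p1 g h z = p1 g h w) (h2 : p2 g h z = p2 g h w) :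
    z = w := by
  funext i
  refine Fin.addCases (fun j => ?_) (fun j => ?_) i
  · exact congrFun h1 j
  · exact congrFun h2 j

/-- the indices of the lattice -/
def eL (g h : ℕ) : Fin (2 * g) ⊕ Fin (2 * h) ≃ Fin (2 * (g + h)) :=
  finSumFinEquiv.trans (finCongr (by ring))

/-- the indices of the theta functions -/
theorem exists_eN (m n : ℕ) : ∃ (N : ℕ) (e : Fin (N + 1) ≃ Fin (m + 1) × Fin (n + 1)),
    e 0 = (0, 0) := by
  have h1 : (m + 1) * (n + 1) = (m * n + m + n) + 1 := by ring
  refine ⟨m * n + m + n, (finCongr h1.symm).trans finProdFinEquiv.symm, ?_⟩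
  rw [Equiv.trans_apply, Equiv.symm_apply_eq]
  apply Fin.ext
  simp

/-- the number of the theta functions -/
def nN (m n : ℕ) : ℕ := (exists_eN m n).choose

/-- the indices of the theta functions -/
def eN (m n : ℕ) : Fin (nN m n + 1) ≃ Fin (m + 1) × Fin (n + 1) :=
  (exists_eN m n).choose_spec.choose

theorem eN_zero (m n : ℕ) : eN m n 0 = (0, 0) := (exists_eN m n).choose_spec.choose_spec

section fn

variable {u : (Fin g → ℂ) → ℂ} {v : (Fin h → ℂ) → ℂ}

/-- the product function -/
def pf (u : (Fin g → ℂ) → ℂ) (v : (Fin h → ℂ) → ℂ) (z : Fin (g + h) → ℂ) : ℂ :=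
  u (p1 g h z) * v (p2 g h z)

theorem an1 (hu : AnalyticOnNhd ℂ u Set.univ) :
    AnalyticOnNhd ℂ (fun z => u (p1 g h z)) Set.univ := fun z _ =>
  (hu _ (Set.mem_univ _)).comp ((p1 g h).analyticAt z)

theorem an2 (hv : AnalyticOnNhd ℂ v Set.univ) :
    AnalyticOnNhd ℂ (fun z => v (p2 g h z)) Set.univ := fun z _ =>
  (hv _ (Set.mem_univ _)).comp ((p2 g h).analyticAt z)

theorem an_pf (hu : AnalyticOnNhd ℂ u Set.univ) (hv : AnalyticOnNhd ℂ v Set.univ) :
    AnalyticOnNhd ℂ (pf u v) Set.univ := (an1 hu).mul (an2 hv)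

theorem fd_pf (hu : AnalyticOnNhd ℂ u Set.univ) (hv : AnalyticOnNhd ℂ v Set.univ)
    (z w : Fin (g + h) → ℂ) : fderiv ℂ (pf u v) z w =
      fderiv ℂ u (p1 g h z) (p1 g h w) * v (p2 g h z) +
        u (p1 g h z) * fderiv ℂ v (p2 g h z) (p2 g h w) := by
  have h1 : HasFDerivAt (fun z => u (p1 g h z)) ((fderiv ℂ u (p1 g h z)).comp (p1 g h)) z :=
    ((hu _ (Set.mem_univ _)).differentiableAt.hasFDerivAt).comp z (p1 g h).hasFDerivAt
  have h2 : HasFDerivAt (fun z => v (p2 g h z)) ((fderiv ℂ v (p2 g h z)).comp (p2 g h)) z :=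
    ((hv _ (Set.mem_univ _)).differentiableAt.hasFDerivAt).comp z (p2 g h).hasFDerivAt
  have h3 := (h1.mul h2).fderiv
  have h4 : (pf u v : (Fin (g + h) → ℂ) → ℂ) = (fun z => u (p1 g h z)) * fun z => v (p2 g h z) :=
    rfl
  rw [h4, h3]
  simp only [ContinuousLinearMap.add_apply, ContinuousLinearMap.smul_apply,
    ContinuousLinearMap.comp_apply, smul_eq_mul]
  ring

theorem p1_single1 (i : Fin g) : p1 g h (Pi.single (Fin.castAdd h i) 1) = Pi.single i 1 := by
  funext j
  rw [p1_apply]
  by_cases hij : j = i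
  · subst hij
    rw [Pi.single_eq_same, Pi.single_eq_same]
  · rw [Pi.single_eq_of_ne hij, Pi.single_eq_of_ne]
    intro h1
    exact hij (Fin.castAdd_injective _ _ h1)

theorem p2_single1 (i : Fin g) : p2 g h (Pi.single (Fin.castAdd h i) 1) = 0 := by
  funext j
  rw [p2_apply, Pi.single_eq_of_ne]
  · rfl
  · intro h1
    have h2 := congrArg Fin.val h1
    rw [Fin.val_natAdd, Fin.val_castAdd] at h2
    omega

theorem p1_single2 (i : Fin h) : p1 g h (Pi.single (Fin.natAdd g i) 1) = 0 := by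
  funext j
  rw [p1_apply, Pi.single_eq_of_ne]
  · rfl
  · intro h1
    have h2 := congrArg Fin.val h1
    rw [Fin.val_natAdd, Fin.val_castAdd] at h2
    omega

theorem p2_single2 (i : Fin h) : p2 g h (Pi.single (Fin.natAdd g i) 1) = Pi.single i 1 := by
  funext j
  rw [p2_apply]
  by_cases hij : j = i
  · subst hij
    rw [Pi.single_eq_same, Pi.single_eq_same]
  · rw [Pi.single_eq_of_ne hij, Pi.single_eq_of_ne]
    intro h1
    exact hij (Fin.natAdd_injective _ _ h1)

theorem pd1 (hu : AnalyticOnNhd ℂ u Set.univ) (hv : AnalyticOnNhd ℂ v Set.univ) (i : Fin g) :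
    pd (Fin.castAdd h i) (pf u v) = pf (pd i u) v := by
  funext z
  unfold pd
  rw [fd_pf hu hv, p1_single1, p2_single1, map_zero, mul_zero, add_zero]
  rfl

theorem pd2 (hu : AnalyticOnNhd ℂ u Set.univ) (hv : AnalyticOnNhd ℂ v Set.univ) (i : Fin h) :
    pd (Fin.natAdd g i) (pf u v) = pf u (pd i v) := by
  funext z
  unfold pd
  rw [fd_pf hu hv, p1_single2, p2_single2, map_zero, zero_mul, zero_add]
  rfl

theorem an_pd (hu : AnalyticOnNhd ℂ u Set.univ) (i : Fin g) :
    AnalyticOnNhd ℂ (pd i u) Set.univ := by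
  intro z _
  have h1 := (hu.fderiv) z (Set.mem_univ z)
  exact (ContinuousLinearMap.analyticAt
    (ContinuousLinearMap.apply ℂ ℂ (Pi.single i (1 : ℂ) : Fin g → ℂ)) _).comp h1

end fn

variable (A : AbVar g) (B : AbVar h)

/-- the lattice of the product -/
def lamP : Basis (Fin (2 * (g + h))) ℝ (Fin (g + h) → ℂ) :=
  ((A.lam.prod B.lam).map ((eT g h).restrictScalars ℝ)).reindex (eL g h)

theorem lamP_inl (j : Fin (2 * g)) : lamP A B (eL g h (Sum.inl j)) = eT g h (A.lam j, 0) := by
  unfold lamP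
  rw [Basis.reindex_apply, Equiv.symm_apply_apply, Basis.map_apply]
  change eT g h _ = _
  congr 1
  rw [Basis.prod_apply]
  simp

theorem lamP_inr (j : Fin (2 * h)) : lamP A B (eL g h (Sum.inr j)) = eT g h (0, B.lam j) := by
  unfold lamP
  rw [Basis.reindex_apply, Equiv.symm_apply_apply, Basis.map_apply]
  change eT g h _ = _
  congr 1
  rw [Basis.prod_apply]
  simp

theorem repr_inl (z : Fin (g + h) → ℂ) (j : Fin (2 * g)) :
    (lamP A B).repr z (eL g h (Sum.inl j)) = A.lam.repr (p1 g h z) j := by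
  unfold lamP
  rw [Basis.repr_reindex_apply, Equiv.symm_apply_apply, Basis.map_repr,
    LinearEquiv.trans_apply, Basis.prod_repr_inl]
  rfl

theorem repr_inr (z : Fin (g + h) → ℂ) (j : Fin (2 * h)) :
    (lamP A B).repr z (eL g h (Sum.inr j)) = B.lam.repr (p2 g h z) j := by
  unfold lamP
  rw [Basis.repr_reindex_apply, Equiv.symm_apply_apply, Basis.map_repr,
    LinearEquiv.trans_apply, Basis.prod_repr_inr]
  rfl

/-- the quasi-periods of the product -/
def etaP (j : Fin (2 * (g + h))) : Fin (g + h) → ℂ :=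
  Sum.elim (fun j => eT g h (A.η j, 0)) (fun j => eT g h (0, B.η j)) ((eL g h).symm j)

theorem etaP_inl (j : Fin (2 * g)) : etaP A B (eL g h (Sum.inl j)) = eT g h (A.η j, 0) := by
  unfold etaP
  rw [Equiv.symm_apply_apply, Sum.elim_inl]

theorem etaP_inr (j : Fin (2 * h)) : etaP A B (eL g h (Sum.inr j)) = eT g h (0, B.η j) := by
  unfold etaP
  rw [Equiv.symm_apply_apply, Sum.elim_inr]

/-- the constants of the product -/
def cP (j : Fin (2 * (g + h))) : ℂ := Sum.elim A.c B.c ((eL g h).symm j)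

theorem sum_L {M : Type*} [AddCommMonoid M] (f : Fin (2 * (g + h)) → M) :
    ∑ j, f j = ∑ j, f (eL g h (Sum.inl j)) + ∑ j, f (eL g h (Sum.inr j)) := by
  rw [← Equiv.sum_comp (eL g h), Fintype.sum_sum_type]

theorem sum_T {M : Type*} [AddCommMonoid M] (f : Fin (g + h) → M) :
    ∑ k, f k = ∑ k, f (Fin.castAdd h k) + ∑ k, f (Fin.natAdd g k) := Fin.sum_univ_add f

theorem eT_cast (x : (Fin g → ℂ) × (Fin h → ℂ)) (k : Fin g) :
    eT g h x (Fin.castAdd h k) = x.1 k := Fin.append_left _ _ _

theorem eT_nat (x : (Fin g → ℂ) × (Fin h → ℂ)) (k : Fin h) :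
    eT g h x (Fin.natAdd g k) = x.2 k := Fin.append_right _ _ _

theorem rf_prod (u v : Fin (g + h) → ℂ) : riemannForm (lamP A B) (etaP A B) u v =
    riemannForm A.lam A.η (p1 g h u) (p1 g h v) + riemannForm B.lam B.η (p2 g h u) (p2 g h v) := by
  unfold riemannForm
  rw [← add_div]
  congr 1
  rw [sum_T]
  have key1 : ∀ (u : Fin (g + h) → ℂ) (k : Fin g),
      ∑ j, (((lamP A B).repr u j : ℝ) : ℂ) * etaP A B j (Fin.castAdd h k) =
        ∑ j, ((A.lam.repr (p1 g h u) j : ℝ) : ℂ) * A.η j k := by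
    intro u k
    rw [sum_L]
    simp only [repr_inl, repr_inr, etaP_inl, etaP_inr, eT_cast, Pi.zero_apply, mul_zero,
      Finset.sum_const_zero, add_zero]
  have key2 : ∀ (u : Fin (g + h) → ℂ) (k : Fin h),
      ∑ j, (((lamP A B).repr u j : ℝ) : ℂ) * etaP A B j (Fin.natAdd g k) =
        ∑ j, ((B.lam.repr (p2 g h u) j : ℝ) : ℂ) * B.η j k := by
    intro u k
    rw [sum_L]
    simp only [repr_inl, repr_inr, etaP_inl, etaP_inr, eT_nat, Pi.zero_apply, mul_zero,
      Finset.sum_const_zero, zero_add]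
  simp only [key1, key2]
  rfl

/-- the theta functions of the product -/
def thP (s : Fin (nN A.N B.N + 1)) : (Fin (g + h) → ℂ) → ℂ :=
  pf (A.θ (eN A.N B.N s).1) (B.θ (eN A.N B.N s).2)

theorem alg_mul {x y : ℂ} (hx : IsAlgebraic ℚ x) (hy : IsAlgebraic ℚ y) : IsAlgebraic ℚ (x * y) :=
  hx.mul hy

/-- the coefficients of quadratic forms -/
theorem sum_N (F : Fin (A.N + 1) × Fin (B.N + 1) → Fin (A.N + 1) × Fin (B.N + 1) → ℂ)
    (z : Fin (g + h) → ℂ) :
    ∑ s, ∑ t, F (eN A.N B.N s) (eN A.N B.N t) * (thP A B s z * thP A B t z) =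
      ∑ s, ∑ t, F s t * ((A.θ s.1 (p1 g h z) * B.θ s.2 (p2 g h z)) *
        (A.θ t.1 (p1 g h z) * B.θ t.2 (p2 g h z))) := by
  rw [← Equiv.sum_comp (eN A.N B.N)]
  refine Finset.sum_congr rfl fun s _ => ?_
  rw [← Equiv.sum_comp (eN A.N B.N)]
  rfl

theorem quad1 {a : Fin (A.N + 1) → Fin (A.N + 1) → ℂ} (ha : ∀ p q, IsAlgebraic ℚ (a p q))
    (b b' : Fin (B.N + 1)) : ∃ c : Fin (nN A.N B.N + 1) → Fin (nN A.N B.N + 1) → ℂ,
      (∀ p q, IsAlgebraic ℚ (c p q)) ∧ ∀ z, ∑ s, ∑ t, c s t * (thP A B s z * thP A B t z) =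
        (∑ p, ∑ q, a p q * (A.θ p (p1 g h z) * A.θ q (p1 g h z))) *
          (B.θ b (p2 g h z) * B.θ b' (p2 g h z)) := by
  classical
  let F : Fin (A.N + 1) × Fin (B.N + 1) → Fin (A.N + 1) × Fin (B.N + 1) → ℂ := fun s t =>
    if s.2 = b ∧ t.2 = b' then a s.1 t.1 else 0
  refine ⟨fun s t => F (eN A.N B.N s) (eN A.N B.N t), fun s t => ?_, fun z => ?_⟩
  · change IsAlgebraic ℚ (if _ then _ else _)
    split_ifs
    · exact ha _ _
    · exact isAlgebraic_zero
  · rw [sum_N, Fintype.sum_prod_type, Finset.sum_mul]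
    refine Finset.sum_congr rfl fun p _ => ?_
    rw [Finset.sum_eq_single b]
    · rw [Fintype.sum_prod_type, Finset.sum_mul]
      refine Finset.sum_congr rfl fun q _ => ?_
      rw [Finset.sum_eq_single b']
      · change (if b = b ∧ b' = b' then a p q else 0) * _ = _
        rw [if_pos ⟨rfl, rfl⟩]
        ring
      · intro y _ hy
        change (if b = b ∧ y = b' then a p q else 0) * _ = _
        rw [if_neg (fun h => hy h.2), zero_mul]
      · intro h
        exact absurd (Finset.mem_univ _) h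
    · intro y _ hy
      refine Finset.sum_eq_zero fun t _ => ?_
      change (if y = b ∧ t.2 = b' then a p t.1 else 0) * _ = _
      rw [if_neg (fun h => hy h.1), zero_mul]
    · intro h
      exact absurd (Finset.mem_univ _) h

theorem quad2 {a : Fin (B.N + 1) → Fin (B.N + 1) → ℂ} (ha : ∀ p q, IsAlgebraic ℚ (a p q))
    (b b' : Fin (A.N + 1)) : ∃ c : Fin (nN A.N B.N + 1) → Fin (nN A.N B.N + 1) → ℂ,
      (∀ p q, IsAlgebraic ℚ (c p q)) ∧ ∀ z, ∑ s, ∑ t, c s t * (thP A B s z * thP A B t z) =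
        (A.θ b (p1 g h z) * A.θ b' (p1 g h z)) *
        (∑ p, ∑ q, a p q * (B.θ p (p2 g h z) * B.θ q (p2 g h z))) := by
  classical
  let F : Fin (A.N + 1) × Fin (B.N + 1) → Fin (A.N + 1) × Fin (B.N + 1) → ℂ := fun s t =>
    if s.1 = b ∧ t.1 = b' then a s.2 t.2 else 0
  refine ⟨fun s t => F (eN A.N B.N s) (eN A.N B.N t), fun s t => ?_, fun z => ?_⟩
  · change IsAlgebraic ℚ (if _ then _ else _)
    split_ifs
    · exact ha _ _
    · exact isAlgebraic_zero
  · rw [sum_N, Fintype.sum_prod_type, Finset.sum_eq_single b, Finset.mul_sum]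
    · refine Finset.sum_congr rfl fun p _ => ?_
      rw [Fintype.sum_prod_type, Finset.sum_eq_single b', Finset.mul_sum]
      · refine Finset.sum_congr rfl fun q _ => ?_
        change (if b = b ∧ b' = b' then a p q else 0) * _ = _
        rw [if_pos ⟨rfl, rfl⟩]
        ring
      · intro y _ hy
        refine Finset.sum_eq_zero fun t _ => ?_
        change (if b = b ∧ y = b' then a p t else 0) * _ = _
        rw [if_neg (fun h => hy h.2), zero_mul]
      · intro h
        exact absurd (Finset.mem_univ _) h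
    · intro y _ hy
      refine Finset.sum_eq_zero fun t _ => Finset.sum_eq_zero fun t' _ => ?_
      change (if y = b ∧ t'.1 = b' then a t t'.2 else 0) * _ = _
      rw [if_neg (fun h => hy h.1), zero_mul]
    · intro h
      exact absurd (Finset.mem_univ _) h

/-- **The product of two abelian varieties.** -/
def prd : AbVar (g + h) where
  lam := lamP A B
  N := nN A.N B.N
  θ := thP A B
  entire s := an_pf (A.entire _) (B.entire _)
  η := etaP A B
  c := cP A B
  quasiperiodic s j z := by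
    obtain ⟨j, rfl⟩ := (eL g h).surjective j
    rcases j with j | j
    · rw [lamP_inl, etaP_inl]
      have h1 : cP A B (eL g h (Sum.inl j)) = A.c j := by
        unfold cP
        rw [Equiv.symm_apply_apply, Sum.elim_inl]
      rw [h1]
      change A.θ _ (p1 g h (z + eT g h (A.lam j, 0))) * B.θ _ (p2 g h (z + eT g h (A.lam j, 0))) = _
      rw [map_add, map_add, p1_eT, p2_eT, add_zero, A.quasiperiodic, sum_T]
      simp only [eT_cast, eT_nat, Pi.zero_apply, zero_mul, Finset.sum_const_zero, add_zero]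
      change _ = _ * (A.θ _ (p1 g h z) * B.θ _ (p2 g h z))
      rw [mul_assoc]
      rfl
    · rw [lamP_inr, etaP_inr]
      have h1 : cP A B (eL g h (Sum.inr j)) = B.c j := by
        unfold cP
        rw [Equiv.symm_apply_apply, Sum.elim_inr]
      rw [h1]
      change A.θ _ (p1 g h (z + eT g h (0, B.lam j))) * B.θ _ (p2 g h (z + eT g h (0, B.lam j))) = _
      rw [map_add, map_add, p1_eT, p2_eT, add_zero, B.quasiperiodic, sum_T]
      simp only [eT_cast, eT_nat, Pi.zero_apply, zero_mul, Finset.sum_const_zero, zero_add]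
      change _ = _ * (A.θ _ (p1 g h z) * B.θ _ (p2 g h z))
      rw [mul_left_comm]
      rfl
  positive u hu := by
    rw [rf_prod, Complex.add_re]
    have h1 : ∀ {n : ℕ} (X : AbVar n) (w : Fin n → ℂ),
        0 ≤ (riemannForm X.lam X.η w (Complex.I • w)).re := by
      intro n X w
      by_cases hw : w = 0
      · subst hw
        unfold riemannForm
        simp
      · exact (X.positive w hw).le
    rw [map_smul, map_smul]
    by_cases h2 : p1 g h u = 0
    · have h3 : p2 g h u ≠ 0 := by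
        intro h3
        apply hu
        refine ext12 ?_ ?_
        · rw [h2, map_zero]
        · rw [h3, map_zero]
      exact add_pos_of_nonneg_of_pos (h1 A _) (B.positive _ h3)
    · exact add_pos_of_pos_of_nonneg (A.positive _ h2) (h1 B _)
  origin := by
    obtain ⟨a1, a2, a3⟩ := A.origin
    obtain ⟨b1, b2, b3⟩ := B.origin
    refine ⟨?_, fun s => ?_, fun k => ?_⟩
    · change A.θ _ (p1 g h 0) * B.θ _ (p2 g h 0) = 1
      rw [eN_zero, map_zero, map_zero, a1, b1, mul_one]
    · change IsAlgebraic ℚ (A.θ _ (p1 g h 0) * B.θ _ (p2 g h 0))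
      rw [map_zero, map_zero]
      exact (a2 _).mul (b2 _)
    · unfold thP
      rw [eN_zero]
      refine Fin.addCases (fun i => ?_) (fun i => ?_) k
      · rw [pd1 (A.entire _) (B.entire _)]
        change IsAlgebraic ℚ (pd i (A.θ 0) (p1 g h 0) * B.θ 0 (p2 g h 0))
        rw [map_zero, map_zero]
        exact (a3 _).mul (b2 _)
      · rw [pd2 (A.entire _) (B.entire _)]
        change IsAlgebraic ℚ (A.θ 0 (p1 g h 0) * pd i (B.θ 0) (p2 g h 0))
        rw [map_zero, map_zero]
        exact (a2 _).mul (b3 _)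
  immersion v hv := by
    obtain ⟨a1, -, -⟩ := A.origin
    obtain ⟨b1, -, -⟩ := B.origin
    have h0 : ∀ s, thP A B s 0 = A.θ (eN A.N B.N s).1 0 * B.θ (eN A.N B.N s).2 0 := by
      intro s
      change A.θ _ (p1 g h 0) * B.θ _ (p2 g h 0) = _
      rw [map_zero, map_zero]
    have h1 : ∀ s, fderiv ℂ (thP A B s) 0 v =
        fderiv ℂ (A.θ (eN A.N B.N s).1) 0 (p1 g h v) * B.θ (eN A.N B.N s).2 0 +
          A.θ (eN A.N B.N s).1 0 * fderiv ℂ (B.θ (eN A.N B.N s).2) 0 (p2 g h v) := by
      intro s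
      unfold thP
      rw [fd_pf (A.entire _) (B.entire _), map_zero, map_zero]
    refine ext12 ?_ ?_
    · rw [map_zero]
      refine A.immersion _ fun i => ?_
      have h2 := hv ((eN A.N B.N).symm (i, 0))
      rw [h0, h0, h1, h1, eN_zero, Equiv.apply_symm_apply] at h2
      simp only [a1, b1] at h2 ⊢
      linear_combination h2
    · rw [map_zero]
      refine B.immersion _ fun i => ?_
      have h2 := hv ((eN A.N B.N).symm (0, i))
      rw [h0, h0, h1, h1, eN_zero, Equiv.apply_symm_apply] at h2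
      simp only [a1, b1] at h2 ⊢
      linear_combination h2
  first k s := by
    refine Fin.addCases (fun i => ?_) (fun i => ?_) k
    · obtain ⟨a, ha, h1⟩ := A.first i (eN A.N B.N s).1
      obtain ⟨c, hc, h2⟩ := quad1 A B ha 0 (eN A.N B.N s).2
      refine ⟨c, hc, fun z => ?_⟩
      rw [h2, ← h1]
      unfold thP
      rw [eN_zero, pd1 (A.entire _) (B.entire _), pd1 (A.entire _) (B.entire _)]
      unfold pf
      ring
    · obtain ⟨a, ha, h1⟩ := B.first i (eN A.N B.N s).2
      obtain ⟨c, hc, h2⟩ := quad2 A B ha 0 (eN A.N B.N s).1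
      refine ⟨c, hc, fun z => ?_⟩
      rw [h2, ← h1]
      unfold thP
      rw [eN_zero, pd2 (A.entire _) (B.entire _), pd2 (A.entire _) (B.entire _)]
      unfold pf
      ring
  second k l := by
    have e0 : thP A B 0 = pf (A.θ 0) (B.θ 0) := by
      unfold thP
      rw [eN_zero]
    have hA := A.entire 0
    have hB := B.entire 0
    have hA' := fun i => an_pd hA i
    have hB' := fun i => an_pd hB i
    refine Fin.addCases (fun i => ?_) (fun i => ?_) k
    · refine Fin.addCases (fun j => ?_) (fun j => ?_) l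
      · obtain ⟨a, ha, h1⟩ := A.second i j
        obtain ⟨c, hc, h2⟩ := quad1 A B ha 0 0
        refine ⟨c, hc, fun z => ?_⟩
        rw [h2, ← h1, e0, pd1 hA hB, pd1 hA hB, pd1 (hA' i) hB]
        unfold pf
        ring
      · refine ⟨fun _ _ => 0, fun _ _ => isAlgebraic_zero, fun z => ?_⟩
        rw [e0, pd1 hA hB, pd2 hA hB, pd2 (hA' i) hB]
        unfold pf
        simp only [zero_mul, Finset.sum_const_zero]
        ring
    · refine Fin.addCases (fun j => ?_) (fun j => ?_) l
      · refine ⟨fun _ _ => 0, fun _ _ => isAlgebraic_zero, fun z => ?_⟩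
        rw [e0, pd2 hA hB, pd1 hA hB, pd1 hA (hB' i)]
        unfold pf
        simp only [zero_mul, Finset.sum_const_zero]
        ring
      · obtain ⟨a, ha, h1⟩ := B.second i j
        obtain ⟨c, hc, h2⟩ := quad2 A B ha 0 0
        refine ⟨c, hc, fun z => ?_⟩
        rw [h2, ← h1, e0, pd2 hA hB, pd2 hA hB, pd2 hA (hB' i)]
        unfold pf
        ring

end Pool.Agent.H621.CY
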