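import Pool.Agent.H621.CY.Lq

set_option autoImplicit false
set_option linter.unusedSectionVars false

/-!
# Lie algebras of triples: factors
-/

open Module TensorProduct Matrix Polynomial

noncomputable section

namespace Pool.Agent.H621.CY

open Pool.Agent.Y102 Pool.Agent.W516.DR Pool.Agent.H204R3.GP Pool.Agent.W516.KC
  Pool.Agent.H204R3.SP Pool.Agent.TH119.MX Pool.Agent.R917 Pool.Agent.R917.DT
  Pool.Agent.R917.EC Pool.Agent.H621.BC Pool.Agent.R917.OM Pool.Agent.Y102.AbVar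

open Pool.Agent.H621.RK (R2 exists_crt nodal_pow_dvd aeval_zero_of aeval_eq_of comp_dvd
  nodal_dvd_pow aeval_prod PP PP_br PP_comp PP_mapF PP_aeval scal_br exists_ann)
open Pool.Agent.H621.RM (NS NS_br NS_mapF NS_rm exA exA_inj exA_map exA_BT lev' LP PtA Lif hb)

variable {r K e b : ℕ} {E : AbVar e} {B : AbVar b} {f : E.H1 →ₗ[ℚ] B.H1} {p : B.H1 →ₗ[ℚ] E.H1}

theorem rm_lamF {lam : ℂ →ₗ[ℚ] ℚ} (hlam : lam 1 = 1) (Y : Module.End ℚ E.H1) :
    rm Y = (rm Y).map (lamF lam) := by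
  ext i j
  rw [Matrix.map_apply, lamF_apply]
  change ((Y (eb E i) j : ℚ) : ℂ) = ((lam ((Y (eb E i) j : ℚ) : ℂ) : ℚ) : ℂ)
  rw [lam_rat hlam]

theorem f_rat (φ : ℂ →ₗ[QQ] ℂ) (q : ℚ) (x : ℂ) : φ ((q : ℂ) * x) = (q : ℂ) * φ x := by
  have h1 : ((q : ℂ) : ℂ) ∈ QQ := by
    exact SubfieldClass.ratCast_mem QQ q
  have h2 := φ.map_smul (⟨(q : ℂ), h1⟩ : QQ) x
  exact h2

theorem rq_mapF_left {a b c : ℕ} (φ : ℂ →ₗ[QQ] ℂ) (f : (Fin a → ℚ) →ₗ[ℚ] (Fin b → ℚ))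
    (N : Matrix (Fin b) (Fin c) ℂ) : (rq f * N).map φ = rq f * N.map φ := by
  ext i j
  rw [Matrix.map_apply, Matrix.mul_apply, Matrix.mul_apply, map_sum]
  refine Finset.sum_congr rfl fun k _ => ?_
  exact f_rat φ _ _

theorem rq_mapF_right {a b c : ℕ} (φ : ℂ →ₗ[QQ] ℂ) (f : (Fin b → ℚ) →ₗ[ℚ] (Fin c → ℚ))
    (N : Matrix (Fin a) (Fin b) ℂ) : (N * rq f).map φ = N.map φ * rq f := by
  ext i j
  rw [Matrix.map_apply, Matrix.mul_apply, Matrix.mul_apply, map_sum]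
  refine Finset.sum_congr rfl fun k _ => ?_
  rw [mul_comm, Matrix.map_apply, mul_comm (φ (N i k))]
  exact f_rat φ _ _

/-- The projection to the factor. -/
def pj (r : ℕ) (f : E.H1 →ₗ[ℚ] B.H1) (p : B.H1 →ₗ[ℚ] E.H1) : T3 r b →ₗ[ℂ] T3 r e where
  toFun z := (z.1, rq (a := 2 * e) (b := 2 * b) f * z.2 * rq (a := 2 * b) (b := 2 * e) p)
  map_add' z w := by
    refine Prod.ext rfl ?_
    change rq (a := 2 * e) (b := 2 * b) f * (z.2 + w.2) * rq (a := 2 * b) (b := 2 * e) p =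
      rq (a := 2 * e) (b := 2 * b) f * z.2 * rq (a := 2 * b) (b := 2 * e) p +
        rq (a := 2 * e) (b := 2 * b) f * w.2 * rq (a := 2 * b) (b := 2 * e) p
    rw [Matrix.mul_add, Matrix.add_mul]
  map_smul' a z := by
    refine Prod.ext rfl ?_
    change rq (a := 2 * e) (b := 2 * b) f * (a • z.2) * rq (a := 2 * b) (b := 2 * e) p =
      a • (rq (a := 2 * e) (b := 2 * b) f * z.2 * rq (a := 2 * b) (b := 2 * e) p)
    rw [Matrix.mul_smul, Matrix.smul_mul]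

theorem pj_apply (z : T3 r b) : pj r f p z =
    (z.1, rq (a := 2 * e) (b := 2 * b) f * z.2 * rq (a := 2 * b) (b := 2 * e) p) := rfl

/-- the condition on the third component -/
def Cut (B : AbVar b) (z : T3 r b) : Prop := z.2 - (z.1.2 / 2) • 1 ∈ NS B

theorem NS_inter (hF : Fac E B f p) {α : Matrix (Fin (2 * b)) (Fin (2 * b)) ℂ} (hα : α ∈ NS B) :
    rq (a := 2 * e) (b := 2 * b) f * α * rq (a := 2 * b) (b := 2 * e) p *
      rq (a := 2 * e) (b := 2 * b) f = rq (a := 2 * e) (b := 2 * b) f * α := by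
  unfold RM.NS at hα
  induction hα using Submodule.span_induction with
  | mem Z hZ =>
    obtain ⟨Y, hY, rfl⟩ := hZ
    rw [← Fac.rm_rs]
    exact hF.rm_inter hY
  | zero => simp only [Matrix.mul_zero, Matrix.zero_mul]
  | add x y _ _ hx hy => rw [Matrix.mul_add, Matrix.add_mul, Matrix.add_mul, hx, hy]
  | smul c x _ hx => rw [Matrix.mul_smul, Matrix.smul_mul, Matrix.smul_mul, hx]

theorem NS_fac (hF : Fac E B f p) {α : Matrix (Fin (2 * b)) (Fin (2 * b)) ℂ} (hα : α ∈ NS B) :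
    rq (a := 2 * e) (b := 2 * b) f * α * rq (a := 2 * b) (b := 2 * e) p ∈ NS E := by
  unfold RM.NS at hα
  induction hα using Submodule.span_induction with
  | mem Z hZ =>
    obtain ⟨Y, hY, rfl⟩ := hZ
    rw [← Fac.rm_rs]
    exact NS_rm (hF.rs_NA hY)
  | zero =>
    rw [Matrix.mul_zero, Matrix.zero_mul]
    exact Submodule.zero_mem _
  | add x y _ _ hx hy =>
    rw [Matrix.mul_add, Matrix.add_mul]
    exact Submodule.add_mem _ hx hy
  | smul c x _ hx =>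
    rw [Matrix.mul_smul, Matrix.smul_mul]
    exact Submodule.smul_mem _ c hx

theorem Cut.inter (hF : Fac E B f p) {z : T3 r b} (hz : Cut B z) :
    (pj r f p z).2 * rq (a := 2 * e) (b := 2 * b) f = rq (a := 2 * e) (b := 2 * b) f * z.2 := by
  have h1 := NS_inter hF hz
  have h2 : z.2 = (z.2 - (z.1.2 / 2) • 1) + (z.1.2 / 2) • 1 := by rw [sub_add_cancel]
  rw [pj_apply]
  change rq (a := 2 * e) (b := 2 * b) f * z.2 * _ * _ = _
  rw [h2]
  rw [Matrix.mul_add, Matrix.add_mul, Matrix.add_mul, h1, Matrix.mul_smul, Matrix.smul_mul,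
    Matrix.smul_mul, Matrix.mul_one, hF.rq_one, Matrix.one_mul]

theorem Cut.pj (hF : Fac E B f p) {z : T3 r b} (hz : Cut B z) : Cut E (pj r f p z) := by
  have h1 := NS_fac hF hz
  unfold Cut
  have h2 : (CY.pj r f p z).2 - ((CY.pj r f p z).1.2 / 2) • 1 =
      rq (a := 2 * e) (b := 2 * b) f * (z.2 - (z.1.2 / 2) • 1) *
        rq (a := 2 * b) (b := 2 * e) p := by
    rw [Matrix.mul_sub, Matrix.sub_mul, Matrix.mul_smul, Matrix.smul_mul, Matrix.mul_one,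
      hF.rq_one]
    rfl
  rw [h2]
  exact h1

theorem pj_mul (hF : Fac E B f p) {z w : T3 r b} (hz : Cut B z) :
    pj r f p (z * w) = pj r f p z * pj r f p w := by
  refine Prod.ext rfl ?_
  have h1 := hz.inter hF
  change rq (a := 2 * e) (b := 2 * b) f * (z.2 * w.2) * _ =
    (pj r f p z).2 * (rq (a := 2 * e) (b := 2 * b) f * w.2 * _)
  rw [← Matrix.mul_assoc, ← Matrix.mul_assoc, ← Matrix.mul_assoc, h1]

theorem pj_aeval (hF : Fac E B f p) {z : T3 r b} (hz : Cut B z) (Q : ℂ[X]) :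
    aeval (pj r f p z) Q = pj r f p (aeval z Q) := by
  have h1 := aeval_inter (hz.inter hF) Q
  rw [aeval_T3, aeval_T3]
  refine Prod.ext rfl ?_
  change aeval (pj r f p z).2 Q = rq (a := 2 * e) (b := 2 * b) f * aeval z.2 Q * _
  rw [← h1, Matrix.mul_assoc, hF.rq_one, Matrix.mul_one]

theorem eval_mem {z : T3 r b} {s : Finset ℂ} {N : ℕ} (hz : aeval z (Lagrange.nodal s id ^ N) = 0) :
    z.1.2 ∈ s ∧ 1 ≤ N := by
  rw [aeval_T3] at hz
  have h1 : (Lagrange.nodal s (id : ℂ → ℂ) ^ N).eval z.1.2 = 0 :=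
    congrArg (fun w : T3 r b => w.1.2) hz
  rcases N.eq_zero_or_pos with hN | hN
  · rw [hN, pow_zero, eval_one] at h1
    exact absurd h1 one_ne_zero
  · refine ⟨?_, hN⟩
    rw [eval_pow] at h1
    have e3 : (Lagrange.nodal s (id : ℂ → ℂ)).eval z.1.2 = 0 := eq_zero_of_pow_eq_zero h1
    rw [Lagrange.eval_nodal, Finset.prod_eq_zero_iff] at e3
    obtain ⟨a, ha, e4⟩ := e3
    rw [sub_eq_zero.1 e4]
    exact ha

theorem eval_of_dvd {s : Finset ℂ} {N : ℕ} (hN : 1 ≤ N) {σ : ℂ →+ ℂ} {Q : ℂ[X]}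
    (hQ : ∀ a ∈ s, (X - C a) ^ N ∣ Q - C (σ a)) {a : ℂ} (ha : a ∈ s) : Q.eval a = σ a := by
  have h3 := (dvd_pow_self (X - C a : ℂ[X]) (by omega : N ≠ 0)).trans (hQ a ha)
  rw [dvd_iff_isRoot, IsRoot.def, eval_sub, eval_C, sub_eq_zero] at h3
  exact h3

/-- Replicas preserve the condition. -/
theorem Cut.aeval {z : T3 r b} (hz : Cut B z) {s : Finset ℂ} {N : ℕ}
    (h0 : aeval z (Lagrange.nodal s id ^ N) = 0) (σ : ℂ →+ ℂ) {Q : ℂ[X]}
    (hQ : ∀ a ∈ s, (X - C a) ^ N ∣ Q - C (σ a)) : Cut B (aeval z Q) := by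
  classical
  obtain ⟨ht, hN⟩ := eval_mem h0
  rw [aeval_T3] at h0
  have h1 : Polynomial.aeval z.2 (Lagrange.nodal s id ^ N) = 0 :=
    congrArg (fun w : T3 r b => w.2) h0
  set t := z.1.2 / 2 with ht2
  have e1 : z.2 = (z.2 - t • 1) + t • 1 := by rw [sub_add_cancel]
  have h2 : Polynomial.aeval (z.2 - t • 1)
      (Lagrange.nodal (s.image fun a => a - t) id ^ N) = 0 := by
    have e2 : z.2 - t • 1 = z.2 + (-t) • 1 := by rw [neg_smul, sub_eq_add_neg]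
    rw [e2, aeval_shift]
    refine aeval_zero_of h1 fun a ha => ?_
    rw [pow_comp]
    refine pow_dvd_pow_of_dvd ?_ N
    rw [dvd_iff_isRoot, IsRoot.def, eval_comp, eval_add, eval_X, eval_C, ← sub_eq_add_neg]
    exact Lagrange.eval_nodal_at_node (v := id) (i := a - t) (Finset.mem_image.2 ⟨a, ha, rfl⟩)
  have h3 := NS_rep' (A := B) hz h2 σ (Q := Q.comp (X + C t) - C (σ t)) (fun a ha => by
    obtain ⟨a', ha', rfl⟩ := Finset.mem_image.1 ha
    obtain ⟨T, hT⟩ := hQ a' ha'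
    refine ⟨T.comp (X + C t), ?_⟩
    have e3 : Q.comp (X + C t) - C (σ t) - C (σ (a' - t)) = (Q - C (σ a')).comp (X + C t) := by
      rw [sub_comp, C_comp, map_sub, C_sub]
      ring
    rw [e3, hT, mul_comp, pow_comp, sub_comp, X_comp, C_comp]
    congr 2
    rw [C_sub]
    ring)
  rw [map_sub, ← aeval_shift, ← e1, aeval_C, Algebra.algebraMap_eq_smul_one] at h3
  unfold Cut
  rw [aeval_T3]
  change Polynomial.aeval z.2 Q - (Q.eval z.1.2 / 2) • 1 ∈ NS B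
  have h4 : Q.eval z.1.2 / 2 = σ t := by
    rw [eval_of_dvd hN hQ ht]
    have e4 : z.1.2 = t + t := by rw [ht2]; ring
    rw [e4, map_add]
    ring
  rw [h4]
  exact h3

theorem exists_ann3 (z : T3 r b) : ∃ (S : Finset ℂ) (N : ℕ),
    aeval z (Lagrange.nodal S id ^ N) = 0 := by
  classical
  obtain ⟨s1, h1⟩ := exists_ann z.1.1
  obtain ⟨s2, h2⟩ := exists_ann z.2
  refine ⟨insert z.1.2 (s1 ∪ s2), r + 2 * b + 1, ?_⟩
  rw [aeval_T3]
  refine Prod.ext (Prod.ext ?_ ?_) ?_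
  · obtain ⟨P, hP⟩ := nodal_dvd_pow (s := s1) (t := insert z.1.2 (s1 ∪ s2)) (m := r)
      (n := r + 2 * b + 1) (Finset.subset_union_left.trans (Finset.subset_insert _ _)) (by omega)
    change aeval z.1.1 _ = 0
    rw [hP, map_mul, h1, zero_mul]
  · change eval z.1.2 _ = 0
    rw [eval_pow]
    have e1 : (Lagrange.nodal (insert z.1.2 (s1 ∪ s2)) (id : ℂ → ℂ)).eval z.1.2 = 0 :=
      Lagrange.eval_nodal_at_node (v := id) (Finset.mem_insert_self _ _)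
    rw [e1, zero_pow (by omega)]
  · obtain ⟨P, hP⟩ := nodal_dvd_pow (s := s2) (t := insert z.1.2 (s1 ∪ s2)) (m := 2 * b)
      (n := r + 2 * b + 1) (Finset.subset_union_right.trans (Finset.subset_insert _ _)) (by omega)
    change aeval z.2 _ = 0
    rw [hP, map_mul, h2, zero_mul]

theorem cmpE_XX_fac (hF : Fac E B f p) (D : Derivation QBar ℂ ℂ) (lam : ℂ →ₗ[ℚ] ℚ) :
    rq (a := 2 * e) (b := 2 * b) f * rm (Pool.Agent.W516.DR.cmpE lam (XX B.basis D)) *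
      rq (a := 2 * b) (b := 2 * e) p = rm (Pool.Agent.W516.DR.cmpE lam (XX E.basis D)) := by
  rw [← X0_eq (A := B) D lam, ← X0_eq (A := E) D lam, rm_add, rm_add, rm_smul, rm_smul, rm_one,
    rm_one, Matrix.mul_add, Matrix.add_mul, Matrix.mul_smul, Matrix.smul_mul, Matrix.mul_one,
    hF.rq_one, ← Fac.rm_rs, hF.rs_X0]

variable {lev : Fin r → Fin K} {C C' : Matrix (Fin r) (Fin r) ℂ} {𝔭 : Submodule ℂ (T3 r b)}

theorem pj_map (φ : ℂ →ₗ[QQ] ℂ) (z : T3 r b) :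
    (((pj r f p z).1.1.map φ, φ (pj r f p z).1.2), (pj r f p z).2.map φ) =
      pj r f p ((z.1.1.map φ, φ z.1.2), z.2.map φ) := by
  refine Prod.ext rfl ?_
  change (rq (a := 2 * e) (b := 2 * b) f * z.2 * rq (a := 2 * b) (b := 2 * e) p).map φ = _
  rw [rq_mapF_right, rq_mapF_left]
  rfl

/-- **Factors.** -/
theorem LQ.fac (hF : Fac E B f p) (hL : LQ B lev 𝔭) : LQ E lev (𝔭.map (pj r f p)) where
  bt := by
    rintro _ ⟨z, hz, rfl⟩
    exact hL.bt z hz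
  br := by
    rintro _ ⟨z, hz, rfl⟩ _ ⟨w, hw, rfl⟩
    refine ⟨z * w - w * z, hL.br z hz w hw, ?_⟩
    rw [map_sub, pj_mul hF (hL.cut z hz), pj_mul hF (hL.cut w hw)]
  comp := by
    rintro _ ⟨z, hz, rfl⟩ φ
    rw [pj_map]
    exact ⟨_, hL.comp z hz φ, rfl⟩
  rq := by
    classical
    rintro _ ⟨z, hz, rfl⟩ s N h0 σ Q hQ
    obtain ⟨S, M, hS⟩ := exists_ann3 z
    obtain ⟨Q', hQ'⟩ := exists_crt (s ∪ S) (N + M) σ
    have h1 : aeval z (Lagrange.nodal (s ∪ S) id ^ (N + M)) = 0 := by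
      obtain ⟨P, hP⟩ := nodal_dvd_pow (s := S) (t := s ∪ S) (m := M) (n := N + M)
        Finset.subset_union_right (by omega)
      rw [hP, map_mul, hS, zero_mul]
    have h2 := hL.rq z hz _ _ h1 σ Q' hQ'
    refine ⟨_, h2, ?_⟩
    rw [← pj_aeval hF (hL.cut z hz)]
    refine aeval_eq_of h0 fun a ha => ?_
    have e1 := (pow_dvd_pow (X - C a) (Nat.le_add_right N M)).trans
      (hQ' a (Finset.mem_union_left _ ha))
    have e2 := dvd_sub e1 (hQ a ha)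
    rwa [sub_sub_sub_cancel_right] at e2
  cut := by
    rintro _ ⟨z, hz, rfl⟩
    exact Cut.pj hF (hL.cut z hz)

theorem PtQ.fac (hF : Fac E B f p) (hP : PtQ B C C' lev 𝔭) :
    PtQ E C C' lev (𝔭.map (pj r f p)) where
  lq := hP.lq.fac hF
  der := fun D lam => by
    refine ⟨_, hP.der D lam, ?_⟩
    refine Prod.ext rfl ?_
    exact cmpE_XX_fac hF D lam

/-- The ideal of the factor. -/
theorem nn_fac (hF : Fac E B f p) (hL : LQ B lev 𝔭) {Y : Module.End ℚ E.H1}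
    (hY : Y ∈ RM.nn E ((𝔭.map (pj r f p)).map ex3)) :
    ∃ Z ∈ RM.nn B (𝔭.map ex3), Y = rs f p Z := by
  obtain ⟨h1, z, hz, h2⟩ := mem_nn.1 hY
  obtain ⟨h3, h4⟩ := Prod.ext_iff.1 h2
  obtain ⟨lam, hlam⟩ := exists_lam1
  have h5 : ((0, z.2) : T3 r b) ∈ 𝔭 := by
    rw [← show z.1 = 0 from h3]
    exact hz
  obtain ⟨Z, hZ, h6⟩ := comp_zero hL h5 lam
  refine ⟨Z, hZ, rm_inj' ?_⟩
  rw [Fac.rm_rs, h6, ← rq_map_left, ← rq_map_right]
  have h7 : rq (a := 2 * e) (b := 2 * b) f * z.2 * rq (a := 2 * b) (b := 2 * e) p = rm Y := h4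
  rw [h7]
  exact rm_lamF hlam Y

end Pool.Agent.H621.CY
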